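import Pool.Agent.W2helper58.GA.Prob2

/-!
# Structures made of two copies of a graph with marks
-/

namespace Pool.Agent.W2helper58.GA

/-- the marks of the point `x` given by the list `L` -/
def mk (n : ℕ) (L : List ℕ) (x : ℕ) : List Bool :=
  (List.range (n + 1)).map fun i => decide (L[i]? = some x)

/-- the vertex below a point -/
def base (n x : ℕ) : ℕ := if x < n then x else x - n

/-- Two copies of the graph `a` on `0, ..., n - 1`, with marks given by `L₁` in the first copy and
by `L₂` in the second one: the type of a pair of points. -/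
def ent (n : ℕ) (a : ℕ → ℕ → Bool) (L₁ L₂ : List ℕ) (x y : ℕ) : List Bool :=
  decide (x < n ↔ y < n) :: (decide (x < n ↔ y < n) && a (base n x) (base n y)) ::
    mk n (if x < n then L₁ else L₂) (base n x)

theorem ent_length (n : ℕ) (a : ℕ → ℕ → Bool) (L₁ L₂ : List ℕ) (x y : ℕ) :
    (ent n a L₁ L₂ x y).length = n + 3 := by
  simp [ent, mk]

variable {n : ℕ}

/-- The permutation as a function on the natural numbers. -/
def pf (π : Equiv.Perm (Fin n)) (x : ℕ) : ℕ := if h : x < n then π ⟨x, h⟩ else x

theorem pf_fin (π : Equiv.Perm (Fin n)) (x : Fin n) : pf π x = π x := by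
  simp [pf]

theorem pf_of_lt (π : Equiv.Perm (Fin n)) {x : ℕ} (h : x < n) : pf π x = π ⟨x, h⟩ := dif_pos h

theorem pf_lt (π : Equiv.Perm (Fin n)) {x : ℕ} (h : x < n) : pf π x < n := by
  rw [pf_of_lt π h]; exact (π ⟨x, h⟩).2

theorem pf_inj (π : Equiv.Perm (Fin n)) {x y : ℕ} (hx : x < n) (hy : y < n)
    (h : pf π x = pf π y) : x = y := by
  rw [pf_of_lt π hx, pf_of_lt π hy] at h
  have := π.injective (Fin.ext h)
  simpa using this

theorem pf_inv (π : Equiv.Perm (Fin n)) {x : ℕ} (hx : x < n) : pf π (pf π⁻¹ x) = x := by
  rw [pf_of_lt _ hx, pf_fin]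
  simp

theorem pf_inv' (π : Equiv.Perm (Fin n)) {x : ℕ} (hx : x < n) : pf π⁻¹ (pf π x) = x := by
  rw [pf_of_lt _ hx, pf_fin]
  simp

/-- automorphisms of the graph -/
def isA (a : ℕ → ℕ → Bool) (π : Equiv.Perm (Fin n)) : Prop :=
  ∀ x y : Fin n, a (π x) (π y) = a x y

theorem isA.pf {a : ℕ → ℕ → Bool} {π : Equiv.Perm (Fin n)} (h : isA a π) {x y : ℕ} (hx : x < n)
    (hy : y < n) : a (pf π x) (pf π y) = a x y := by
  rw [pf_of_lt π hx, pf_of_lt π hy]
  exact h _ _

theorem isA.mul {a : ℕ → ℕ → Bool} {π τ : Equiv.Perm (Fin n)} (h : isA a π) (h' : isA a τ) :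
    isA a (π * τ) := fun x y => by
  rw [Equiv.Perm.mul_apply, Equiv.Perm.mul_apply, h, h']

theorem isA.inv {a : ℕ → ℕ → Bool} {π : Equiv.Perm (Fin n)} (h : isA a π) : isA a π⁻¹ :=
  fun x y => by
    have := h (π⁻¹ x) (π⁻¹ y)
    simpa using this.symm

/-- A permutation from an injective function. -/
theorem exists_perm {g : ℕ → ℕ} (h1 : ∀ x < n, g x < n) (h2 : Inj n g) :
    ∃ π : Equiv.Perm (Fin n), ∀ x < n, pf π x = g x := by
  let g' : Fin n → Fin n := fun x => ⟨g x, h1 x x.2⟩
  have hg : Function.Injective g' := by
    intro x y hxy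
    have := h2 x x.2 y y.2 (by simpa [g'] using hxy)
    exact Fin.ext this
  refine ⟨Equiv.ofBijective g' (Finite.injective_iff_bijective.1 hg), fun x hx => ?_⟩
  rw [pf_of_lt _ hx]
  rfl

theorem mk_eq {L L' : List ℕ} (hL : L.length ≤ n + 1) (hL' : L'.length ≤ n + 1) {x x' : ℕ}
    (h : mk n L x = mk n L' x') (i : ℕ) : L[i]? = some x ↔ L'[i]? = some x' := by
  by_cases hi : i < n + 1
  · have := congrArg (fun l => l[i]?) h
    simp only [mk, List.getElem?_map, List.getElem?_range hi, Option.map_some, Option.some.injEq,
      decide_eq_decide] at this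
    exact this
  · rw [List.getElem?_eq_none (by omega), List.getElem?_eq_none (by omega)]
    simp

theorem mk_congr {L L' : List ℕ} {x x' : ℕ} (h : ∀ i : ℕ, L[i]? = some x ↔ L'[i]? = some x') :
    mk n L x = mk n L' x' := by
  unfold mk
  exact List.map_congr_left fun i _ => by rw [decide_eq_decide]; exact h i

/-- Criterion for rigidity. -/
theorem rigid_of {a : ℕ → ℕ → Bool} {L₁ L₂ : List ℕ} (hl₁ : L₁.length ≤ n + 1)
    (hl₂ : L₂.length ≤ n + 1) (h₁ : ∀ x ∈ L₁, x < n) (h₂ : ∀ x ∈ L₂, x < n)
    (c₁ : ∀ π : Equiv.Perm (Fin n), isA a π → (∀ x ∈ L₁, pf π x = x) → π = 1)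
    (c₂ : ∀ π : Equiv.Perm (Fin n), isA a π → (∀ x ∈ L₂, pf π x = x) → π = 1)
    (c₃ : ∀ π : Equiv.Perm (Fin n), isA a π → L₂ ≠ L₁.map (pf π)) :
    Rigid (2 * n) (ent n a L₁ L₂) := by
  rintro σ ⟨s1, s2, s3⟩
  have key : ∀ x < 2 * n, ∀ y < 2 * n, (σ x < n ↔ σ y < n) = (x < n ↔ y < n) := by
    intro x hx y hy
    have := s3 x hx y hy
    unfold ent at this
    simp only [List.cons.injEq, decide_eq_decide] at this
    exact propext this.1
  have keya : ∀ x < 2 * n, ∀ y < 2 * n, (x < n ↔ y < n) →
      a (base n (σ x)) (base n (σ y)) = a (base n x) (base n y) := by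
    intro x hx y hy hxy
    have := s3 x hx y hy
    unfold ent at this
    simp only [List.cons.injEq, key x hx y hy, hxy, decide_true, Bool.true_and] at this
    exact this.2.1
  have keym : ∀ x < 2 * n, mk n (if σ x < n then L₁ else L₂) (base n (σ x)) =
      mk n (if x < n then L₁ else L₂) (base n x) := by
    intro x hx
    have := s3 x hx x hx
    unfold ent at this
    simp only [List.cons.injEq] at this
    exact this.2.2
  intro x hx
  have hn : 0 < n := by omega
  by_cases h0 : σ 0 < n
  · -- the copies are preserved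
    have hA : ∀ x < n, σ x < n := fun x hx => by
      have := key 0 (by omega) x (by omega)
      simp only [h0, hn, hx, true_iff, iff_self, eq_iff_iff, iff_true] at this
      exact this
    have hB : ∀ x, n ≤ x → x < 2 * n → n ≤ σ x := fun x hx hx2 => by
      have := key 0 (by omega) x hx2
      simp only [h0, hn, true_iff, eq_iff_iff] at this
      by_contra hc
      have := this.1 (by omega)
      omega
    obtain ⟨π, hπ⟩ := exists_perm (g := σ) hA fun x hx y hy => s2 x (by omega) y (by omega)
    have hπ1 : π = 1 := by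
      apply c₁ π
      · intro u v
        have := keya u (by omega) v (by omega) (by simp [u.2, v.2])
        rw [← pf_fin, ← pf_fin, hπ u u.2, hπ v v.2]
        unfold base at this
        rwa [if_pos (hA u u.2), if_pos (hA v v.2), if_pos u.2, if_pos v.2] at this
      · intro u hu
        have hun := h₁ u hu
        have := keym u (by omega)
        rw [if_pos (hA u hun), if_pos hun] at this
        unfold base at this
        rw [if_pos (hA u hun), if_pos hun] at this
        obtain ⟨i, hi⟩ := List.getElem?_of_mem hu
        have h3 := (mk_eq hl₁ hl₁ this i).2 hi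
        rw [hi] at h3
        rw [hπ u hun]
        exact (Option.some.inj h3).symm
    obtain ⟨τ, hτ⟩ := exists_perm (n := n) (g := fun x => σ (x + n) - n)
      (fun x hx => by have := s1 (x + n) (by omega); have := hB (x + n) (by omega) (by omega); omega)
      (fun x hx y hy hxy => by
        have e1 := hB (x + n) (by omega) (by omega)
        have e2 := hB (y + n) (by omega) (by omega)
        have hxy' : σ (x + n) - n = σ (y + n) - n := hxy
        have := s2 (x + n) (by omega) (y + n) (by omega) (by omega)
        omega)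
    have hbase : ∀ x < n, base n (x + n) = x := fun x hx => by
      unfold base; rw [if_neg (by omega)]; omega
    have hbase' : ∀ x < n, base n (σ (x + n)) = pf τ x := fun x hx => by
      have e1 := hB (x + n) (by omega) (by omega)
      rw [hτ x hx]
      unfold base; rw [if_neg (by omega)]
    have hτ1 : τ = 1 := by
      apply c₂ τ
      · intro u v
        have := keya (u + n) (by omega) (v + n) (by omega) (by simp)
        rw [hbase u u.2, hbase v v.2, hbase' u u.2, hbase' v v.2, pf_fin, pf_fin] at this
        exact this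
      · intro u hu
        have hun := h₂ u hu
        have := keym (u + n) (by omega)
        have e1 := hB (u + n) (by omega) (by omega)
        rw [if_neg (by omega), if_neg (by omega), hbase u hun, hbase' u hun] at this
        obtain ⟨i, hi⟩ := List.getElem?_of_mem hu
        have h3 := (mk_eq hl₂ hl₂ this i).2 hi
        rw [hi] at h3
        exact (Option.some.inj h3).symm
    by_cases hxn : x < n
    · have := hπ x hxn
      rw [hπ1, pf_of_lt _ hxn] at this
      simpa using this.symm
    · have h3 := hτ (x - n) (by omega)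
      rw [hτ1, pf_of_lt _ (by omega)] at h3
      have e1 := hB x (by omega) hx
      simp only [Equiv.Perm.coe_one, id_eq] at h3
      rw [show x - n + n = x by omega] at h3
      omega
  · -- the copies are swapped
    exfalso
    have hA : ∀ x < n, n ≤ σ x := fun x hx => by
      have := key 0 (by omega) x (by omega)
      simp only [h0, hn, hx, false_iff, iff_self, eq_iff_iff, iff_true] at this
      omega
    obtain ⟨π, hπ⟩ := exists_perm (n := n) (g := fun x => σ x - n)
      (fun x hx => by have := s1 x (by omega); have := hA x hx; omega)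
      (fun x hx y hy hxy => by
        have e1 := hA x hx
        have e2 := hA y hy
        have hxy' : σ x - n = σ y - n := hxy
        exact s2 x (by omega) y (by omega) (by omega))
    have hbase' : ∀ x < n, base n (σ x) = pf π x := fun x hx => by
      have e1 := hA x hx
      rw [hπ x hx]
      unfold base; rw [if_neg (by omega)]
    have hbase : ∀ x < n, base n x = x := fun x hx => by unfold base; rw [if_pos hx]
    have hmarks : ∀ x < n, ∀ i : ℕ, L₂[i]? = some (pf π x) ↔ L₁[i]? = some x := by
      intro x hx i
      have := keym x (by omega)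
      have e1 := hA x hx
      rw [if_neg (by omega), if_pos hx, hbase x hx, hbase' x hx] at this
      exact mk_eq hl₂ hl₁ this i
    refine c₃ π ?_ ?_
    · intro u v
      have := keya u (by omega) v (by omega) (by simp [u.2, v.2])
      rw [hbase u u.2, hbase v v.2, hbase' u u.2, hbase' v v.2, pf_fin, pf_fin] at this
      exact this
    · apply List.ext_getElem?
      intro i
      rw [List.getElem?_map]
      cases hi : L₁[i]? with
      | some y =>
        have hy := h₁ y (List.mem_of_getElem? hi)
        rw [(hmarks y hy i).2 hi]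
        rfl
      | none =>
        cases hi2 : L₂[i]? with
        | none => rfl
        | some y =>
          have hy := h₂ y (List.mem_of_getElem? hi2)
          have h3 := (hmarks (pf π⁻¹ y) (pf_lt _ hy) i).1 (by rw [pf_inv π hy]; exact hi2)
          rw [hi] at h3
          exact absurd h3 (by simp)

/-- The structure without marks in the first copy, for a graph that is not rigid. -/
theorem nonrigid_left {a : ℕ → ℕ → Bool} {π : Equiv.Perm (Fin n)} (hπ : isA a π) (hπ1 : π ≠ 1)
    (L₂ : List ℕ) : ∃ σ, IsAut (2 * n) (ent n a [] L₂) σ ∧ ∃ u < 2 * n, σ u ≠ u := by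
  refine ⟨fun x => if x < n then pf π x else x, ⟨?_, ?_, ?_⟩, ?_⟩
  · intro x hx
    simp only
    split_ifs with h
    · have := pf_lt π h; omega
    · exact hx
  · intro x hx y hy hxy
    simp only at hxy
    split_ifs at hxy with h1 h2 h2
    · exact pf_inj π h1 h2 hxy
    · have := pf_lt π h1; omega
    · have := pf_lt π h2; omega
    · exact hxy
  · intro x hx y hy
    have hs : ∀ z, (if z < n then pf π z else z) < n ↔ z < n := by
      intro z
      split_ifs with h
      · simp [h, pf_lt π h]
      · simp [h]
    have hb : ∀ z, base n (if z < n then pf π z else z) = if z < n then pf π z else z - n := by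
      intro z
      unfold base
      by_cases h : z < n
      · simp [h, pf_lt π h]
      · simp [h]
    unfold ent
    simp only [hs, hb]
    congr 1
    congr 1
    · by_cases h1 : x < n <;> by_cases h2 : y < n
      · simp only [h1, h2, if_true]
        rw [hπ.pf h1 h2]
        simp [base, h1, h2]
      · simp [h1, h2]
      · simp [h1, h2]
      · simp [h1, h2, base]
    · by_cases h1 : x < n
      · simp only [h1, if_true]
        exact mk_congr (by simp)
      · simp [h1, base]
  · have : ∃ x, π x ≠ x := by
      by_contra hc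
      push Not at hc
      exact hπ1 (Equiv.ext hc)
    obtain ⟨x, hx⟩ := this
    refine ⟨x, by omega, ?_⟩
    simp only [x.2, if_true, pf_fin]
    exact fun h => hx (Fin.ext h)

/-- The structure with isomorphic copies. -/
theorem nonrigid_swap {a : ℕ → ℕ → Bool} {π : Equiv.Perm (Fin n)} (hπ : isA a π) (hn : 0 < n)
    {L₁ : List ℕ} (h₁ : ∀ x ∈ L₁, x < n) :
    ∃ σ, IsAut (2 * n) (ent n a L₁ (L₁.map (pf π))) σ ∧ ∃ u < 2 * n, σ u ≠ u := by
  let σ : ℕ → ℕ := fun x => if x < n then pf π x + n else pf π⁻¹ (x - n)
  have σ1 : ∀ x, x < n → σ x = pf π x + n := fun x h => by simp [σ, h]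
  have σ2 : ∀ x, ¬ x < n → σ x = pf π⁻¹ (x - n) := fun x h => by simp [σ, h]
  have b1 : ∀ x, x < n → base n (σ x) = pf π x := fun x h => by
    rw [σ1 x h]; unfold base; rw [if_neg (by omega)]; omega
  have b2 : ∀ x, ¬ x < n → x < 2 * n → base n (σ x) = pf π⁻¹ (x - n) := fun x h h' => by
    rw [σ2 x h]; unfold base; rw [if_pos (pf_lt _ (by omega))]
  have c1 : ∀ x, x < n → base n x = x := fun x h => by unfold base; rw [if_pos h]
  have c2 : ∀ x, ¬ x < n → base n x = x - n := fun x h => by unfold base; rw [if_neg h]
  have s1 : ∀ x, x < n → (σ x < n) = False := fun x h => by rw [σ1 x h]; simp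
  have s2 : ∀ x, ¬ x < n → x < 2 * n → (σ x < n) = True := fun x h h' => by
    rw [σ2 x h]; simp [pf_lt π⁻¹ (show x - n < n by omega)]
  have hmarks : ∀ x < n, ∀ i : ℕ, (L₁.map (pf π))[i]? = some (pf π x) ↔ L₁[i]? = some x := by
    intro x hx i
    rw [List.getElem?_map]
    constructor
    · intro h
      cases hi : L₁[i]? with
      | none => rw [hi] at h; simp at h
      | some y =>
        rw [hi] at h
        have hy := h₁ y (List.mem_of_getElem? hi)
        rw [pf_inj π hy hx (by simpa using h)]
    · intro h
      rw [h]; rfl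
  refine ⟨σ, ⟨?_, ?_, ?_⟩, ⟨0, by omega, ?_⟩⟩
  · intro x hx
    by_cases h : x < n
    · rw [σ1 x h]; have := pf_lt π h; omega
    · rw [σ2 x h]; have := pf_lt π⁻¹ (show x - n < n by omega); omega
  · intro x hx y hy hxy
    by_cases h1 : x < n <;> by_cases h2 : y < n
    · rw [σ1 x h1, σ1 y h2] at hxy
      exact pf_inj π h1 h2 (by omega)
    · rw [σ1 x h1, σ2 y h2] at hxy
      have := pf_lt π⁻¹ (show y - n < n by omega)
      omega
    · rw [σ2 x h1, σ1 y h2] at hxy
      have := pf_lt π⁻¹ (show x - n < n by omega)
      omega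
    · rw [σ2 x h1, σ2 y h2] at hxy
      have := pf_inj π⁻¹ (show x - n < n by omega) (show y - n < n by omega) hxy
      omega
  · intro x hx y hy
    unfold ent
    congr 1
    · by_cases h1 : x < n <;> by_cases h2 : y < n
      · simp [h1, h2, s1 x h1, s1 y h2]
      · simp [h1, h2, s1 x h1, s2 y h2 hy]
      · simp [h1, h2, s2 x h1 hx, s1 y h2]
      · simp [h1, h2, s2 x h1 hx, s2 y h2 hy]
    congr 1
    · by_cases h1 : x < n <;> by_cases h2 : y < n
      · simp only [h1, h2, s1 x h1, s1 y h2, b1 x h1, b1 y h2, c1 x h1, c1 y h2, hπ.pf h1 h2]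
      · simp [h1, h2, s1 x h1, s2 y h2 hy]
      · simp [h1, h2, s2 x h1 hx, s1 y h2]
      · simp only [h1, h2, s2 x h1 hx, s2 y h2 hy, b2 x h1 hx, b2 y h2 hy, c2 x h1, c2 y h2,
          hπ.inv.pf (show x - n < n by omega) (show y - n < n by omega)]
    · by_cases h1 : x < n
      · simp only [h1, s1 x h1, b1 x h1, c1 x h1, if_true, if_false]
        exact mk_congr (hmarks x h1)
      · simp only [h1, s2 x h1 hx, b2 x h1 hx, c2 x h1, if_true, if_false]
        refine mk_congr fun i => ?_
        have h3 := hmarks (pf π⁻¹ (x - n)) (pf_lt _ (by omega)) i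
        rw [pf_inv π (by omega)] at h3
        exact h3.symm
  · rw [σ1 0 hn]; omega

/-- The graph itself is rigid if and only if the structure with `[]` and `0, ..., n - 1` is. -/
theorem rigid_graph {a : ℕ → ℕ → Bool} (hn : 0 < n)
    (h : ∀ π : Equiv.Perm (Fin n), isA a π → π = 1) :
    Rigid (2 * n) (ent n a [] (List.range n)) := by
  refine rigid_of (by simp) (by simp) (by simp) (by simp) (fun π hπ _ => h π hπ)
    (fun π hπ _ => h π hπ) ?_
  intro π _ hc
  have := congrArg List.length hc
  simp at this
  omega

/-- For a graph that is not rigid, a non-trivial automorphism can be found by rigidity tests. -/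
theorem exists_search {a : ℕ → ℕ → Bool} (h : ∃ π : Equiv.Perm (Fin n), isA a π ∧ π ≠ 1) :
    ∃ k < n, ∃ j < n, ∃ π : Equiv.Perm (Fin n), isA a π ∧ π ≠ 1 ∧
      (∀ u < n, (List.range k ++ [k, u]).map (pf π) = List.range k ++ [j, pf π u]) ∧
      ∀ u < n, ∀ v < n, v ≠ pf π u →
        Rigid (2 * n) (ent n a (List.range k ++ [k, u]) (List.range k ++ [j, v])) := by
  let P : ℕ → Prop := fun k => ∃ π : Equiv.Perm (Fin n), isA a π ∧ π ≠ 1 ∧ ∀ i < k, pf π i = i
  have hP0 : P 0 := by
    obtain ⟨π, h1, h2⟩ := h
    exact ⟨π, h1, h2, by simp⟩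
  have hPn : ¬ P n := by
    rintro ⟨π, h1, h2, h3⟩
    apply h2
    ext x
    have := h3 x x.2
    rw [pf_fin] at this
    simpa using this
  obtain ⟨k, hk, hPk, hPk1⟩ : ∃ k < n, P k ∧ ¬ P (k + 1) := by
    by_contra hc
    push Not at hc
    have : ∀ k ≤ n, P k := by
      intro k
      induction k with
      | zero => intro _; exact hP0
      | succ k ih => intro hk; exact hc k (by omega) (ih (by omega))
    exact hPn (this n le_rfl)
  obtain ⟨π, hπ, hπ1, hfix⟩ := hPk
  have hmap : ∀ (τ : Equiv.Perm (Fin n)), (∀ i < k, pf τ i = i) →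
      (List.range k).map (pf τ) = List.range k := by
    intro τ hτ
    conv_rhs => rw [← List.map_id (List.range k)]
    exact List.map_congr_left fun i hi => hτ i (by simpa using hi)
  have htriv : ∀ τ : Equiv.Perm (Fin n), isA a τ → (∀ i < k + 1, pf τ i = i) → τ = 1 := by
    intro τ h1 h2
    by_contra h3
    exact hPk1 ⟨τ, h1, h3, h2⟩
  have hpfmul : ∀ (τ τ' : Equiv.Perm (Fin n)) x, x < n → pf (τ * τ') x = pf τ (pf τ' x) := by
    intro τ τ' x hx
    rw [pf_of_lt _ hx, pf_of_lt τ' hx, pf_fin, Equiv.Perm.mul_apply]
  have hinvfix : ∀ i < k, pf π⁻¹ i = i := by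
    intro i hi
    have := pf_inv' π (show i < n by omega)
    rwa [hfix i hi] at this
  refine ⟨k, hk, pf π k, pf_lt π hk, π, hπ, hπ1, ?_, ?_⟩
  · intro u hu
    rw [List.map_append, hmap π hfix]
    rfl
  · intro u hu v hv huv
    refine rigid_of (by simp; omega) (by simp; omega) ?_ ?_ ?_ ?_ ?_
    · intro x hx
      simp only [List.mem_append, List.mem_range, List.mem_cons, List.not_mem_nil, or_false] at hx
      omega
    · intro x hx
      have := pf_lt π hk
      simp only [List.mem_append, List.mem_range, List.mem_cons, List.not_mem_nil, or_false] at hx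
      omega
    · intro τ hτ hfixτ
      apply htriv τ hτ
      intro i hi
      apply hfixτ
      simp only [List.mem_append, List.mem_range, List.mem_cons]
      omega
    · intro τ hτ hfixτ
      have h1 : π⁻¹ * τ * π = 1 := by
        apply htriv _ ((hπ.inv.mul hτ).mul hπ)
        intro i hi
        rw [hpfmul _ _ i (by omega), hpfmul _ _ _ (pf_lt π (by omega))]
        have : pf τ (pf π i) = pf π i := by
          apply hfixτ
          by_cases hik : i = k
          · subst hik; simp
          · rw [hfix i (by omega)]
            simp only [List.mem_append, List.mem_range]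
            left; omega
        rw [this, pf_inv' π (by omega)]
      have h2 : τ = π * 1 * π⁻¹ := by
        rw [← h1]; group
      rw [h2]; group
    · intro τ hτ hcon
      rw [List.map_append] at hcon
      have h1 := List.append_inj hcon (by simp)
      have h2 : pf π k = pf τ k ∧ v = pf τ u := by simpa using h1.2
      have h3 : ∀ i < k, pf τ i = i := by
        intro i hi
        have := congrArg (fun l => l[i]?) h1.1
        simp only [List.getElem?_map, List.getElem?_range hi, Option.map_some,
          Option.some.injEq] at this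
        exact this.symm
      have h4 : π⁻¹ * τ = 1 := by
        apply htriv _ (hπ.inv.mul hτ)
        intro i hi
        rw [hpfmul _ _ i (by omega)]
        by_cases hik : i = k
        · subst hik
          rw [← h2.1, pf_inv' π hk]
        · rw [h3 i (by omega), hinvfix i (by omega)]
      have h5 : τ = π := by
        have := congrArg (fun x => π * x) h4
        simpa [mul_assoc] using this
      rw [h5] at h2
      exact huv h2.2

end Pool.Agent.W2helper58.GA
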