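import Pool.Agent.W2helper58.GA.Compress
import Pool.Agent.W2helper58.GA.Struct

/-!
# The algorithm
-/

namespace Pool.Agent.W2helper58.GA

open Pool.Agent.NPC Pool.Agent.H620R2.Gauge

/-! ### Graphs -/

/-- the adjacency relation given by a matrix -/
def aM (A : List (List Bool)) (x y : ℕ) : Bool := (A.getD x []).getD y false

/-- Is it the adjacency matrix of a graph? -/
def validB (A : List (List Bool)) : Bool :=
  (A.all fun row => decide (row.length = A.length)) &&
    ((List.range A.length).all fun x => !(aM A x x)) &&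
    (List.range A.length).all fun x => (List.range A.length).all fun y => decide (aM A x y = aM A y x)

/-- the matrix given by the input, `[]` if the input is not the code of an adjacency matrix -/
def gA (x : List Bool) : List (List Bool) :=
  if validB ((unbits (List (List Bool)) x).getD []) then (unbits (List (List Bool)) x).getD []
  else []

/-! ### The decision from the results of the tests -/

/-- Is it a non-trivial automorphism? -/
def isAutB (n : ℕ) (a : ℕ → ℕ → Bool) (g : ℕ → ℕ) : Bool :=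
  ((List.range n).all fun x => decide (g x < n)) &&
    ((List.range n).all fun x => (List.range n).all fun y =>
      decide (g x = g y → x = y) && decide (a (g x) (g y) = a x y)) &&
    (List.range n).any fun x => decide (g x ≠ x)

theorem isAutB_iff {n : ℕ} {a : ℕ → ℕ → Bool} {g : ℕ → ℕ} (h : isAutB n a g = true) :
    ∃ π : Equiv.Perm (Fin n), isA a π ∧ π ≠ 1 := by
  simp only [isAutB, Bool.and_eq_true, List.all_eq_true, List.mem_range, decide_eq_true_eq,
    List.any_eq_true] at h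
  obtain ⟨⟨h1, h2⟩, x, hx, hgx⟩ := h
  obtain ⟨π, hπ⟩ := exists_perm h1 fun x hx y hy => (h2 x hx y hy).1
  refine ⟨π, fun x y => ?_, ?_⟩
  · rw [← pf_fin, ← pf_fin, hπ x x.2, hπ y y.2]
    exact (h2 x x.2 y y.2).2
  · rintro rfl
    apply hgx
    rw [← hπ x hx, pf_of_lt _ hx]
    simp

/-- the number of the instance `(k, j, u, v)` -/
def idxI (n k j u v : ℕ) : ℕ := 1 + (((k * n + j) * n + u) * n + v)

/-- the candidate for the image of `u` -/
def cand (n : ℕ) (H : ℕ → Bool) (k j u : ℕ) : ℕ :=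
  (((List.range n).filter fun v => !(H (idxI n k j u v))).head?).getD 0

/-- the output, if `H I` tells whether the instance number `I` was found to be rigid -/
def outp (n : ℕ) (a : ℕ → ℕ → Bool) (H : ℕ → Bool) : List Bool :=
  if H 0 then [false]
  else if (List.range n).any fun k => (List.range n).any fun j => isAutB n a (cand n H k j) then
    [true]
  else []

/-- the first list of marks of an instance -/
def inst1 (n I : ℕ) : List ℕ :=
  if I = 0 then []
  else List.range (min ((I - 1) / n / n / n) n) ++ [(I - 1) / n / n / n, (I - 1) / n % n]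

/-- the second list of marks of an instance -/
def inst2 (n I : ℕ) : List ℕ :=
  if I = 0 then List.range n
  else List.range (min ((I - 1) / n / n / n) n) ++ [(I - 1) / n / n % n, (I - 1) % n]

theorem idx_dec {n k j u v : ℕ} (hj : j < n) (hu : u < n) (hv : v < n) :
    (idxI n k j u v - 1) % n = v ∧ (idxI n k j u v - 1) / n % n = u ∧
      (idxI n k j u v - 1) / n / n % n = j ∧ (idxI n k j u v - 1) / n / n / n = k := by
  have hn : 0 < n := by omega
  have e0 : idxI n k j u v - 1 = n * ((k * n + j) * n + u) + v := by unfold idxI; rw [mul_comm n]; omega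
  have e1 : (n * ((k * n + j) * n + u) + v) / n = (k * n + j) * n + u := by
    rw [Nat.mul_add_div hn, Nat.div_eq_of_lt hv, add_zero]
  have e2 : ((k * n + j) * n + u) / n = k * n + j := by
    rw [mul_comm (k * n + j), Nat.mul_add_div hn, Nat.div_eq_of_lt hu, add_zero]
  have e3 : (k * n + j) / n = k := by
    rw [mul_comm k, Nat.mul_add_div hn, Nat.div_eq_of_lt hj, add_zero]
  rw [e0, e1, e2, e3]
  refine ⟨?_, ?_, ?_, rfl⟩
  · rw [Nat.mul_add_mod, Nat.mod_eq_of_lt hv]
  · rw [mul_comm (k * n + j), Nat.mul_add_mod, Nat.mod_eq_of_lt hu]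
  · rw [mul_comm k, Nat.mul_add_mod, Nat.mod_eq_of_lt hj]

theorem inst1_idx {n k j u v : ℕ} (hk : k < n) (hj : j < n) (hu : u < n) (hv : v < n) :
    inst1 n (idxI n k j u v) = List.range k ++ [k, u] := by
  obtain ⟨h1, h2, h3, h4⟩ := idx_dec (k := k) hj hu hv
  unfold inst1
  rw [if_neg (by unfold idxI; omega), h2, h4, min_eq_left hk.le]

theorem inst2_idx {n k j u v : ℕ} (hk : k < n) (hj : j < n) (hu : u < n) (hv : v < n) :
    inst2 n (idxI n k j u v) = List.range k ++ [j, v] := by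
  obtain ⟨h1, h2, h3, h4⟩ := idx_dec (k := k) hj hu hv
  unfold inst2
  rw [if_neg (by unfold idxI; omega), h1, h3, h4, min_eq_left hk.le]

/-- The output is never wrong. -/
theorem outp_sound {n : ℕ} {a : ℕ → ℕ → Bool} {H : ℕ → Bool}
    (hH : H 0 = true → ∀ π : Equiv.Perm (Fin n), isA a π → π = 1) :
    (outp n a H = [true] → ∃ π : Equiv.Perm (Fin n), isA a π ∧ π ≠ 1) ∧
    (outp n a H = [false] → ¬ ∃ π : Equiv.Perm (Fin n), isA a π ∧ π ≠ 1) := by
  unfold outp
  constructor
  · intro h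
    split_ifs at h with h1 h2
    · simp at h
    · simp only [List.any_eq_true] at h2
      obtain ⟨k, _, j, _, hkj⟩ := h2
      exact isAutB_iff hkj
  · intro h
    split_ifs at h with h1 h2
    · rintro ⟨π, hπ, hπ1⟩
      exact hπ1 (hH h1 π hπ)
    · simp at h

/-- If the tests give the right results, then the output is the right one, in the case of a graph
that is not rigid. -/
theorem outp_complete {n : ℕ} {a : ℕ → ℕ → Bool} {H : ℕ → Bool} {k j : ℕ}
    {π : Equiv.Perm (Fin n)} (hk : k < n) (hj : j < n) (hπ : isA a π) (hπ1 : π ≠ 1)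
    (h0 : H 0 = false) (h1 : ∀ u < n, H (idxI n k j u (pf π u)) = false)
    (h2 : ∀ u < n, ∀ v < n, v ≠ pf π u → H (idxI n k j u v) = true) :
    outp n a H = [true] := by
  have hc : ∀ u < n, cand n H k j u = pf π u := by
    intro u hu
    unfold cand
    have : (List.range n).filter (fun v => !(H (idxI n k j u v))) = [pf π u] := by
      have e : (List.range n).filter (fun v => !(H (idxI n k j u v))) =
          (List.range n).filter (fun v => v == pf π u) := by
        refine List.filter_congr fun v hv => ?_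
        by_cases hvu : v = pf π u
        · subst hvu; simp [h1 u hu]
        · simp [h2 u hu v (List.mem_range.1 hv) hvu, hvu]
      rw [e, List.filter_beq]
      have : List.count (pf π u) (List.range n) = 1 :=
        List.count_eq_one_of_mem List.nodup_range (List.mem_range.2 (pf_lt π hu))
      rw [this]
      rfl
    rw [this]
    rfl
  have hA : isAutB n a (cand n H k j) = true := by
    simp only [isAutB, Bool.and_eq_true, List.all_eq_true, List.mem_range, decide_eq_true_eq,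
      List.any_eq_true]
    refine ⟨⟨fun x hx => by rw [hc x hx]; exact pf_lt π hx, fun x hx y hy => ?_⟩, ?_⟩
    · rw [hc x hx, hc y hy]
      exact ⟨fun h => pf_inj π hx hy h, hπ.pf hx hy⟩
    · have : ∃ x, π x ≠ x := by
        by_contra hcon
        push Not at hcon
        exact hπ1 (Equiv.ext hcon)
      obtain ⟨x, hx⟩ := this
      refine ⟨x, x.2, ?_⟩
      rw [hc x x.2, pf_fin]
      exact fun h => hx (Fin.ext h)
  unfold outp
  rw [h0, if_neg (by simp), if_pos]
  rw [List.any_eq_true]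
  refine ⟨k, List.mem_range.2 hk, ?_⟩
  rw [List.any_eq_true]
  exact ⟨j, List.mem_range.2 hj, hA⟩

/-! ### The machine -/

/-- the matrix of an instance -/
def matE (A : List (List Bool)) (I : ℕ) : List (List (List Bool)) :=
  (List.range (2 * A.length)).map fun x => (List.range (2 * A.length)).map fun y =>
    ent A.length (aM A) (inst1 A.length I) (inst2 A.length I) x y

theorem matE_length (A : List (List Bool)) (I : ℕ) : (matE A I).length = 2 * A.length := by
  simp [matE]

theorem matF_matE (A : List (List Bool)) (I : ℕ) {x y : ℕ} (hx : x < 2 * A.length)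
    (hy : y < 2 * A.length) : matF (matE A I) x y =
      ent A.length (aM A) (inst1 A.length I) (inst2 A.length I) x y := by
  simp [matF, matE, hx, hy, List.getD_eq_getElem?_getD]

section Params

variable (c₀ : ℕ) (TP : Polynomial ℕ)

/-- the parameter `m` -/
def mP (x : List Bool) : ℕ := x.length + c₀

/-- the number of repetitions -/
def rP (x : List Bool) : ℕ := 3 * (2 * mP c₀ x + 1)

/-- the number of random bits of a test -/
def bP (x : List Bool) : ℕ :=
  rlen (2 * (gA x).length) (mP c₀ x) (TP.eval (mP c₀ x)) ((gA x).length + 3)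

/-- the number of random bits for the hash function -/
def hP (x : List Bool) : ℕ := hlen (2 * (gA x).length) (mP c₀ x) ((gA x).length + 3)

/-- the random bits of repetition `ρ` -/
def rnd (w x : List Bool) (ρ i : ℕ) : Bool := w.getD (ρ * bP c₀ TP x + i) false

/-- the query for instance `I` and repetition `ρ` -/
def zq (w x : List Bool) (I ρ : ℕ) : List Bool :=
  zStr (2 * (gA x).length) (mP c₀ x) (TP.eval (mP c₀ x)) (matF (matE (gA x) I))
    (rnd c₀ TP w x ρ) (fun i => rnd c₀ TP w x ρ (hP c₀ x + i))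

/-- Are the labellings of repetition `ρ` injective? -/
def okq (w x : List Bool) (ρ : ℕ) : Bool :=
  (List.range (TP.eval (mP c₀ x))).all fun t =>
    okB (2 * (gA x).length) (mP c₀ x) (fun i => rnd c₀ TP w x ρ (hP c₀ x + i)) t

/-- the output, as a function of the answers -/
def fin (w x a : List Bool) : List Bool :=
  if (gA x).length = 0 then [false]
  else outp (gA x).length (aM (gA x)) fun I => (List.range (rP c₀ x)).any fun ρ =>
    okq c₀ TP w x ρ && a.getD (I * rP c₀ x + ρ) false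

/-- the number of queries -/
def kP (x : List Bool) : ℕ := (1 + (gA x).length * (gA x).length * (gA x).length *
  (gA x).length) * rP c₀ x

/-- What the oracle algorithm does next. -/
def DD (y : List Bool) : List Bool :=
  if (unpair y).2.length < kP c₀ (unpair (unpair y).1).2 then
    false :: zq c₀ TP (unpair (unpair y).1).1 (unpair (unpair y).1).2
      ((unpair y).2.length / rP c₀ (unpair (unpair y).1).2)
      ((unpair y).2.length % rP c₀ (unpair (unpair y).1).2)
  else true :: fin c₀ TP (unpair (unpair y).1).1 (unpair (unpair y).1).2 (unpair y).2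

/-- the function computed by the algorithm -/
noncomputable def VV (U : Machine) (y : List Bool) : List Bool :=
  fin c₀ TP (unpair y).1 (unpair y).2 ((List.range (kP c₀ (unpair y).2)).map fun q =>
    RKT U (zq c₀ TP (unpair y).1 (unpair y).2 (q / rP c₀ (unpair y).2) (q % rP c₀ (unpair y).2)))

theorem poly_aM {α : Type} [TEnc α] {A : α → List (List Bool)} {x y : α → ℕ}
    (hA : NPC.Poly A) (hx : NPC.Poly x) (hy : NPC.Poly y) :
    NPC.Poly (fun a => aM (A a) (x a) (y a)) :=
  NPC.Poly.getD (NPC.Poly.getD hA hx (NPC.Poly.const _)) hy (NPC.Poly.const _)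

theorem poly_validB : NPC.Poly validB := by
  refine NPC.Poly.and (NPC.Poly.and ?_ ?_) ?_
  · exact NPC.Poly.all (p := fun (A : List (List Bool)) row => decide (row.length = A.length))
      NPC.Poly.id (NPC.Poly.decide_eq (NPC.Poly.length (NPC.Poly.snd NPC.Poly.id))
        (NPC.Poly.length (NPC.Poly.fst NPC.Poly.id)))
  · exact NPC.Poly.all (p := fun (A : List (List Bool)) x => !(aM A x x))
      (NPC.Poly.range_length NPC.Poly.id) (NPC.Poly.not (poly_aM (NPC.Poly.fst NPC.Poly.id)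
        (NPC.Poly.snd NPC.Poly.id) (NPC.Poly.snd NPC.Poly.id)))
  · refine NPC.Poly.all (p := fun (A : List (List Bool)) x => (List.range A.length).all fun y =>
      decide (aM A x y = aM A y x)) (NPC.Poly.range_length NPC.Poly.id) ?_
    exact NPC.Poly.all (p := fun (p : List (List Bool) × ℕ) y =>
      decide (aM p.1 p.2 y = aM p.1 y p.2)) (NPC.Poly.range_length (NPC.Poly.fst NPC.Poly.id))
      (NPC.Poly.decide_eq (poly_aM (NPC.Poly.fst (NPC.Poly.fst NPC.Poly.id))
        (NPC.Poly.snd (NPC.Poly.fst NPC.Poly.id)) (NPC.Poly.snd NPC.Poly.id))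
        (poly_aM (NPC.Poly.fst (NPC.Poly.fst NPC.Poly.id)) (NPC.Poly.snd NPC.Poly.id)
          (NPC.Poly.snd (NPC.Poly.fst NPC.Poly.id))))

theorem poly_gA : NPC.Poly gA := by
  have h1 : NPC.Poly (fun x : List Bool => (unbits (List (List Bool)) x).getD []) := by
    refine (NPC.Poly.optCases (o := fun x : List Bool => unbits (List (List Bool)) x)
      (g := fun _ => []) (h := fun _ A => A) poly_unbits (NPC.Poly.const _)
      (NPC.Poly.snd NPC.Poly.id)).congr fun x => ?_
    cases unbits (List (List Bool)) x <;> rfl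
  refine (NPC.Poly.cond (poly_validB.comp h1) h1 (NPC.Poly.const [])).congr fun x => ?_
  unfold gA
  cases validB ((unbits (List (List Bool)) x).getD []) <;> rfl

section

variable {α : Type} [TEnc α]

theorem poly_iff {p q : α → Prop} [DecidablePred p] [DecidablePred q]
    (hp : NPC.Poly (fun a => decide (p a))) (hq : NPC.Poly (fun a => decide (q a))) :
    NPC.Poly (fun a => decide (p a ↔ q a)) :=
  (NPC.Poly.decide_eq hp hq).congr fun a => by
    by_cases h1 : p a <;> by_cases h2 : q a <;> simp [h1, h2]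

theorem poly_base {n x : α → ℕ} (hn : NPC.Poly n) (hx : NPC.Poly x) :
    NPC.Poly (fun a => base (n a) (x a)) :=
  NPC.Poly.ite (NPC.Poly.decide_lt hx hn) hx (NPC.Poly.sub hx hn)

theorem poly_mk {n x : α → ℕ} {L : α → List ℕ} (hn : UPoly n) (hL : NPC.Poly L)
    (hx : NPC.Poly x) : NPC.Poly (fun a => mk (n a) (L a) (x a)) :=
  NPC.Poly.map (F := fun a i => decide ((L a)[i]? = some (x a))) (hn.add (UPoly.const 1)).range
    (NPC.Poly.decide_eq (NPC.Poly.getElem? (hL.comp (NPC.Poly.fst NPC.Poly.id))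
      (NPC.Poly.snd NPC.Poly.id)) (NPC.Poly.some (hx.comp (NPC.Poly.fst NPC.Poly.id))))

theorem poly_ent {n x y : α → ℕ} {A : α → List (List Bool)} {L₁ L₂ : α → List ℕ} (hn : UPoly n)
    (hA : NPC.Poly A) (h₁ : NPC.Poly L₁) (h₂ : NPC.Poly L₂) (hx : NPC.Poly x)
    (hy : NPC.Poly y) :
    NPC.Poly (fun a => ent (n a) (aM (A a)) (L₁ a) (L₂ a) (x a) (y a)) := by
  have hn' := hn.toPoly
  have hs : NPC.Poly (fun a => decide (x a < n a ↔ y a < n a)) :=
    poly_iff (NPC.Poly.decide_lt hx hn') (NPC.Poly.decide_lt hy hn')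
  exact NPC.Poly.cons hs (NPC.Poly.cons (NPC.Poly.and hs (poly_aM hA (poly_base hn' hx)
    (poly_base hn' hy))) (poly_mk hn (NPC.Poly.ite (NPC.Poly.decide_lt hx hn') h₁ h₂)
      (poly_base hn' hx)))

theorem poly_inst1 {n I : α → ℕ} (hn : UPoly n) (hI : NPC.Poly I) :
    NPC.Poly (fun a => inst1 (n a) (I a)) := by
  have hn' := hn.toPoly
  have h0 : NPC.Poly (fun a => I a - 1) := NPC.Poly.sub hI (NPC.Poly.const 1)
  have h1 := NPC.Poly.div h0 hn'
  have h3 := NPC.Poly.div (NPC.Poly.div h1 hn') hn'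
  exact NPC.Poly.ite (NPC.Poly.decide_eq hI (NPC.Poly.const 0)) (NPC.Poly.const [])
    (NPC.Poly.append (UPoly.of_le (NPC.Poly.min h3 hn') hn fun a => min_le_right _ _).range
      (NPC.Poly.cons h3 (NPC.Poly.cons (NPC.Poly.mod h1 hn') (NPC.Poly.const []))))

theorem poly_inst2 {n I : α → ℕ} (hn : UPoly n) (hI : NPC.Poly I) :
    NPC.Poly (fun a => inst2 (n a) (I a)) := by
  have hn' := hn.toPoly
  have h0 : NPC.Poly (fun a => I a - 1) := NPC.Poly.sub hI (NPC.Poly.const 1)
  have h2 := NPC.Poly.div (NPC.Poly.div h0 hn') hn'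
  have h3 := NPC.Poly.div h2 hn'
  exact NPC.Poly.ite (NPC.Poly.decide_eq hI (NPC.Poly.const 0)) hn.range
    (NPC.Poly.append (UPoly.of_le (NPC.Poly.min h3 hn') hn fun a => min_le_right _ _).range
      (NPC.Poly.cons (NPC.Poly.mod h2 hn') (NPC.Poly.cons (NPC.Poly.mod h0 hn')
        (NPC.Poly.const []))))

theorem poly_matE {A : α → List (List Bool)} {I : α → ℕ} (hA : NPC.Poly A) (hI : NPC.Poly I) :
    NPC.Poly (fun a => matE (A a) (I a)) := by
  have hn : UPoly (fun a => (A a).length) := UPoly.length hA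
  have h2n : UPoly (fun a => 2 * (A a).length) := (UPoly.const 2).mul hn
  have h1 := poly_inst1 hn hI
  have h2 := poly_inst2 hn hI
  refine NPC.Poly.map (F := fun a x => (List.range (2 * (A a).length)).map fun y =>
    ent (A a).length (aM (A a)) (inst1 (A a).length (I a)) (inst2 (A a).length (I a)) x y)
    h2n.range ?_
  refine NPC.Poly.map (F := fun (p : α × ℕ) y => ent (A p.1).length (aM (A p.1))
    (inst1 (A p.1).length (I p.1)) (inst2 (A p.1).length (I p.1)) p.2 y)
    (h2n.comp (NPC.Poly.fst NPC.Poly.id)).range ?_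
  exact poly_ent (α := (α × ℕ) × ℕ) (n := fun p => (A p.1.1).length)
    (A := fun p => A p.1.1) (L₁ := fun p => inst1 (A p.1.1).length (I p.1.1))
    (L₂ := fun p => inst2 (A p.1.1).length (I p.1.1)) (x := fun p => p.1.2) (y := fun p => p.2)
    (hn.comp (NPC.Poly.fst (NPC.Poly.fst NPC.Poly.id)))
    (hA.comp (NPC.Poly.fst (NPC.Poly.fst NPC.Poly.id)))
    (h1.comp (NPC.Poly.fst (NPC.Poly.fst NPC.Poly.id)))
    (h2.comp (NPC.Poly.fst (NPC.Poly.fst NPC.Poly.id)))
    (NPC.Poly.snd (NPC.Poly.fst NPC.Poly.id)) (NPC.Poly.snd NPC.Poly.id)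

theorem poly_idxI {n k j u v : α → ℕ} (hn : NPC.Poly n) (hk : NPC.Poly k) (hj : NPC.Poly j)
    (hu : NPC.Poly u) (hv : NPC.Poly v) :
    NPC.Poly (fun a => idxI (n a) (k a) (j a) (u a) (v a)) :=
  NPC.Poly.add (NPC.Poly.const 1) (NPC.Poly.add (NPC.Poly.mul (NPC.Poly.add (NPC.Poly.mul
    (NPC.Poly.add (NPC.Poly.mul hk hn) hj) hn) hu) hn) hv)

theorem poly_cand {n k j u : α → ℕ} {H : α → ℕ → Bool} (hn : UPoly n)
    (hH : NPC.Poly (fun p : α × ℕ => H p.1 p.2)) (hk : NPC.Poly k) (hj : NPC.Poly j)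
    (hu : NPC.Poly u) : NPC.Poly (fun a => cand (n a) (H a) (k a) (j a) (u a)) := by
  refine NPC.Poly.head?_getD (NPC.Poly.filter (p := fun a v =>
    !(H a (idxI (n a) (k a) (j a) (u a) v))) hn.range (NPC.Poly.not ?_)) 0
  have h1 : NPC.Poly (fun p : α × ℕ => idxI (n p.1) (k p.1) (j p.1) (u p.1) p.2) :=
    poly_idxI (α := α × ℕ) (n := fun p => n p.1) (k := fun p => k p.1) (j := fun p => j p.1)
      (u := fun p => u p.1) (v := fun p => p.2) (hn.toPoly.comp (NPC.Poly.fst NPC.Poly.id))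
      (hk.comp (NPC.Poly.fst NPC.Poly.id)) (hj.comp (NPC.Poly.fst NPC.Poly.id))
      (hu.comp (NPC.Poly.fst NPC.Poly.id)) (NPC.Poly.snd NPC.Poly.id)
  exact NPC.Poly.comp (g := fun p : α × ℕ => H p.1 p.2)
    (f := fun p : α × ℕ => (p.1, idxI (n p.1) (k p.1) (j p.1) (u p.1) p.2)) hH
    (NPC.Poly.pair (NPC.Poly.fst NPC.Poly.id) h1)

theorem poly_isAutB {n : α → ℕ} {A : α → List (List Bool)} {g : α → ℕ → ℕ} (hn : UPoly n)
    (hA : NPC.Poly A) (hg : NPC.Poly (fun p : α × ℕ => g p.1 p.2)) :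
    NPC.Poly (fun a => isAutB (n a) (aM (A a)) (g a)) := by
  have hg1 : NPC.Poly (fun p : (α × ℕ) × ℕ => g p.1.1 p.1.2) :=
    NPC.Poly.comp (g := fun p : α × ℕ => g p.1 p.2) (f := fun p : (α × ℕ) × ℕ => p.1) hg
      (NPC.Poly.fst NPC.Poly.id)
  have hg2 : NPC.Poly (fun p : (α × ℕ) × ℕ => g p.1.1 p.2) :=
    NPC.Poly.comp (g := fun p : α × ℕ => g p.1 p.2) (f := fun p : (α × ℕ) × ℕ => (p.1.1, p.2)) hg
      (NPC.Poly.pair (NPC.Poly.fst (NPC.Poly.fst NPC.Poly.id)) (NPC.Poly.snd NPC.Poly.id))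
  have hA2 : NPC.Poly (fun p : (α × ℕ) × ℕ => A p.1.1) :=
    hA.comp (NPC.Poly.fst (NPC.Poly.fst NPC.Poly.id))
  have hx : NPC.Poly (fun p : (α × ℕ) × ℕ => p.1.2) := NPC.Poly.snd (NPC.Poly.fst NPC.Poly.id)
  have hy : NPC.Poly (fun p : (α × ℕ) × ℕ => p.2) := NPC.Poly.snd NPC.Poly.id
  refine NPC.Poly.and (NPC.Poly.and ?_ ?_) ?_
  · exact NPC.Poly.all (p := fun a x => decide (g a x < n a)) hn.range
      (NPC.Poly.decide_lt hg (hn.toPoly.comp (NPC.Poly.fst NPC.Poly.id)))
  · refine NPC.Poly.all (p := fun a x => (List.range (n a)).all fun y =>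
      decide (g a x = g a y → x = y) && decide (aM (A a) (g a x) (g a y) = aM (A a) x y))
      hn.range ?_
    refine NPC.Poly.all (p := fun (p : α × ℕ) y =>
      decide (g p.1 p.2 = g p.1 y → p.2 = y) &&
        decide (aM (A p.1) (g p.1 p.2) (g p.1 y) = aM (A p.1) p.2 y))
      (hn.comp (NPC.Poly.fst NPC.Poly.id)).range ?_
    refine NPC.Poly.and ?_ (NPC.Poly.decide_eq (poly_aM hA2 hg1 hg2) (poly_aM hA2 hx hy))
    refine (NPC.Poly.or (NPC.Poly.not (NPC.Poly.decide_eq hg1 hg2))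
      (NPC.Poly.decide_eq hx hy)).congr fun p => ?_
    by_cases h1 : g p.1.1 p.1.2 = g p.1.1 p.2 <;> by_cases h2 : p.1.2 = p.2 <;> simp [h1, h2]
  · exact NPC.Poly.any (p := fun a x => decide (g a x ≠ x)) hn.range
      (NPC.Poly.decide_not (NPC.Poly.decide_eq hg (NPC.Poly.snd NPC.Poly.id)))

theorem poly_outp {n : α → ℕ} {A : α → List (List Bool)} {H : α → ℕ → Bool} (hn : UPoly n)
    (hA : NPC.Poly A) (hH : NPC.Poly (fun p : α × ℕ => H p.1 p.2)) :
    NPC.Poly (fun a => outp (n a) (aM (A a)) (H a)) := by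
  have hH0 : NPC.Poly (fun a => H a 0) :=
    NPC.Poly.comp (g := fun p : α × ℕ => H p.1 p.2) (f := fun a : α => (a, 0)) hH
      (NPC.Poly.pair NPC.Poly.id (NPC.Poly.const 0))
  have hany : NPC.Poly (fun a => (List.range (n a)).any fun k => (List.range (n a)).any fun j =>
      isAutB (n a) (aM (A a)) (cand (n a) (H a) k j)) := by
    refine NPC.Poly.any (p := fun a k => (List.range (n a)).any fun j =>
      isAutB (n a) (aM (A a)) (cand (n a) (H a) k j)) hn.range ?_
    refine NPC.Poly.any (p := fun (p : α × ℕ) j =>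
      isAutB (n p.1) (aM (A p.1)) (cand (n p.1) (H p.1) p.2 j))
      (hn.comp (NPC.Poly.fst NPC.Poly.id)).range ?_
    refine poly_isAutB (α := (α × ℕ) × ℕ) (n := fun p => n p.1.1) (A := fun p => A p.1.1)
      (g := fun p => cand (n p.1.1) (H p.1.1) p.1.2 p.2)
      (hn.comp (NPC.Poly.fst (NPC.Poly.fst NPC.Poly.id)))
      (hA.comp (NPC.Poly.fst (NPC.Poly.fst NPC.Poly.id))) ?_
    refine poly_cand (α := ((α × ℕ) × ℕ) × ℕ) (n := fun p => n p.1.1.1)
      (H := fun p => H p.1.1.1) (k := fun p => p.1.1.2) (j := fun p => p.1.2) (u := fun p => p.2)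
      (hn.comp (NPC.Poly.fst (NPC.Poly.fst (NPC.Poly.fst NPC.Poly.id)))) ?_
      (NPC.Poly.snd (NPC.Poly.fst (NPC.Poly.fst NPC.Poly.id)))
      (NPC.Poly.snd (NPC.Poly.fst NPC.Poly.id)) (NPC.Poly.snd NPC.Poly.id)
    exact NPC.Poly.comp (g := fun p : α × ℕ => H p.1 p.2)
      (f := fun p : (((α × ℕ) × ℕ) × ℕ) × ℕ => (p.1.1.1.1, p.2)) hH
      (NPC.Poly.pair (NPC.Poly.fst (NPC.Poly.fst (NPC.Poly.fst (NPC.Poly.fst NPC.Poly.id))))
        (NPC.Poly.snd NPC.Poly.id))
  refine (NPC.Poly.cond hH0 (NPC.Poly.const [false]) (NPC.Poly.cond hany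
    (NPC.Poly.const [true]) (NPC.Poly.const []))).congr fun a => ?_
  unfold outp
  cases H a 0
  · cases (List.range (n a)).any fun k => (List.range (n a)).any fun j =>
      isAutB (n a) (aM (A a)) (cand (n a) (H a) k j) <;> rfl
  · rfl

theorem upoly_mP {x : α → List Bool} (hx : NPC.Poly x) : UPoly (fun a => mP c₀ (x a)) :=
  (UPoly.length hx).add (UPoly.const c₀)

theorem upoly_rP {x : α → List Bool} (hx : NPC.Poly x) : UPoly (fun a => rP c₀ (x a)) :=
  (UPoly.const 3).mul (((UPoly.const 2).mul (upoly_mP c₀ hx)).add (UPoly.const 1))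

theorem upoly_gA {x : α → List Bool} (hx : NPC.Poly x) : UPoly (fun a => (gA (x a)).length) :=
  UPoly.length (poly_gA.comp hx)

theorem poly_dlen {N m c : α → ℕ} (hN : NPC.Poly N) (hm : NPC.Poly m) (hc : NPC.Poly c) :
    NPC.Poly (fun a => dlen (N a) (m a) (c a)) :=
  NPC.Poly.mul hm (NPC.Poly.add (NPC.Poly.mul hN hm) (NPC.Poly.mul hN (NPC.Poly.mul hN hc)))

theorem poly_hlen {N m c : α → ℕ} (hN : NPC.Poly N) (hm : NPC.Poly m) (hc : NPC.Poly c) :
    NPC.Poly (fun a => hlen (N a) (m a) (c a)) :=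
  NPC.Poly.mul (NPC.Poly.succ (poly_clen hN hm)) (poly_dlen hN hm hc)

theorem poly_rlen {N m T c : α → ℕ} (hN : NPC.Poly N) (hm : NPC.Poly m) (hT : NPC.Poly T)
    (hc : NPC.Poly c) : NPC.Poly (fun a => rlen (N a) (m a) (T a) (c a)) :=
  NPC.Poly.add (poly_hlen hN hm hc) (NPC.Poly.mul hT (NPC.Poly.mul (NPC.Poly.mul hm hN) hm))

theorem poly_bP {x : α → List Bool} (hx : NPC.Poly x) : NPC.Poly (fun a => bP c₀ TP (x a)) :=
  poly_rlen ((UPoly.const 2).mul (upoly_gA hx)).toPoly (upoly_mP c₀ hx).toPoly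
    ((upoly_mP c₀ hx).eval TP).toPoly ((upoly_gA hx).add (UPoly.const 3)).toPoly

theorem poly_hP {x : α → List Bool} (hx : NPC.Poly x) : NPC.Poly (fun a => hP c₀ (x a)) :=
  poly_hlen ((UPoly.const 2).mul (upoly_gA hx)).toPoly (upoly_mP c₀ hx).toPoly
    ((upoly_gA hx).add (UPoly.const 3)).toPoly

theorem poly_rnd {w x : α → List Bool} {ρ i : α → ℕ} (hw : NPC.Poly w) (hx : NPC.Poly x)
    (hρ : NPC.Poly ρ) (hi : NPC.Poly i) :
    NPC.Poly (fun a => rnd c₀ TP (w a) (x a) (ρ a) (i a)) :=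
  NPC.Poly.getD hw (NPC.Poly.add (NPC.Poly.mul hρ (poly_bP c₀ TP hx)) hi) (NPC.Poly.const _)

theorem poly_rnd2 {w x : α → List Bool} {ρ : α → ℕ} (hw : NPC.Poly w) (hx : NPC.Poly x)
    (hρ : NPC.Poly ρ) :
    NPC.Poly (fun p : α × ℕ => rnd c₀ TP (w p.1) (x p.1) (ρ p.1) (hP c₀ (x p.1) + p.2)) :=
  poly_rnd c₀ TP (hw.comp (NPC.Poly.fst NPC.Poly.id)) (hx.comp (NPC.Poly.fst NPC.Poly.id))
    (hρ.comp (NPC.Poly.fst NPC.Poly.id)) (NPC.Poly.add
      ((poly_hP c₀ hx).comp (NPC.Poly.fst NPC.Poly.id)) (NPC.Poly.snd NPC.Poly.id))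

theorem poly_zq {w x : α → List Bool} {I ρ : α → ℕ} (hw : NPC.Poly w) (hx : NPC.Poly x)
    (hI : NPC.Poly I) (hρ : NPC.Poly ρ) :
    NPC.Poly (fun a => zq c₀ TP (w a) (x a) (I a) (ρ a)) := by
  have hmat := poly_matE (poly_gA.comp hx) hI
  refine poly_zStr (N := fun a => 2 * (gA (x a)).length) (m := fun a => mP c₀ (x a))
    (T := fun a => TP.eval (mP c₀ (x a))) (f := fun a => matF (matE (gA (x a)) (I a)))
    (A := fun a => rnd c₀ TP (w a) (x a) (ρ a))
    (r := fun a i => rnd c₀ TP (w a) (x a) (ρ a) (hP c₀ (x a) + i))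
    ((UPoly.const 2).mul (upoly_gA hx)) (upoly_mP c₀ hx) ((upoly_mP c₀ hx).eval TP) ?_ ?_ ?_
  · exact poly_matF (hmat.comp (NPC.Poly.fst NPC.Poly.id))
      (NPC.Poly.fst (NPC.Poly.snd NPC.Poly.id)) (NPC.Poly.snd (NPC.Poly.snd NPC.Poly.id))
  · exact poly_rnd c₀ TP (hw.comp (NPC.Poly.fst NPC.Poly.id))
      (hx.comp (NPC.Poly.fst NPC.Poly.id)) (hρ.comp (NPC.Poly.fst NPC.Poly.id))
      (NPC.Poly.snd NPC.Poly.id)
  · exact poly_rnd2 c₀ TP hw hx hρ

theorem poly_okq {w x : α → List Bool} {ρ : α → ℕ} (hw : NPC.Poly w) (hx : NPC.Poly x)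
    (hρ : NPC.Poly ρ) : NPC.Poly (fun a => okq c₀ TP (w a) (x a) (ρ a)) := by
  refine NPC.Poly.all (p := fun a t => okB (2 * (gA (x a)).length) (mP c₀ (x a))
    (fun i => rnd c₀ TP (w a) (x a) (ρ a) (hP c₀ (x a) + i)) t)
    ((upoly_mP c₀ hx).eval TP).range ?_
  exact poly_okB (α := α × ℕ) (N := fun p => 2 * (gA (x p.1)).length)
    (m := fun p => mP c₀ (x p.1))
    (r := fun p i => rnd c₀ TP (w p.1) (x p.1) (ρ p.1) (hP c₀ (x p.1) + i)) (t := fun p => p.2)
    (((UPoly.const 2).mul (upoly_gA hx)).comp (NPC.Poly.fst NPC.Poly.id))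
    ((upoly_mP c₀ hx).comp (NPC.Poly.fst NPC.Poly.id))
    (poly_rnd2 c₀ TP (hw.comp (NPC.Poly.fst NPC.Poly.id)) (hx.comp (NPC.Poly.fst NPC.Poly.id))
      (hρ.comp (NPC.Poly.fst NPC.Poly.id))) (NPC.Poly.snd NPC.Poly.id)

theorem poly_fin {w x b : α → List Bool} (hw : NPC.Poly w) (hx : NPC.Poly x)
    (hb : NPC.Poly b) : NPC.Poly (fun a => fin c₀ TP (w a) (x a) (b a)) := by
  have hH : NPC.Poly (fun p : α × ℕ => (List.range (rP c₀ (x p.1))).any fun ρ =>
      okq c₀ TP (w p.1) (x p.1) ρ && (b p.1).getD (p.2 * rP c₀ (x p.1) + ρ) false) := by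
    refine NPC.Poly.any (p := fun (p : α × ℕ) ρ => okq c₀ TP (w p.1) (x p.1) ρ &&
      (b p.1).getD (p.2 * rP c₀ (x p.1) + ρ) false)
      ((upoly_rP c₀ hx).comp (NPC.Poly.fst NPC.Poly.id)).range ?_
    refine NPC.Poly.and (poly_okq c₀ TP (hw.comp (NPC.Poly.fst (NPC.Poly.fst NPC.Poly.id)))
      (hx.comp (NPC.Poly.fst (NPC.Poly.fst NPC.Poly.id))) (NPC.Poly.snd NPC.Poly.id)) ?_
    exact NPC.Poly.getD (hb.comp (NPC.Poly.fst (NPC.Poly.fst NPC.Poly.id)))
      (NPC.Poly.add (NPC.Poly.mul (NPC.Poly.snd (NPC.Poly.fst NPC.Poly.id))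
        ((upoly_rP c₀ hx).toPoly.comp (NPC.Poly.fst (NPC.Poly.fst NPC.Poly.id))))
        (NPC.Poly.snd NPC.Poly.id)) (NPC.Poly.const _)
  exact NPC.Poly.ite (NPC.Poly.decide_eq (upoly_gA hx).toPoly (NPC.Poly.const 0))
    (NPC.Poly.const _) (poly_outp (upoly_gA hx) (poly_gA.comp hx) hH)

theorem upoly_kP {x : α → List Bool} (hx : NPC.Poly x) : UPoly (fun a => kP c₀ (x a)) :=
  ((UPoly.const 1).add ((((upoly_gA hx).mul (upoly_gA hx)).mul (upoly_gA hx)).mul
    (upoly_gA hx))).mul (upoly_rP c₀ hx)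

end

theorem poly_DD : NPC.Poly (DD c₀ TP) := by
  have hu : NPC.Poly (fun y : List Bool => unpair y) := poly_unpair
  have ha : NPC.Poly (fun y : List Bool => (unpair y).2) := NPC.Poly.snd hu
  have hv : NPC.Poly (fun y : List Bool => unpair (unpair y).1) := hu.comp (NPC.Poly.fst hu)
  have hw : NPC.Poly (fun y : List Bool => (unpair (unpair y).1).1) := NPC.Poly.fst hv
  have hx : NPC.Poly (fun y : List Bool => (unpair (unpair y).1).2) := NPC.Poly.snd hv
  have hr := (upoly_rP c₀ hx).toPoly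
  have hl := NPC.Poly.length ha
  exact NPC.Poly.ite (NPC.Poly.decide_lt hl (upoly_kP c₀ hx).toPoly)
    (NPC.Poly.cons (NPC.Poly.const _) (poly_zq c₀ TP hw hx (NPC.Poly.div hl hr)
      (NPC.Poly.mod hl hr))) (NPC.Poly.cons (NPC.Poly.const _) (poly_fin c₀ TP hw hx ha))

end Params

end Pool.Agent.W2helper58.GA
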