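import Mathlib
import Pool.Agent.NPC.Num

/-!
# Canonical forms of labelled structures

A structure on the points `0, ..., N - 1` is given by a function `f` (the type of a pair of points).
A labelling `κ` gives different keys to the points. `canon N m f κ` lists the keys in increasing
order, and the types of the pairs of points in this order.
-/

namespace Pool.Agent.W2helper58.GA

open Pool.Agent.NPC

/-- The `m` lowest binary digits of `v`. -/
def kb (m v : ℕ) : List Bool := (List.range m).map fun i => v.bits.getD i false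

@[simp] theorem kb_length (m v : ℕ) : (kb m v).length = m := by simp [kb]

theorem valB_getD (m : ℕ) : ∀ l : List Bool,
    valB ((List.range m).map fun i => l.getD i false) = valB l % 2 ^ m := by
  induction m with
  | zero => intro l; simp [Nat.mod_one]
  | succ m ih =>
    intro l
    rw [List.range_succ_eq_map, List.map_cons, List.map_map, valB_cons]
    cases l with
    | nil =>
      have := ih []
      simp only [List.getD_nil, valB_nil, Nat.zero_mod] at this ⊢
      have e : ((fun _ : ℕ => false) ∘ Nat.succ) = fun _ => false := rfl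
      rw [e, this]
      simp
    | cons b l =>
      have e : ((fun i => (b :: l).getD i false) ∘ Nat.succ) = fun i => l.getD i false := by
        funext i
        simp
      rw [e, ih l, valB_cons]
      simp only [List.getD_cons_zero]
      rw [pow_succ']
      have h1 : 0 < 2 ^ m := by positivity
      have h2 := Nat.div_add_mod (valB l) (2 ^ m)
      have h3 := Nat.mod_lt (valB l) h1
      generalize valB l % 2 ^ m = r at *
      generalize valB l / 2 ^ m = q at *
      rw [← h2]
      cases b
      · simp only [Bool.false_eq_true, if_false, zero_add]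
        rw [show 2 * (2 ^ m * q + r) = 2 * r + (2 * 2 ^ m) * q by ring, Nat.add_mul_mod_self_left,
          Nat.mod_eq_of_lt (by omega)]
      · simp only [if_true]
        rw [show 1 + 2 * (2 ^ m * q + r) = (1 + 2 * r) + (2 * 2 ^ m) * q by ring,
          Nat.add_mul_mod_self_left, Nat.mod_eq_of_lt (by omega)]

theorem valB_kb (m v : ℕ) : valB (kb m v) = v % 2 ^ m := by
  rw [kb, valB_getD, valB_bits]

theorem kb_inj {m v w : ℕ} (hv : v < 2 ^ m) (hw : w < 2 ^ m) (h : kb m v = kb m w) : v = w := by
  have := congrArg valB h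
  rwa [valB_kb, valB_kb, Nat.mod_eq_of_lt hv, Nat.mod_eq_of_lt hw] at this

/-- The number of points with smaller keys. -/
def rank (N : ℕ) (κ : ℕ → ℕ) (x : ℕ) : ℕ :=
  ((List.range N).filter fun y => decide (κ y < κ x)).length

/-- The points in the order of their keys. -/
def ordL (N : ℕ) (κ : ℕ → ℕ) : List ℕ :=
  (List.range N).flatMap fun r => (List.range N).filter fun x => decide (rank N κ x = r)

/-- The canonical form of a labelled structure. -/
def canon (N m : ℕ) (f : ℕ → ℕ → List Bool) (κ : ℕ → ℕ) : List Bool :=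
  (ordL N κ).flatMap (fun x => kb m (κ x)) ++
    (ordL N κ).flatMap fun x => (ordL N κ).flatMap fun y => f x y

/-- An injective labelling. -/
def Inj (N : ℕ) (κ : ℕ → ℕ) : Prop := ∀ x < N, ∀ y < N, κ x = κ y → x = y

/-- An automorphism of the structure `f` on `0, ..., N - 1`. -/
def IsAut (N : ℕ) (f : ℕ → ℕ → List Bool) (σ : ℕ → ℕ) : Prop :=
  (∀ x < N, σ x < N) ∧ Inj N σ ∧ ∀ x < N, ∀ y < N, f (σ x) (σ y) = f x y

theorem rank_eq (N : ℕ) (κ : ℕ → ℕ) (x : ℕ) :
    rank N κ x = ((Finset.range N).filter fun y => κ y < κ x).card := rfl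

theorem rank_lt {N : ℕ} (κ : ℕ → ℕ) {x : ℕ} (hx : x < N) : rank N κ x < N := by
  rw [rank_eq]
  calc _ < (Finset.range N).card := by
        refine Finset.card_lt_card (Finset.filter_ssubset.2 ⟨x, by simpa using hx, by simp⟩)
    _ = N := Finset.card_range N

theorem rank_mono {N : ℕ} {κ : ℕ → ℕ} {x y : ℕ} (h : κ x ≤ κ y) : rank N κ x ≤ rank N κ y := by
  rw [rank_eq, rank_eq]
  refine Finset.card_le_card fun z hz => ?_
  simp only [Finset.mem_filter] at hz ⊢
  exact ⟨hz.1, by omega⟩

theorem rank_strict {N : ℕ} {κ : ℕ → ℕ} {x y : ℕ} (hx : x < N) (h : κ x < κ y) :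
    rank N κ x < rank N κ y := by
  rw [rank_eq, rank_eq]
  refine Finset.card_lt_card ?_
  rw [Finset.ssubset_iff_of_subset]
  · exact ⟨x, by simp [hx, h], by simp⟩
  · intro z hz
    simp only [Finset.mem_filter] at hz ⊢
    exact ⟨hz.1, by omega⟩

theorem perm_flatMap_filter (l : List ℕ) (ρ : ℕ → ℕ) (n : ℕ) (h : ∀ x ∈ l, ρ x < n) :
    ((List.range n).flatMap fun r => l.filter fun x => decide (ρ x = r)).Perm l := by
  rw [List.perm_iff_count]
  intro a
  rw [List.count_flatMap]
  have h1 : ∀ r, (List.count a ∘ fun r => l.filter fun x => decide (ρ x = r)) r =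
      if ρ a = r then List.count a l else 0 := by
    intro r
    simp only [Function.comp]
    by_cases hr : ρ a = r
    · rw [if_pos hr, List.count_filter (by simpa using hr)]
    · rw [if_neg hr, List.count_eq_zero]
      simp [hr]
  have h2 : (List.map (List.count a ∘ fun r => l.filter fun x => decide (ρ x = r))
      (List.range n)).sum = ∑ r ∈ Finset.range n, if ρ a = r then List.count a l else 0 := by
    have : (List.count a ∘ fun r => l.filter fun x => decide (ρ x = r)) =
        fun r => if ρ a = r then List.count a l else 0 := funext h1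
    rw [this]
    rfl
  rw [h2, Finset.sum_ite_eq]
  by_cases ha : a ∈ l
  · rw [if_pos (by simpa using h a ha)]
  · have : List.count a l = 0 := List.count_eq_zero.2 ha
    rw [this]; simp

theorem ordL_perm (N : ℕ) (κ : ℕ → ℕ) : (ordL N κ).Perm (List.range N) :=
  perm_flatMap_filter _ _ _ fun x hx => rank_lt κ (by simpa using hx)

theorem mem_ordL {N : ℕ} {κ : ℕ → ℕ} {x : ℕ} : x ∈ ordL N κ ↔ x < N := by
  rw [(ordL_perm N κ).mem_iff, List.mem_range]

theorem ordL_length (N : ℕ) (κ : ℕ → ℕ) : (ordL N κ).length = N := by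
  rw [(ordL_perm N κ).length_eq, List.length_range]

theorem ordL_nodup (N : ℕ) (κ : ℕ → ℕ) : (ordL N κ).Nodup :=
  (ordL_perm N κ).nodup_iff.2 List.nodup_range

theorem ordL_pairwise {N : ℕ} {κ : ℕ → ℕ} (hκ : Inj N κ) :
    (ordL N κ).Pairwise fun x y => κ x < κ y := by
  unfold ordL
  rw [List.pairwise_flatMap]
  constructor
  · intro r _
    have h1 : ((List.range N).filter fun x => decide (rank N κ x = r)).Nodup :=
      List.Nodup.filter _ List.nodup_range
    refine List.Pairwise.imp_of_mem (fun {x y} hx hy hxy => ?_) h1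
    simp only [List.mem_filter, List.mem_range, decide_eq_true_eq] at hx hy
    exfalso
    apply hxy
    apply hκ x hx.1 y hy.1
    rcases lt_trichotomy (κ x) (κ y) with h | h | h
    · have := rank_strict hx.1 h
      omega
    · exact h
    · have := rank_strict hy.1 h
      omega
  · refine List.Pairwise.imp (fun {r s} hrs x hx y hy => ?_) List.pairwise_lt_range
    simp only [List.mem_filter, List.mem_range, decide_eq_true_eq] at hx hy
    by_contra hxy
    have := rank_mono (N := N) (Nat.not_lt.1 hxy)
    omega

theorem ordL_unique {N : ℕ} {κ : ℕ → ℕ} (hκ : Inj N κ) {L : List ℕ}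
    (hp : L.Perm (List.range N)) (hs : L.Pairwise fun x y => κ x < κ y) : L = ordL N κ := by
  refine List.Perm.eq_of_pairwise ?_ hs (ordL_pairwise hκ) (hp.trans (ordL_perm N κ).symm)
  intro a b _ _ h1 h2
  omega

theorem rank_congr {N : ℕ} {κ κ' : ℕ → ℕ} (h : ∀ x < N, κ x = κ' x) {x : ℕ} (hx : x < N) :
    rank N κ x = rank N κ' x := by
  unfold rank
  congr 1
  refine List.filter_congr fun y hy => ?_
  rw [h x hx, h y (by simpa using hy)]

theorem ordL_congr {N : ℕ} {κ κ' : ℕ → ℕ} (h : ∀ x < N, κ x = κ' x) :
    ordL N κ = ordL N κ' := by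
  unfold ordL
  congr 1
  funext r
  refine List.filter_congr fun y hy => ?_
  rw [rank_congr h (by simpa using hy)]

theorem flatMap_congr' {α β : Type*} {l : List α} {g g' : α → List β} (h : ∀ x ∈ l, g x = g' x) :
    l.flatMap g = l.flatMap g' := by
  induction l with
  | nil => rfl
  | cons a l ih =>
    rw [List.flatMap_cons, List.flatMap_cons, h a (by simp), ih fun x hx => h x (by simp [hx])]

theorem canon_congr {N m : ℕ} {f f' : ℕ → ℕ → List Bool} {κ κ' : ℕ → ℕ}
    (h : ∀ x < N, κ x = κ' x) (hf : ∀ x < N, ∀ y < N, f x y = f' x y) :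
    canon N m f κ = canon N m f' κ' := by
  unfold canon
  rw [ordL_congr h]
  congr 1
  · exact flatMap_congr' fun x hx => by rw [h x (mem_ordL.1 hx)]
  · exact flatMap_congr' fun x hx => flatMap_congr' fun y hy =>
      hf x (mem_ordL.1 hx) y (mem_ordL.1 hy)

theorem perm_map_range {N : ℕ} {σ : ℕ → ℕ} (h1 : ∀ x < N, σ x < N) (h2 : Inj N σ) :
    ((List.range N).map σ).Perm (List.range N) := by
  refine (List.subperm_of_subset ?_ ?_).perm_of_length_le (by simp)
  · exact List.Nodup.map_on (fun x hx y hy h => h2 x (by simpa using hx) y (by simpa using hy) h)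
      List.nodup_range
  · intro y hy
    simp only [List.mem_map, List.mem_range] at hy ⊢
    obtain ⟨x, hx, rfl⟩ := hy
    exact h1 x hx

theorem canon_comp {N m : ℕ} {f : ℕ → ℕ → List Bool} {σ : ℕ → ℕ} (hσ : IsAut N f σ)
    {κ : ℕ → ℕ} (hκ : Inj N κ) : canon N m f (fun x => κ (σ x)) = canon N m f κ := by
  obtain ⟨h1, h2, h3⟩ := hσ
  have hκσ : Inj N fun x => κ (σ x) := fun x hx y hy h =>
    h2 x hx y hy (hκ _ (h1 x hx) _ (h1 y hy) h)
  have hO : (ordL N fun x => κ (σ x)).map σ = ordL N κ := by
    refine ordL_unique hκ (((ordL_perm N _).map σ).trans (perm_map_range h1 h2)) ?_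
    rw [List.pairwise_map]
    exact ordL_pairwise hκσ
  unfold canon
  rw [← hO]
  simp only [List.flatMap_map]
  congr 1
  exact flatMap_congr' fun x hx => flatMap_congr' fun y hy =>
    (h3 x (mem_ordL.1 hx) y (mem_ordL.1 hy)).symm

theorem flatMap_inj {α β : Type*} {c : ℕ} : ∀ {L L' : List α} {g g' : α → List β},
    L.length = L'.length → (∀ x ∈ L, (g x).length = c) → (∀ x ∈ L', (g' x).length = c) →
    L.flatMap g = L'.flatMap g' → L.map g = L'.map g'
  | [], [], _, _, _, _, _, _ => rfl
  | [], _ :: _, _, _, h, _, _, _ => by simp at h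
  | _ :: _, [], _, _, h, _, _, _ => by simp at h
  | a :: L, b :: L', g, g', h, h1, h2, h3 => by
    rw [List.flatMap_cons, List.flatMap_cons] at h3
    have := List.append_inj h3 (by rw [h1 a (by simp), h2 b (by simp)])
    rw [List.map_cons, List.map_cons, this.1, flatMap_inj (by simpa using h)
      (fun x hx => h1 x (by simp [hx])) (fun x hx => h2 x (by simp [hx])) this.2]

theorem flatMap_length {α β : Type*} {c : ℕ} {L : List α} {g : α → List β}
    (h : ∀ x ∈ L, (g x).length = c) : (L.flatMap g).length = L.length * c := by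
  induction L with
  | nil => simp
  | cons a L ih =>
    rw [List.flatMap_cons, List.length_append, h a (by simp), ih fun x hx => h x (by simp [hx]),
      List.length_cons]
    ring

theorem canon_length {N m c : ℕ} {f : ℕ → ℕ → List Bool}
    (hf : ∀ x < N, ∀ y < N, (f x y).length = c) (κ : ℕ → ℕ) :
    (canon N m f κ).length = N * m + N * (N * c) := by
  unfold canon
  rw [List.length_append, flatMap_length (c := m) (by simp), flatMap_length (c := N * c),
    ordL_length]
  intro x hx
  rw [flatMap_length (c := c), ordL_length]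
  exact fun y hy => hf x (mem_ordL.1 hx) y (mem_ordL.1 hy)

theorem canon_inj {N m c : ℕ} {f : ℕ → ℕ → List Bool}
    (hf : ∀ x < N, ∀ y < N, (f x y).length = c) {κ κ' : ℕ → ℕ}
    (hm : ∀ x < N, κ x < 2 ^ m) (hm' : ∀ x < N, κ' x < 2 ^ m)
    (h : canon N m f κ = canon N m f κ') :
    ∃ σ, IsAut N f σ ∧ ∀ x < N, κ (σ x) = κ' x := by
  unfold canon at h
  have hl := ordL_length N κ
  have hl' := ordL_length N κ'
  obtain ⟨h1, h2⟩ := List.append_inj h (by
    rw [flatMap_length (c := m) (by simp), flatMap_length (c := m) (by simp), hl, hl'])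
  have h3 := flatMap_inj (c := m) (by rw [hl, hl']) (by simp) (by simp) h1
  have h4 := flatMap_inj (c := N * c) (by rw [hl, hl']) (by
    intro x hx
    rw [flatMap_length (c := c), hl]
    exact fun y hy => hf x (mem_ordL.1 hx) y (mem_ordL.1 hy)) (by
    intro x hx
    rw [flatMap_length (c := c), hl']
    exact fun y hy => hf x (mem_ordL.1 hx) y (mem_ordL.1 hy)) h2
  have hnd := ordL_nodup N κ
  have hnd' := ordL_nodup N κ'
  have hmem := fun x => @mem_ordL N κ x
  have hmem' := fun x => @mem_ordL N κ' x
  generalize ordL N κ = O at *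
  generalize ordL N κ' = O' at *
  -- index-wise versions
  have k3 : ∀ i (hi : i < N), κ (O[i]'(by omega)) = κ' (O'[i]'(by omega)) := by
    intro i hi
    have := congrArg (fun l => l[i]?) h3
    simp only [List.getElem?_map, List.getElem?_eq_getElem (show i < O.length by omega),
      List.getElem?_eq_getElem (show i < O'.length by omega), Option.map_some,
      Option.some.injEq] at this
    exact kb_inj (hm _ ((hmem _).1 (List.getElem_mem _))) (hm' _ ((hmem' _).1 (List.getElem_mem _)))
      this
  have k4 : ∀ i (hi : i < N) j (hj : j < N), f (O[i]'(by omega)) (O[j]'(by omega)) =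
      f (O'[i]'(by omega)) (O'[j]'(by omega)) := by
    intro i hi j hj
    have := congrArg (fun l => l[i]?) h4
    simp only [List.getElem?_map, List.getElem?_eq_getElem (show i < O.length by omega),
      List.getElem?_eq_getElem (show i < O'.length by omega), Option.map_some,
      Option.some.injEq] at this
    have h5 := flatMap_inj (c := c) (by rw [hl, hl'])
      (fun y hy => hf _ ((hmem _).1 (List.getElem_mem _)) y ((hmem _).1 hy))
      (fun y hy => hf _ ((hmem' _).1 (List.getElem_mem _)) y ((hmem' _).1 hy)) this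
    have := congrArg (fun l => l[j]?) h5
    simpa only [List.getElem?_map, List.getElem?_eq_getElem (show j < O.length by omega),
      List.getElem?_eq_getElem (show j < O'.length by omega), Option.map_some,
      Option.some.injEq] using this
  have hidx : ∀ x < N, O'.idxOf x < N := fun x hx => by
    rw [← hl']
    exact List.idxOf_lt_length_of_mem ((hmem' x).2 hx)
  have hσ : ∀ x (hx : x < N), O.getD (O'.idxOf x) 0 = O[O'.idxOf x]'(by
      have := hidx x hx; omega) := by
    intro x hx
    have := hidx x hx
    rw [List.getD_eq_getElem?_getD, List.getElem?_eq_getElem (by omega)]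
    rfl
  have hx' : ∀ x (hx : x < N), O'[O'.idxOf x]'(by have := hidx x hx; omega) = x := by
    intro x hx
    exact List.getElem_idxOf _
  refine ⟨fun x => O.getD (O'.idxOf x) 0, ⟨?_, ?_, ?_⟩, ?_⟩
  · intro x hx
    simp only
    rw [hσ x hx]
    exact (hmem _).1 (List.getElem_mem _)
  · intro x hx y hy hxy
    simp only at hxy
    rw [hσ x hx, hσ y hy] at hxy
    have := (hnd.getElem_inj_iff).1 hxy
    rw [← hx' x hx, ← hx' y hy]
    simp only [this]
  · intro x hx y hy
    simp only
    rw [hσ x hx, hσ y hy, k4 _ (hidx x hx) _ (hidx y hy), hx' x hx, hx' y hy]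
  · intro x hx
    simp only
    rw [hσ x hx, k3 _ (hidx x hx), hx' x hx]

end Pool.Agent.W2helper58.GA
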