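import Pool.Agent.W2helper58.GA.Canon

/-!
# Saving one bit per labelling for structures with a non-trivial automorphism
-/

namespace Pool.Agent.W2helper58.GA

open Pool.Agent.NPC

/-- The string with a `0` inserted at position `p`. -/
def ins0 (p : ℕ) (g : List Bool) : List Bool := g.take p ++ false :: g.drop p

/-- The `v`-th chunk of `m` bits, as a number. -/
def chunk (m : ℕ) (full : List Bool) (v : ℕ) : ℕ := valB ((full.drop (v * m)).take m)

/-- The labelling coded by the string `g` (of length `N m - 1`): the keys of `u1` and `u2` are coded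
by `2 m - 1` bits, the first key being smaller than the second one. -/
def dec (m u1 u2 : ℕ) (g : List Bool) (v : ℕ) : ℕ :=
  let full := ins0 (u2 * m + (m - 1)) g
  let b' := valB (kb m (chunk m full u1 + 1 + chunk m full u2))
  if v = u1 then min (chunk m full u1) b'
  else if v = u2 then max (chunk m full u1) b'
  else chunk m full v

theorem chunk_flatMap {N m : ℕ} (k : ℕ → ℕ) {v : ℕ} (hv : v < N) (hk : k v < 2 ^ m) :
    chunk m ((List.range N).flatMap fun v => kb m (k v)) v = k v := by
  unfold chunk
  have h1 : (List.range N).flatMap (fun v => kb m (k v)) =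
      (List.range v).flatMap (fun v => kb m (k v)) ++ (kb m (k v) ++
        ((List.range (N - v - 1)).map fun i => v + 1 + i).flatMap fun v => kb m (k v)) := by
    have : List.range N = List.range v ++ (v :: (List.range (N - v - 1)).map fun i => v + 1 + i) := by
      conv_lhs => rw [show N = v + 1 + (N - v - 1) by omega, List.range_add, List.range_succ]
      simp
    rw [this, List.flatMap_append, List.flatMap_cons]
  have h2 : ((List.range v).flatMap fun v => kb m (k v)).length = v * m := by
    rw [flatMap_length (c := m) (by simp), List.length_range]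
  rw [h1, List.drop_append_of_le_length (by omega), List.drop_of_length_le (by omega),
    List.nil_append, List.take_append_of_le_length (by simp), List.take_of_length_le (by simp),
    valB_kb, Nat.mod_eq_of_lt hk]

theorem getD_flatMap_kb {N m : ℕ} (k : ℕ → ℕ) {v i : ℕ} (hv : v < N) (hi : i < m) :
    ((List.range N).flatMap fun v => kb m (k v))[v * m + i]? = some ((k v).bits.getD i false) := by
  have h1 : (List.range N).flatMap (fun v => kb m (k v)) =
      (List.range v).flatMap (fun v => kb m (k v)) ++ (kb m (k v) ++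
        ((List.range (N - v - 1)).map fun i => v + 1 + i).flatMap fun v => kb m (k v)) := by
    have : List.range N = List.range v ++ (v :: (List.range (N - v - 1)).map fun i => v + 1 + i) := by
      conv_lhs => rw [show N = v + 1 + (N - v - 1) by omega, List.range_add, List.range_succ]
      simp
    rw [this, List.flatMap_append, List.flatMap_cons]
  have h2 : ((List.range v).flatMap fun v => kb m (k v)).length = v * m := by
    rw [flatMap_length (c := m) (by simp), List.length_range]
  rw [h1, List.getElem?_append_right (by omega), h2, Nat.add_sub_cancel_left,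
    List.getElem?_append_left (by simpa using hi)]
  simp [kb, hi]

theorem pair_code {m a b : ℕ} (hm : 0 < m) (hab : a < b) (hb : b < 2 ^ m) :
    ∃ x y, x < 2 ^ m ∧ y < 2 ^ (m - 1) ∧ min x ((x + 1 + y) % 2 ^ m) = a ∧
      max x ((x + 1 + y) % 2 ^ m) = b := by
  obtain ⟨k, rfl⟩ : ∃ k, m = k + 1 := ⟨m - 1, by omega⟩
  rw [Nat.add_sub_cancel]
  have h2 : 2 ^ (k + 1) = 2 * 2 ^ k := by rw [pow_succ]; ring
  rw [h2] at hb ⊢
  generalize 2 ^ k = P at *
  by_cases h : b - a ≤ P
  · refine ⟨a, b - a - 1, by omega, by omega, ?_, ?_⟩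
    · rw [show a + 1 + (b - a - 1) = b by omega, Nat.mod_eq_of_lt hb]; omega
    · rw [show a + 1 + (b - a - 1) = b by omega, Nat.mod_eq_of_lt hb]; omega
  · refine ⟨b, 2 * P - (b - a) - 1, hb, by omega, ?_, ?_⟩
    · rw [show b + 1 + (2 * P - (b - a) - 1) = a + 2 * P by omega, Nat.add_mod_right,
        Nat.mod_eq_of_lt (by omega)]
      omega
    · rw [show b + 1 + (2 * P - (b - a) - 1) = a + 2 * P by omega, Nat.add_mod_right,
        Nat.mod_eq_of_lt (by omega)]
      omega

theorem dec_surj {N m u1 u2 : ℕ} (hm : 0 < m) (h1 : u1 < N) (h2 : u2 < N) (h12 : u1 ≠ u2)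
    {κ : ℕ → ℕ} (hκ : ∀ v < N, κ v < 2 ^ m) (hlt : κ u1 < κ u2) :
    ∃ g : List Bool, g.length = N * m - 1 ∧ ∀ v < N, dec m u1 u2 g v = κ v := by
  obtain ⟨x, y, hx, hy, hmin, hmax⟩ := pair_code hm hlt (hκ u2 h2)
  let k : ℕ → ℕ := fun v => if v = u1 then x else if v = u2 then y else κ v
  have hk1 : k u1 = x := by simp [k]
  have hk2 : k u2 = y := by simp [k, h12.symm]
  have hk : ∀ v < N, k v < 2 ^ m := by
    intro v hv
    simp only [k]
    split_ifs
    · exact hx
    · exact hy.trans_le (Nat.pow_le_pow_right (by norm_num) (by omega))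
    · exact hκ v hv
  set full := (List.range N).flatMap fun v => kb m (k v) with hfull
  have hlen : full.length = N * m := by
    rw [hfull, flatMap_length (c := m) (by simp), List.length_range]
  have hp : u2 * m + (m - 1) < N * m := by
    have : (u2 + 1) * m ≤ N * m := Nat.mul_le_mul_right _ h2
    rw [add_mul, one_mul] at this
    omega
  have hbit : full[u2 * m + (m - 1)]? = some false := by
    rw [hfull, getD_flatMap_kb k h2 (by omega), hk2]
    have : y.bits.length ≤ m - 1 := by
      rw [Nat.size_eq_bits_len]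
      exact Nat.size_le.2 hy
    rw [List.getD_eq_getElem?_getD, List.getElem?_eq_none this]
    rfl
  set p := u2 * m + (m - 1) with hpdef
  have hins : ins0 p (full.take p ++ full.drop (p + 1)) = full := by
    unfold ins0
    have e1 : (full.take p ++ full.drop (p + 1)).take p = full.take p := by
      rw [List.take_append_of_le_length (by rw [List.length_take]; omega), List.take_take, min_self]
    have e2 : (full.take p ++ full.drop (p + 1)).drop p = full.drop (p + 1) := by
      rw [List.drop_append_of_le_length (by rw [List.length_take]; omega),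
        List.drop_of_length_le (by rw [List.length_take]; omega), List.nil_append]
    rw [e1, e2]
    have e3 : full.drop p = false :: full.drop (p + 1) := by
      have hp' : p < full.length := by omega
      rw [List.drop_eq_getElem_cons hp']
      rw [List.getElem?_eq_getElem hp'] at hbit
      rw [Option.some.inj hbit]
    rw [← e3, List.take_append_drop]
  refine ⟨full.take p ++ full.drop (p + 1), ?_, ?_⟩
  · rw [List.length_append, List.length_take, List.length_drop]
    omega
  · intro v hv
    unfold dec
    simp only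
    rw [← hpdef, hins, chunk_flatMap k h1 (hk u1 h1), chunk_flatMap k h2 (hk u2 h2),
      chunk_flatMap k hv (hk v hv), hk1, hk2, valB_kb, hmin, hmax]
    by_cases e1 : v = u1
    · rw [if_pos e1, e1]
    · rw [if_neg e1]
      by_cases e2 : v = u2
      · rw [if_pos e2, e2]
      · rw [if_neg e2]
        simp [k, e1, e2]

theorem IsAut.iter {N : ℕ} {f : ℕ → ℕ → List Bool} {σ : ℕ → ℕ} (h : IsAut N f σ) (j : ℕ) :
    IsAut N f (σ^[j]) := by
  induction j with
  | zero => exact ⟨fun _ h => h, fun _ _ _ _ h => h, fun _ _ _ _ => rfl⟩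
  | succ j ih =>
    obtain ⟨h1, h2, h3⟩ := h
    obtain ⟨i1, i2, i3⟩ := ih
    refine ⟨fun x hx => ?_, fun x hx y hy hxy => ?_, fun x hx y hy => ?_⟩
    · rw [Function.iterate_succ_apply]
      exact i1 _ (h1 x hx)
    · rw [Function.iterate_succ_apply, Function.iterate_succ_apply] at hxy
      exact h2 x hx y hy (i2 _ (h1 x hx) _ (h1 y hy) hxy)
    · rw [Function.iterate_succ_apply, Function.iterate_succ_apply, i3 _ (h1 x hx) _ (h1 y hy),
        h3 x hx y hy]

/-- If the structure has an automorphism `σ` with `σ u ≠ u`, then the canonical form of every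
labelling is the canonical form of a labelling coded by `N m - 1` bits. -/
theorem exists_code {N m u : ℕ} {f : ℕ → ℕ → List Bool} {σ : ℕ → ℕ} (hm : 0 < m)
    (hσ : IsAut N f σ) (hu : u < N) (hσu : σ u ≠ u) {κ : ℕ → ℕ} (hκ : Inj N κ)
    (hκm : ∀ v < N, κ v < 2 ^ m) :
    ∃ g : List Bool, g.length = N * m - 1 ∧ canon N m f (dec m u (σ u) g) = canon N m f κ := by
  obtain ⟨j, hj⟩ : ∃ j, ∀ j', κ (σ^[j] u) ≤ κ (σ^[j'] u) := by
    have := WellFounded.has_min (measure fun j => κ (σ^[j] u)).wf Set.univ ⟨0, trivial⟩
    obtain ⟨j, _, hj⟩ := this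
    exact ⟨j, fun j' => Nat.not_lt.1 (hj j' trivial)⟩
  have hj' := hσ.iter j
  have hlt : κ (σ^[j] u) < κ (σ^[j] (σ u)) := by
    have h1 := hj (j + 1)
    rw [Function.iterate_succ_apply] at h1
    refine lt_of_le_of_ne h1 fun h2 => ?_
    have h3 := hκ _ (hj'.1 _ hu) _ (hj'.1 _ (hσ.1 _ hu)) h2
    exact hσu (hj'.2.1 _ hu _ (hσ.1 _ hu) h3).symm
  obtain ⟨g, hg1, hg2⟩ := dec_surj (κ := fun v => κ (σ^[j] v)) hm hu (hσ.1 _ hu)
    (Ne.symm hσu) (fun v hv => hκm _ (hj'.1 _ hv)) hlt
  refine ⟨g, hg1, ?_⟩
  rw [← canon_comp hj' hκ]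
  exact canon_congr hg2 fun _ _ _ _ => rfl

end Pool.Agent.W2helper58.GA
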