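import Pool.Agent.W2helper58.GA.PolyF

/-!
# Structures with a non-trivial automorphism never give random strings
-/

namespace Pool.Agent.W2helper58.GA

open Pool.Agent.NPC

theorem range_split {m s : ℕ} (hs : s < m) : List.range m =
    List.range s ++ (s :: (List.range (m - s - 1)).map fun i => s + 1 + i) := by
  conv_lhs => rw [show m = s + 1 + (m - s - 1) by omega, List.range_add, List.range_succ]
  simp

theorem drop_take_flatMap {L m : ℕ} {w : ℕ → List Bool} (hw : ∀ s < m, (w s).length = L) {s : ℕ}
    (hs : s < m) : (((List.range m).flatMap w).drop (s * L)).take L = w s := by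
  have h2 : ((List.range s).flatMap w).length = s * L := by
    rw [flatMap_length (c := L) (fun x hx => hw x (by have := List.mem_range.1 hx; omega)),
      List.length_range]
  have h3 := hw s hs
  rw [range_split hs, List.flatMap_append, List.flatMap_cons,
    List.drop_append_of_le_length (by omega), List.drop_of_length_le (by omega),
    List.nil_append, List.take_append_of_le_length (by omega), List.take_of_length_le (by omega)]

theorem getElem?_flatMap_map {T l : ℕ} {φ : ℕ → ℕ → Bool} {t j : ℕ} (ht : t < T) (hj : j < l) :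
    ((List.range T).flatMap fun t => (List.range l).map (φ t))[t * l + j]? = some (φ t j) := by
  have h2 : ((List.range t).flatMap fun t => (List.range l).map (φ t)).length = t * l := by
    rw [flatMap_length (c := l) (by simp), List.length_range]
  rw [range_split ht, List.flatMap_append, List.flatMap_cons,
    List.getElem?_append_right (by omega), h2, Nat.add_sub_cancel_left,
    List.getElem?_append_left (by simpa using hj)]
  simp [hj]

/-- The structure given by a matrix. -/
def matF (mat : List (List (List Bool))) (x y : ℕ) : List Bool := (mat.getD x []).getD y []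

/-- The headers: the matrix of the structure, the number `m` (in unary), the number of blocks, the
two points, and the hash function. -/
abbrev HD : Type := List (List (List Bool)) × List Unit × ℕ × ℕ × ℕ × List Bool

/-- The hash value computed from the header and from the code of a block. -/
def Fh (h : HD) (g : List Bool) (j : ℕ) : Bool :=
  hbit (fun i => h.2.2.2.2.2.getD i false) ((List.range h.2.1.length).flatMap fun s =>
    canon h.1.length h.2.1.length (matF h.1) (dec h.2.1.length h.2.2.2.1 h.2.2.2.2.1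
      ((g.drop (s * (h.1.length * h.2.1.length - 1))).take (h.1.length * h.2.1.length - 1)))) j

/-- the same for raw headers -/
def Fr (hdr g : List Bool) (j : ℕ) : Bool :=
  match unbits HD hdr with
  | none => false
  | some h => Fh h g j

/-- the number of blocks -/
def Tr (hdr : List Bool) : ℕ :=
  match unbits HD hdr with
  | none => 0
  | some h => h.2.2.1

/-- the length of a code -/
def cr (hdr : List Bool) : ℕ :=
  match unbits HD hdr with
  | none => 0
  | some h => clen h.1.length h.2.1.length

theorem poly_matF {α : Type} [TEnc α] {mat : α → List (List (List Bool))} {x y : α → ℕ}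
    (hm : NPC.Poly mat) (hx : NPC.Poly x) (hy : NPC.Poly y) :
    NPC.Poly (fun a => matF (mat a) (x a) (y a)) :=
  NPC.Poly.getD (NPC.Poly.getD hm hx (NPC.Poly.const _)) hy (NPC.Poly.const _)

theorem poly_Fh : NPC.Poly (fun p : HD × List Bool × ℕ => Fh p.1 p.2.1 p.2.2) := by
  have hN : UPoly (fun p : HD × List Bool × ℕ => p.1.1.length) :=
    UPoly.length (NPC.Poly.fst (NPC.Poly.fst NPC.Poly.id))
  have hm : UPoly (fun p : HD × List Bool × ℕ => p.1.2.1.length) :=
    UPoly.length (NPC.Poly.fst (NPC.Poly.snd (NPC.Poly.fst NPC.Poly.id)))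
  refine poly_hbit (α := HD × List Bool × ℕ)
    (A := fun p i => p.1.2.2.2.2.2.getD i false) (j := fun p => p.2.2) ?_ ?_ ?_
  · exact NPC.Poly.getD (NPC.Poly.snd (NPC.Poly.snd (NPC.Poly.snd (NPC.Poly.snd (NPC.Poly.snd
      (NPC.Poly.fst (NPC.Poly.fst NPC.Poly.id))))))) (NPC.Poly.snd NPC.Poly.id)
      (NPC.Poly.const _)
  · refine NPC.Poly.flatMap (F := fun (p : HD × List Bool × ℕ) s =>
      canon p.1.1.length p.1.2.1.length (matF p.1.1) (dec p.1.2.1.length p.1.2.2.2.1 p.1.2.2.2.2.1
      ((p.2.1.drop (s * (p.1.1.length * p.1.2.1.length - 1))).take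
        (p.1.1.length * p.1.2.1.length - 1)))) hm.range ?_
    have hL : NPC.Poly (fun q : ((HD × List Bool × ℕ) × ℕ) × ℕ =>
        q.1.1.1.1.length * q.1.1.1.2.1.length - 1) :=
      NPC.Poly.sub (NPC.Poly.mul (hN.toPoly.comp (NPC.Poly.fst (NPC.Poly.fst NPC.Poly.id)))
        (hm.toPoly.comp (NPC.Poly.fst (NPC.Poly.fst NPC.Poly.id)))) (NPC.Poly.const 1)
    refine poly_canon (α := (HD × List Bool × ℕ) × ℕ) (N := fun q => q.1.1.1.length)
      (m := fun q => q.1.1.2.1.length) (f := fun q => matF q.1.1.1)
      (κ := fun q => dec q.1.1.2.1.length q.1.1.2.2.2.1 q.1.1.2.2.2.2.1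
        ((q.1.2.1.drop (q.2 * (q.1.1.1.length * q.1.1.2.1.length - 1))).take
          (q.1.1.1.length * q.1.1.2.1.length - 1))) (hN.comp (NPC.Poly.fst NPC.Poly.id))
      (hm.comp (NPC.Poly.fst NPC.Poly.id)) ?_ ?_
    · exact poly_matF (α := ((HD × List Bool × ℕ) × ℕ) × ℕ × ℕ) (mat := fun q => q.1.1.1.1)
        (NPC.Poly.fst (NPC.Poly.fst (NPC.Poly.fst (NPC.Poly.fst NPC.Poly.id))))
        (NPC.Poly.fst (NPC.Poly.snd NPC.Poly.id)) (NPC.Poly.snd (NPC.Poly.snd NPC.Poly.id))
    · refine poly_dec (α := ((HD × List Bool × ℕ) × ℕ) × ℕ) (m := fun q => q.1.1.1.2.1.length)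
        (u1 := fun q => q.1.1.1.2.2.2.1) (u2 := fun q => q.1.1.1.2.2.2.2.1) (v := fun q => q.2)
        (hm.comp (NPC.Poly.fst (NPC.Poly.fst NPC.Poly.id))) ?_ ?_ ?_ (NPC.Poly.snd NPC.Poly.id)
      · exact NPC.Poly.fst (NPC.Poly.snd (NPC.Poly.snd (NPC.Poly.snd (NPC.Poly.fst
          (NPC.Poly.fst (NPC.Poly.fst NPC.Poly.id))))))
      · exact NPC.Poly.fst (NPC.Poly.snd (NPC.Poly.snd (NPC.Poly.snd (NPC.Poly.snd (NPC.Poly.fst
          (NPC.Poly.fst (NPC.Poly.fst NPC.Poly.id)))))))
      · exact poly_take (poly_drop (NPC.Poly.fst (NPC.Poly.snd (NPC.Poly.fst (NPC.Poly.fst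
          NPC.Poly.id)))) (NPC.Poly.mul (NPC.Poly.snd (NPC.Poly.fst NPC.Poly.id)) hL)) hL
  · exact NPC.Poly.snd (NPC.Poly.snd NPC.Poly.id)

theorem poly_Fr : NPC.Poly (fun p : List Bool × List Bool × ℕ => Fr p.1 p.2.1 p.2.2) := by
  have h1 : NPC.Poly (fun q : (List Bool × List Bool × ℕ) × HD => Fh q.2 q.1.2.1 q.1.2.2) :=
    NPC.Poly.comp (g := fun p : HD × List Bool × ℕ => Fh p.1 p.2.1 p.2.2)
      (f := fun q : (List Bool × List Bool × ℕ) × HD => (q.2, q.1.2.1, q.1.2.2)) poly_Fh
      (NPC.Poly.pair (NPC.Poly.snd NPC.Poly.id) (NPC.Poly.pair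
        (NPC.Poly.fst (NPC.Poly.snd (NPC.Poly.fst NPC.Poly.id)))
        (NPC.Poly.snd (NPC.Poly.snd (NPC.Poly.fst NPC.Poly.id)))))
  have h2 : NPC.Poly (fun p : List Bool × List Bool × ℕ => unbits HD p.1) :=
    NPC.Poly.comp (g := fun x => unbits HD x) (f := fun p : List Bool × List Bool × ℕ => p.1)
      poly_unbits (NPC.Poly.fst NPC.Poly.id)
  have h3 := NPC.Poly.optCases (o := fun p : List Bool × List Bool × ℕ => unbits HD p.1)
    (g := fun _ => false) (h := fun p h => Fh h p.2.1 p.2.2) h2 (NPC.Poly.const false) h1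
  refine h3.congr fun p => ?_
  unfold Fr
  cases unbits HD p.1 <;> rfl

theorem poly_Tr : NPC.Poly Tr := by
  refine (NPC.Poly.optCases (o := fun p : List Bool => unbits HD p)
    (g := fun _ => 0) (h := fun _ h => h.2.2.1) poly_unbits (NPC.Poly.const _)
    (NPC.Poly.fst (NPC.Poly.snd (NPC.Poly.snd (NPC.Poly.snd NPC.Poly.id))))).congr fun p => ?_
  unfold Tr
  cases unbits HD p <;> rfl

theorem poly_cr : NPC.Poly cr := by
  refine (NPC.Poly.optCases (o := fun p : List Bool => unbits HD p)
    (g := fun _ => 0) (h := fun _ h => clen h.1.length h.2.1.length) poly_unbits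
    (NPC.Poly.const _) (poly_clen (NPC.Poly.length (NPC.Poly.fst (NPC.Poly.snd NPC.Poly.id)))
      (NPC.Poly.length (NPC.Poly.fst (NPC.Poly.snd (NPC.Poly.snd NPC.Poly.id)))))).congr
      fun p => ?_
  unfold cr
  cases unbits HD p <;> rfl

theorem zStr_length (N m T : ℕ) (f : ℕ → ℕ → List Bool) (A r : ℕ → Bool) :
    (zStr N m T f A r).length = T * (clen N m + 1) := by
  unfold zStr
  rw [flatMap_length (c := clen N m + 1) (by simp), List.length_range]

/-- For a structure with a non-trivial automorphism the string is never random. -/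
theorem nonrandom_of_aut {U : Machine} (hU : U.Good) : ∃ Q : Polynomial ℕ,
    ∀ (mat : List (List (List Bool))) (m T M u : ℕ) (σ : ℕ → ℕ) (A : List Bool) (r : ℕ → Bool),
      0 < m → IsAut mat.length (matF mat) σ → u < mat.length → σ u ≠ u →
      (∀ t < T, okB mat.length m r t = true) →
      sz ((mat, List.replicate m (), T, u, σ u, A) : HD) ≤ M → clen mat.length m ≤ M →
      (T * (clen mat.length m + 1) + 1).size ≤ M → Q.eval M < T →
      RKT U (zStr mat.length m T (matF mat) (fun i => A.getD i false) r) = false := by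
  obtain ⟨Q, hQ⟩ := block_describes Fr Tr (fun h => cr h + 1) cr hU poly_Fr poly_Tr
    (NPC.Poly.succ poly_cr) poly_cr
  refine ⟨Q, ?_⟩
  intro mat m T M u σ A r hm hσ hu hσu hok hM1 hM2 hM3 hT
  set N := mat.length with hN
  have hcode : ∀ t s, ∃ g : List Bool, (t < T → s < m → g.length = N * m - 1 ∧
      canon N m (matF mat) (dec m u (σ u) g) = canon N m (matF mat) (lab N m r (t * m + s))) := by
    intro t s
    by_cases h : t < T ∧ s < m
    · have h1 := hok t h.1
      rw [okB_iff] at h1
      obtain ⟨g, hg⟩ := exists_code hm hσ hu hσu (h1 s h.2) (fun v _ => keyOf_lt _ _ _)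
      exact ⟨g, fun _ _ => hg⟩
    · exact ⟨[], fun h1 h2 => absurd ⟨h1, h2⟩ h⟩
  choose w hw using hcode
  set h : HD := (mat, List.replicate m (), T, u, σ u, A) with hh
  have hub : unbits HD (bits h) = some h := unbits_bits h
  have hTr : Tr (bits h) = T := by unfold Tr; rw [hub]
  have hcr : cr (bits h) = clen N m := by
    unfold cr; rw [hub, hh]
    simp only [List.length_replicate]
    rw [hN]
  have hlen : ∀ t < T, ((List.range m).flatMap (w t)).length = clen N m := by
    intro t ht
    rw [flatMap_length (c := N * m - 1), List.length_range]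
    · rfl
    · intro s hs
      exact (hw t s ht (List.mem_range.1 hs)).1
  obtain ⟨d, t, hd, hle⟩ := hQ (bits h) (fun t => (List.range m).flatMap (w t))
    (zStr N m T (matF mat) (fun i => A.getD i false) r) M (by
      intro t ht
      rw [hTr] at ht
      rw [hcr]
      exact hlen t ht) (by simp) (by rw [zStr_length, hTr, hcr]) (by
      intro t ht j hj
      rw [hTr] at ht
      simp only [hcr] at hj ⊢
      unfold zStr
      rw [getElem?_flatMap_map ht hj]
      congr 1
      unfold Fr
      rw [hub]
      simp only [hh, Fh, List.length_replicate]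
      congr 1
      unfold blk
      refine flatMap_congr' fun s hs => ?_
      have hs' : s < m := List.mem_range.1 hs
      rw [← hN, drop_take_flatMap (fun s hs => (hw t s ht hs).1) hs']
      exact ((hw t s ht hs').2).symm) hM1 (by rw [hcr]; exact hM2)
      (by rw [zStr_length]; exact hM3)
  rw [hTr, hcr] at hle
  rw [RKT_eq_false]
  refine ⟨d, t, hd, ?_⟩
  rw [zStr_length]
  have : T * (clen N m + 1) = T * clen N m + T := by ring
  omega

end Pool.Agent.W2helper58.GA
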