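import Pool.Agent.W2helper58.GA.KTBound

/-!
# At least half of the strings of every length are KT-random
-/

namespace Pool.Agent.W2helper58.GA

open Turing Pool.Agent.NPC

theorem RKT_eq_false {U : Machine} {x : List Bool} :
    RKT U x = false ↔ ∃ (d : List Bool) (t : ℕ), Describes U d t x ∧ d.length + t < x.length := by
  unfold RKT KT
  rw [decide_eq_false_iff_not, not_le, sInf_lt_iff]
  constructor
  · rintro ⟨k, ⟨d, t, h, rfl⟩, hk⟩
    exact ⟨d, t, h, by exact_mod_cast hk⟩
  · rintro ⟨d, t, h, hk⟩
    exact ⟨_, ⟨d, t, h, rfl⟩, by exact_mod_cast hk⟩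

theorem valB_inj_len : ∀ {l l' : List Bool}, l.length = l'.length → valB l = valB l' → l = l'
  | [], [], _, _ => rfl
  | [], _ :: _, h, _ => by simp at h
  | _ :: _, [], h, _ => by simp at h
  | a :: l, b :: l', h, hv => by
    simp only [valB_cons] at hv
    have e : valB l = valB l' := by cases a <;> cases b <;> simp at hv <;> omega
    have e2 : a = b := by
      cases a <;> cases b <;> simp at hv ⊢ <;> omega
    rw [e2, valB_inj_len (by simpa using h) e]

theorem valB_snoc_true (d : List Bool) : valB (d ++ [true]) = valB d + 2 ^ d.length := by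
  rw [valB_append]; simp

theorem valB_lt' (d : List Bool) : valB d < 2 ^ d.length := valB_lt d

theorem snoc_true_inj {d d' : List Bool} (h : valB (d ++ [true]) = valB (d' ++ [true])) :
    d = d' := by
  rw [valB_snoc_true, valB_snoc_true] at h
  have h1 := valB_lt' d
  have h2 := valB_lt' d'
  have hlen : d.length = d'.length := by
    rcases lt_trichotomy d.length d'.length with hl | hl | hl
    · have : 2 ^ (d.length + 1) ≤ 2 ^ d'.length := Nat.pow_le_pow_right (by norm_num) hl
      rw [pow_succ] at this
      omega
    · exact hl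
    · have : 2 ^ (d'.length + 1) ≤ 2 ^ d.length := Nat.pow_le_pow_right (by norm_num) hl
      rw [pow_succ] at this
      omega
  rw [hlen] at h
  exact valB_inj_len hlen (by omega)

theorem describes_inj {U : Machine} (hU : U.Good) {d : List Bool} {t t' : ℕ} {x x' : List Bool}
    (hl : x.length = x'.length) (h : Describes U d t x) (h' : Describes U d t' x') : x = x' := by
  wlog htt : t ≤ t' generalizing t t' x x'
  · exact (this hl.symm h' h (by omega)).symm
  apply List.ext_getElem? 
  intro i
  by_cases hi : i ≤ x.length
  · have h1 := (h i hi (x[i]?)).2 rfl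
    have h2 := hU.mono _ _ _ _ _ htt h1
    exact ((h' i (by omega) _).1 h2).symm
  · rw [List.getElem?_eq_none (by omega), List.getElem?_eq_none (by omega)]

/-- At most half of the strings of length `L ≥ 1` are not KT-random. -/
theorem nonrandom_card {U : Machine} (hU : U.Good) {L : ℕ} (hL : 0 < L) :
    2 * Nat.card {w : Fin L → Bool // RKT U (List.ofFn w) = false} ≤ 2 ^ L := by
  have key : ∀ w : {w : Fin L → Bool // RKT U (List.ofFn w) = false}, ∃ (d : List Bool) (t : ℕ),
      Describes U d t (List.ofFn w.1) ∧ d.length + 2 ≤ L := by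
    rintro ⟨w, hw⟩
    obtain ⟨d, t, h, hlt⟩ := RKT_eq_false.1 hw
    refine ⟨d, t, h, ?_⟩
    rw [List.length_ofFn] at hlt
    have : t ≠ 0 := by
      rintro rfl
      exact hU.pos _ _ _ ((h 0 (Nat.zero_le _) _).2 rfl)
    omega
  choose d t hd hdl using key
  let f : {w : Fin L → Bool // RKT U (List.ofFn w) = false} → Fin (2 ^ (L - 1)) := fun w =>
    ⟨valB (d w ++ [true]), by
      rw [valB_snoc_true]
      have h1 := valB_lt' (d w)
      have h2 := hdl w
      have h3 : 2 ^ ((d w).length + 1) ≤ 2 ^ (L - 1) :=
        Nat.pow_le_pow_right (by norm_num) (by omega)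
      rw [pow_succ] at h3
      omega⟩
  have hf : Function.Injective f := by
    intro w w' h
    have h1 : valB (d w ++ [true]) = valB (d w' ++ [true]) := congrArg Fin.val h
    have h2 := snoc_true_inj h1
    have h3 := hd w'
    rw [← h2] at h3
    have h4 := describes_inj hU (by simp) (hd w) h3
    exact Subtype.ext (List.ofFn_injective h4)
  have := Nat.card_le_card_of_injective f hf
  rw [Nat.card_fin] at this
  obtain ⟨k, rfl⟩ := Nat.exists_eq_add_of_le hL
  rw [show 1 + k - 1 = k by omega] at this
  rw [pow_add, pow_one]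
  omega

end Pool.Agent.W2helper58.GA
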