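import Pool.Agent.H620R2.GaugeX.Defs
import Pool.Agent.NPC.Num

/-!
# Time-bounded Kolmogorov complexity KT and Graph Automorphism

`RTM` is the type of Turing machines with random access to a string: Mathlib's multi-stack machines
(`Turing.TM2`) with finitely many binary stacks, finitely many labels and finitely many internal
states, extended by reading steps. `KT U` is the KT complexity given by a machine `U`.
-/

namespace Pool.Agent.W2helper58.GA

open Turing Pool.Agent.NPC Pool.Agent.H620R2.Gauge
open Function (update)

/-- A Turing machine with random access to a string `d`. It is one of Mathlib's multi-stack machines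
(finitely many stacks of bits, finitely many labels, finitely many internal states), with some
labels marked by `ask`: whenever the machine is at such a label, it first reads the bit of `d` with
the number written in binary (lowest digit on top) on the stack `addr`. The stack `addr` is
cleared, and the bit is pushed on the stack `ans` (nothing is pushed if `d` is too short). -/
structure RTM : Type 1 where
  /-- index type of the stacks -/
  K : Type
  [decK : DecidableEq K]
  [finK : Finite K]
  /-- labels -/
  Λ : Type
  [finΛ : Finite Λ]
  /-- internal states -/
  σ : Type
  [finσ : Finite σ]
  /-- the first label -/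
  main : Λ
  /-- the first internal state -/
  init : σ
  /-- the statement executed at a label -/
  prog : Λ → TM2.Stmt (fun _ : K => Bool) Λ σ
  /-- the input stack -/
  inp : K
  /-- the output stack -/
  out : K
  /-- the address stack -/
  addr : K
  /-- the stack for the bits read -/
  ans : K
  /-- the labels at which the machine reads a bit of `d` -/
  ask : Λ → Bool

attribute [instance] RTM.decK

namespace RTM

variable (M : RTM)

/-- The configurations: current label (`none` if the machine has halted), internal state and
contents of the stacks. -/
abbrev Cfg : Type := TM2.Cfg (fun _ : M.K => Bool) M.Λ M.σ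

/-- The stacks after reading a bit of `d`. -/
def read (d : List Bool) (S : M.K → List Bool) : M.K → List Bool :=
  update (update S M.addr []) M.ans ((d[valB (S M.addr)]?).toList ++ update S M.addr [] M.ans)

/-- One step of the machine with random access to `d`. -/
def step (d : List Bool) (c : M.Cfg) : Option M.Cfg :=
  TM2.step M.prog (if c.l.any M.ask then ⟨c.l, c.var, M.read d c.stk⟩ else c)

/-- The input string for the position `i` and `b ∈ {0, 1, *}` (the symbol `*` is `none`). -/
def input (i : ℕ) : Option Bool → List Bool
  | none => false :: i.bits
  | some b => true :: b :: i.bits

/-- The first configuration on input `(i, b)`. -/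
def start (i : ℕ) (b : Option Bool) : M.Cfg :=
  ⟨some M.main, M.init, update (fun _ => []) M.inp (input i b)⟩

/-- `Accepts d i b t`: with random access to `d`, on input `(i, b)`, the machine halts within `t`
steps with the one-bit string `1` on its output stack. -/
def Accepts (d : List Bool) (i : ℕ) (b : Option Bool) (t : ℕ) : Prop :=
  ∃ s ≤ t, ∃ c : M.Cfg, (fun o => o.bind (M.step d))^[s] (some (M.start i b)) = some c ∧
    c.l = none ∧ c.stk M.out = [true]

end RTM

/-- A machine with random access to a string, seen from outside: `U d i b t` says that `U` with
description string `d` accepts the input `(i, b)` within `t` steps. -/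
abbrev Machine : Type := List Bool → ℕ → Option Bool → ℕ → Prop

/-- `U` simulates `M` efficiently: for every description `d` for `M` there is a description `d'` for
`U`, longer by at most a constant, that makes `U` accept the same inputs as `M` with `d`, with a
running time that is polynomially bounded in the running time of `M` and the length of the
input. -/
def Simulates (U : Machine) (M : RTM) : Prop :=
  ∃ c : ℕ, ∀ d : List Bool, ∃ d' : List Bool, d'.length ≤ d.length + c ∧
    ∀ (i : ℕ) (b : Option Bool),
      (∀ t, M.Accepts d i b t → U d' i b (c * (t + i.size + 1) ^ c)) ∧
      (∀ t, U d' i b t → ∃ t', M.Accepts d i b t')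

/-- `U` is an efficient universal machine: it simulates every `M` efficiently. -/
def RTM.Universal (U : RTM) : Prop := ∀ M : RTM, Simulates U.Accepts M

/-- `d` describes `x` in time `t`: for every position `i = 1, ..., |x| + 1` and every
`b ∈ {0, 1, *}`, `U` with description string `d` accepts `(i, b)` within `t` steps exactly if `b` is
the symbol of `x` at position `i`; the symbol at position `|x| + 1` is `*`, that is `none`. (Lean
counts the positions of a list from `0`.) -/
def Describes (U : Machine) (d : List Bool) (t : ℕ) (x : List Bool) : Prop :=
  ∀ i ≤ x.length, ∀ b : Option Bool, U d (i + 1) b t ↔ x[i]? = b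

/-- The KT complexity: the least `|d| + t` such that `d` describes `x` in time `t`. -/
noncomputable def KT (U : Machine) (x : List Bool) : ℕ∞ :=
  sInf {k : ℕ∞ | ∃ (d : List Bool) (t : ℕ), Describes U d t x ∧ k = ((d.length + t : ℕ) : ℕ∞)}

open Classical in
/-- The oracle for the set `R_KT` of the KT-random strings, those with `KT x ≥ |x|`. -/
noncomputable def RKT (U : Machine) : Oracle := fun x => decide ((x.length : ℕ∞) ≤ KT U x)

/-- The adjacency matrix of a graph. -/
noncomputable def adjBits {n : ℕ} (G : SimpleGraph (Fin n)) : List (List Bool) :=
  open Classical in List.ofFn fun i => List.ofFn fun j => decide (G.Adj i j)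

/-- Graph Automorphism: the language of the (standard codes of the) adjacency matrices of the
graphs with an automorphism other than the identity. -/
def GraphAut : Set (List Bool) :=
  lang fun A : List (List Bool) => ∃ (n : ℕ) (G : SimpleGraph (Fin n)), A = adjBits G ∧
    ∃ φ : G ≃g G, ∃ v, φ v ≠ v

end Pool.Agent.W2helper58.GA
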