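import Pool.Agent.W2helper58.GA.Main

/-!
# Graph Automorphism is in `ZPP` relative to the KT-random strings: the proof
-/

namespace Pool.Agent.W2helper58.GA

open Pool.Agent.NPC Pool.Agent.H620R2.Gauge

open Polynomial in
/-- a bound for the number of random bits of the hash function -/
noncomputable def HBp : Polynomial ℕ :=
  (X * (C 2 * X * X) + 1) * (X * (C 2 * X * X + C 2 * X * (C 2 * X * (X + C 3))))

open Polynomial in
/-- a bound for the size of the header and related quantities -/
noncomputable def MBp : Polynomial ℕ :=
  C 2 * X * (C 2 * X * (C 4 * (X + C 3) + C 2) + C 2) + C 1 + (C 2 * X + C 1) + (C 4 * X + C 1) +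
    (C 8 * X + C 1) + (C 8 * X + C 1) + (C 4 * HBp + C 1) + C 5 + X * (C 2 * X * X) +
    (X + X * (C 2 * X * X) + C 1)

theorem HBp_eval (m : ℕ) : HBp.eval m = (m * (2 * m * m) + 1) *
    (m * (2 * m * m + 2 * m * (2 * m * (m + 3)))) := by
  simp [HBp]

theorem MBp_eval (m : ℕ) : MBp.eval m = 2 * m * (2 * m * (4 * (m + 3) + 2) + 2) + 1 +
    (2 * m + 1) + (4 * m + 1) + (8 * m + 1) + (8 * m + 1) + (4 * HBp.eval m + 1) + 5 +
    m * (2 * m * m) + (m + m * (2 * m * m) + 1) := by
  simp [MBp]

theorem clen_le {N m : ℕ} (hN : N ≤ 2 * m) : clen N m ≤ m * (2 * m * m) := by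
  unfold clen
  exact Nat.mul_le_mul_left _ ((Nat.sub_le _ _).trans (Nat.mul_le_mul_right _ hN))

theorem hlen_le {N m c : ℕ} (hN : N ≤ 2 * m) (hc : c ≤ m + 3) : hlen N m c ≤ HBp.eval m := by
  rw [HBp_eval]
  unfold hlen dlen
  refine Nat.mul_le_mul (Nat.add_le_add_right (clen_le hN) 1) (Nat.mul_le_mul_left _ ?_)
  exact Nat.add_le_add (Nat.mul_le_mul_right _ hN) (Nat.mul_le_mul hN (Nat.mul_le_mul hN hc))

theorem sz_nat_le' (u : ℕ) : sz u ≤ 4 * u + 1 := by
  have h1 := sz_nat_le u
  have h2 := NPC.Poly.size_le_self u
  omega

/-- The size of the header. -/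
theorem header_le {A : List (List Bool)} {I m T u v : ℕ} {B : List Bool} (hn : A.length ≤ m)
    (hT : T.size ≤ m) (hu : u ≤ 2 * m) (hv : v ≤ 2 * m) (hB : B.length ≤ HBp.eval m) :
    sz ((matE A I, List.replicate m (), T, u, v, B) : HD) ≤ MBp.eval m := by
  have h1 : sz (matE A I) ≤ 2 * m * (2 * m * (4 * (m + 3) + 2) + 2) + 1 := by
    have hN : 2 * A.length ≤ 2 * m := by omega
    refine (sz_le_length_mul (matE A I) (2 * m * (4 * (m + 3) + 2) + 1) ?_).trans ?_
    · intro row hrow
      simp only [matE, List.mem_map, List.mem_range] at hrow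
      obtain ⟨x, hx, rfl⟩ := hrow
      refine (sz_le_length_mul _ (4 * (m + 3) + 1) ?_).trans ?_
      · intro e he
        simp only [List.mem_map, List.mem_range] at he
        obtain ⟨y, hy, rfl⟩ := he
        have h3 := sz_listBool_le (ent A.length (aM A) (inst1 A.length I) (inst2 A.length I) x y)
        rw [ent_length] at h3
        omega
      · rw [List.length_map, List.length_range]
        exact Nat.add_le_add_right (Nat.mul_le_mul_right _ hN) 1
    · rw [matE_length]
      exact Nat.add_le_add_right (Nat.mul_le_mul_right _ hN) 1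
  have h2 : sz (List.replicate m ()) ≤ 2 * m + 1 := by
    have := sz_le_length_mul (List.replicate m ()) 1 (by simp)
    rw [List.length_replicate] at this
    omega
  have h3 : sz T ≤ 4 * m + 1 := by
    have := sz_nat_le T
    omega
  have h4 : sz u ≤ 8 * m + 1 := by have := sz_nat_le' u; omega
  have h5 : sz v ≤ 8 * m + 1 := by have := sz_nat_le' v; omega
  have h6 : sz B ≤ 4 * HBp.eval m + 1 := by
    have := sz_listBool_le B
    omega
  rw [MBp_eval]
  simp only [sz_pair]
  omega

/-- The test never accepts an instance with a non-trivial automorphism. -/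
theorem tst_false {U : Machine} {Q : Polynomial ℕ} {m I : ℕ} {A : List (List Bool)}
    (hQ : ∀ (mat : List (List (List Bool))) (m T M u : ℕ) (σ : ℕ → ℕ) (A : List Bool)
      (r : ℕ → Bool),
      0 < m → IsAut mat.length (matF mat) σ → u < mat.length → σ u ≠ u →
      (∀ t < T, okB mat.length m r t = true) →
      sz ((mat, List.replicate m (), T, u, σ u, A) : HD) ≤ M → clen mat.length m ≤ M →
      (T * (clen mat.length m + 1) + 1).size ≤ M → Q.eval M < T →
      RKT U (zStr mat.length m T (matF mat) (fun i => A.getD i false) r) = false)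
    (hn : A.length ≤ m) (hn0 : 0 < A.length) {T : ℕ} (hTQ : Q.eval (MBp.eval m) < T)
    (hT : T < 2 ^ m)
    (hA : ∃ σ, IsAut (2 * A.length) (ent A.length (aM A) (inst1 A.length I) (inst2 A.length I)) σ ∧
      ∃ u < 2 * A.length, σ u ≠ u) (r : ℕ → Bool) :
    tst U (2 * A.length) m T (A.length + 3) (matF (matE A I)) r = false := by
  obtain ⟨σ, hσ, u, hu, hσu⟩ := hA
  have hlenM := matE_length A I
  have hf : ∀ x < 2 * A.length, ∀ y < 2 * A.length,
      (matF (matE A I) x y).length = A.length + 3 := by
    intro x hx y hy
    rw [matF_matE A I hx hy, ent_length]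
  unfold tst
  by_cases hok : ((List.range T).all fun t =>
      okB (2 * A.length) m (fun i => r (hlen (2 * A.length) m (A.length + 3) + i)) t) = true
  · rw [hok, Bool.true_and]
    set hl := hlen (2 * A.length) m (A.length + 3) with hhl
    let B : List Bool := (List.range hl).map r
    have hTs : T.size ≤ m := Nat.size_le.2 hT
    have h1 := hQ (matE A I) m T (MBp.eval m) u σ B (fun i => r (hl + i)) (by omega)
      (by
        rw [hlenM]
        exact hσ.congr fun x hx y hy => (matF_matE A I hx hy).symm)
      (by rw [hlenM]; exact hu) hσu (by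
        rw [hlenM]
        intro t ht
        rw [List.all_eq_true] at hok
        exact hok t (List.mem_range.2 ht))
      (header_le hn hTs (by omega) (by have := hσ.1 u hu; omega) (by
        simp only [B, List.length_map, List.length_range]
        exact hlen_le (by omega) (by omega)))
      (by
        rw [hlenM]
        refine (clen_le (by omega)).trans ?_
        rw [MBp_eval]; omega)
      (by
        rw [hlenM]
        have h2 := clen_le (N := 2 * A.length) (m := m) (by omega)
        have h3 : (T * (clen (2 * A.length) m + 1) + 1).size ≤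
            m + (m * (2 * m * m) + 1) + 1 := by
          refine Nat.size_le.2 ?_
          have h4 : T * (clen (2 * A.length) m + 1) < 2 ^ (m + (m * (2 * m * m) + 1)) := by
            rw [pow_add]
            refine Nat.mul_lt_mul_of_lt_of_le hT ?_ (by positivity)
            exact (Nat.lt_two_pow_self.le.trans (Nat.pow_le_pow_right (by norm_num) (by omega)))
          rw [pow_succ]
          omega
        rw [MBp_eval]
        omega) hTQ
    rw [hlenM] at h1
    rw [← h1]
    congr 1
    refine zStr_congr hf (fun i hi => ?_) (fun _ _ => rfl)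
    simp only [B]
    rw [List.getD_eq_getElem?_getD]
    simp [hi, hhl]
  · rw [Bool.not_eq_true] at hok
    rw [hok, Bool.false_and]

/-- `2 n² (3/4)^R ≤ 1`. -/
theorem reps_bound {n m : ℕ} (h : n ≤ m) :
    2 * n ^ 2 * 3 ^ (3 * (2 * m + 1)) ≤ 4 ^ (3 * (2 * m + 1)) := by
  rw [pow_mul, pow_mul]
  have h1 : (4 : ℕ) ^ 3 = 64 := by norm_num
  have h2 : (3 : ℕ) ^ 3 = 27 := by norm_num
  rw [h1, h2]
  have h3 : n ^ 2 ≤ 4 ^ m := by
    have h4 : n < 2 ^ m := lt_of_le_of_lt h Nat.lt_two_pow_self
    calc n ^ 2 ≤ (2 ^ m) ^ 2 := Nat.pow_le_pow_left h4.le 2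
      _ = 4 ^ m := by rw [← pow_mul, mul_comm, pow_mul]; norm_num
  have h4 : 2 * n ^ 2 ≤ 2 ^ (2 * m + 1) := by
    rw [pow_succ 2 (2 * m), pow_mul]
    norm_num
    omega
  calc 2 * n ^ 2 * 27 ^ (2 * m + 1) ≤ 2 ^ (2 * m + 1) * 27 ^ (2 * m + 1) :=
        Nat.mul_le_mul_right _ h4
    _ = 54 ^ (2 * m + 1) := by rw [← mul_pow]; norm_num
    _ ≤ 64 ^ (2 * m + 1) := Nat.pow_le_pow_left (by norm_num) _

open Polynomial in
theorem zpp_good {U : Machine} (hU : U.Good) : IsZPP (RKT U) GraphAut := by
  obtain ⟨Q, hQ⟩ := nonrandom_of_aut hU
  let TP : Polynomial ℕ := Q.comp MBp + 1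
  have hTP : ∀ m, TP.eval m = Q.eval (MBp.eval m) + 1 := by intro m; simp [TP, eval_comp]
  let PP : Polynomial ℕ := C 16 * TP ^ 2 * (C 2 + C 2 * X * (C 2 * X) ^ 2)
  obtain ⟨c₀, hc⟩ := poly_lt_two_pow PP 1
  have hPP : ∀ m ≥ c₀, 16 * (TP.eval m) ^ 2 * (2 + 2 * m * (2 * m) ^ 2) ≤ 2 ^ m := by
    intro m hm
    have := hc m hm
    simpa [PP] using this
  let LP : Polynomial ℕ := ((C 3 * (C 2 * X + 1)) * (HBp + TP * (X * (C 2 * X) * X))).comp
    (X + C c₀)
  have hLP : ∀ k, LP.eval k = (3 * (2 * (k + c₀) + 1)) *
      (HBp.eval (k + c₀) + TP.eval (k + c₀) * ((k + c₀) * (2 * (k + c₀)) * (k + c₀))) := by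
    intro k; simp [LP, eval_comp]
  refine ⟨VV c₀ TP U, LP, isFP_VV c₀ TP U, fun x => ?_⟩
  set n := (gA x).length with hn
  set m := mP c₀ x with hm
  set T := TP.eval m with hT
  set R := rP c₀ x with hR
  set b := bP c₀ TP x with hb
  set L := LP.eval x.length with hL
  have hnx : n ≤ x.length := gA_length_le x
  have hmc : c₀ ≤ m := by rw [hm]; unfold mP; omega
  have hnm : n ≤ m := by rw [hm]; unfold mP; omega
  have hR0 : 0 < R := by rw [hR]; unfold rP; omega
  have hRL : R * b ≤ L := by
    rw [hL, hLP, hR, hb]
    unfold rP bP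
    refine Nat.mul_le_mul le_rfl ?_
    unfold rlen qlen
    refine Nat.add_le_add (hlen_le (m := mP c₀ x) (by omega) (by omega))
      (Nat.mul_le_mul_left _ (Nat.mul_le_mul_right _ (Nat.mul_le_mul_left _ ?_)))
    have : mP c₀ x = x.length + c₀ := rfl
    omega
  let ans : List Bool → List Bool := fun W => (List.range (kP c₀ x)).map fun q =>
    RKT U (zq c₀ TP W x (q / R) (q % R))
  have hVV : ∀ W, VV c₀ TP U (pairBits W x) = fin c₀ TP W x (ans W) := by
    intro W
    unfold VV
    rw [unpair_pairBits]
  have hans : ∀ W I ρ, I < 1 + n * n * n * n → ρ < R →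
      (ans W).getD (I * R + ρ) false = RKT U (zq c₀ TP W x I ρ) := by
    intro W I ρ hI hρ
    have h1 : I * R + ρ < kP c₀ x := by
      have : (I + 1) * R ≤ (1 + n * n * n * n) * R := Nat.mul_le_mul_right _ hI
      rw [add_mul, one_mul] at this
      have h2 : kP c₀ x = (1 + n * n * n * n) * R := rfl
      omega
    simp only [ans]
    rw [List.getD_eq_getElem?_getD, List.getElem?_map, List.getElem?_range h1]
    have e1 : (I * R + ρ) / R = I := by
      rw [mul_comm, Nat.mul_add_div hR0, Nat.div_eq_of_lt hρ, add_zero]
    have e2 : (I * R + ρ) % R = ρ := by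
      rw [mul_comm, Nat.mul_add_mod, Nat.mod_eq_of_lt hρ]
    simp [e1, e2]
  let E : ℕ → (ℕ → Bool) → Bool := fun I r =>
    tst U (2 * n) m T (n + 3) (matF (matE (gA x) I)) r
  let H : List Bool → ℕ → Bool := fun W I => (List.range R).any fun ρ =>
    okq c₀ TP W x ρ && (ans W).getD (I * R + ρ) false
  have hH : ∀ W I, I < 1 + n * n * n * n →
      (H W I = true ↔ ∃ ρ < R, E I (rnd c₀ TP W x ρ) = true) := by
    intro W I hI
    simp only [H, List.any_eq_true, List.mem_range]
    refine exists_congr fun ρ => and_congr_right fun hρ => ?_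
    rw [hans W I ρ hI hρ]
    exact Iff.rfl
  have hfin : ∀ W, 0 < n → fin c₀ TP W x (ans W) = outp n (aM (gA x)) (H W) := by
    intro W h0
    unfold fin
    rw [if_neg (by omega)]
  have hf : ∀ I, ∀ x' < 2 * n, ∀ y < 2 * n, (matF (matE (gA x) I) x' y).length = n + 3 := by
    intro I x' hx' y hy
    rw [matF_matE (gA x) I hx' hy, ent_length]
  rcases Nat.eq_zero_or_pos n with hn0 | hn0
  · -- no vertices
    have hnot : x ∉ GraphAut := by
      rw [mem_GraphAut]
      rintro ⟨π, _, hπ1⟩
      apply hπ1
      ext i
      have := i.2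
      omega
    have hV : ∀ W, VV c₀ TP U (pairBits W x) = [false] := by
      intro W
      rw [hVV]
      unfold fin
      rw [if_pos hn0]
    refine ⟨fun w _ => ⟨fun h => ?_, fun _ => hnot⟩, ?_⟩
    · rw [hV] at h
      simp at h
    · have : Nat.card {w : Fin L → Bool // VV c₀ TP U (pairBits (List.ofFn w) x) = [true] ∨
          VV c₀ TP U (pairBits (List.ofFn w) x) = [false]} = 2 ^ L := by
        rw [Nat.card_congr (Equiv.subtypeUnivEquiv fun w => Or.inr (hV _))]
        simp
      rw [this]
      push_cast
      rw [div_self (by positivity)]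
      norm_num
  · have hT0 : 0 < T := by rw [hT, hTP]; omega
    have hbnd : 16 * T ^ 2 * (2 + 2 * m * (2 * n) ^ 2) ≤ 2 ^ m := by
      refine le_trans (Nat.mul_le_mul_left _ ?_) (hPP m hmc)
      refine Nat.add_le_add_left (Nat.mul_le_mul_left _ ?_) _
      exact Nat.pow_le_pow_left (by omega) 2
    have hT2 : T < 2 ^ m := by
      have h1 : T * 1 ≤ T * T := Nat.mul_le_mul_left _ hT0
      have h2 : 16 * T ^ 2 * 2 ≤ 16 * T ^ 2 * (2 + 2 * m * (2 * n) ^ 2) :=
        Nat.mul_le_mul_left _ (by omega)
      have h3 : T ^ 2 = T * T := sq T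
      omega
    have hTQ : Q.eval (MBp.eval m) < T := by rw [hT, hTP]; omega
    -- the tests never accept structures with an automorphism
    have hneg : ∀ I, (∃ σ, IsAut (2 * n) (ent n (aM (gA x)) (inst1 n I) (inst2 n I)) σ ∧
        ∃ u < 2 * n, σ u ≠ u) → ∀ r, E I r = false := by
      intro I hI r
      exact tst_false hQ hnm hn0 hTQ hT2 hI r
    have hsound : ∀ W, H W 0 = true → ∀ π : Equiv.Perm (Fin n), isA (aM (gA x)) π → π = 1 := by
      intro W hW π hπ
      by_contra hπ1
      obtain ⟨ρ, _, hρ⟩ := (hH W 0 (by omega)).1 hW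
      have := hneg 0 (by
        have e1 : inst1 n 0 = [] := rfl
        rw [e1]
        exact nonrigid_left hπ hπ1 _) (rnd c₀ TP W x ρ)
      rw [this] at hρ
      exact absurd hρ (by simp)
    constructor
    · intro w _
      rw [hVV, hfin w hn0]
      obtain ⟨h1, h2⟩ := outp_sound (hsound w)
      rw [mem_GraphAut]
      exact ⟨h1, h2⟩
    · -- the probability
      let bad : ℕ → Finset (Fin L → Bool) := fun I =>
        Finset.univ.filter fun w => ∀ ρ < R, E I (fun i => ext w (ρ * b + i)) = false
      have hrnd : ∀ (w : Fin L → Bool) ρ, rnd c₀ TP (List.ofFn w) x ρ =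
          fun i => ext w (ρ * b + i) := by
        intro w ρ
        funext i
        unfold rnd
        rw [ofFn_getD]
      have hbad : ∀ I, Rigid (2 * n) (ent n (aM (gA x)) (inst1 n I) (inst2 n I)) →
          4 ^ R * (bad I).card ≤ 3 ^ R * 2 ^ L := by
        intro I hI
        have hrig : Rigid (2 * n) (matF (matE (gA x) I)) :=
          hI.congr fun x' hx' y hy => (matF_matE (gA x) I hx' hy).symm
        have h1 := rigid_count hU (hf I) hrig (by omega) hT0 hbnd
        refine reps (b := b) (E := E I) (fun r r' hrr => tst_congr (hf I) hrr) ?_ R L hRL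
        have h2 : (Finset.univ.filter fun v : Fin b → Bool => E I (ext v) = true).card +
            (Finset.univ.filter fun v : Fin b → Bool => E I (ext v) = false).card = 2 ^ b := by
          have e : (Finset.univ.filter fun v : Fin b → Bool => E I (ext v) = false) =
              Finset.univ.filter fun v : Fin b → Bool => ¬ E I (ext v) = true := by
            ext v; simp
          rw [e, Finset.card_filter_add_card_filter_not]
          simp
        have h3 : 2 ^ b ≤ 4 * (Finset.univ.filter fun v : Fin b → Bool =>
            E I (ext v) = true).card := h1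
        omega
      let good : (Fin L → Bool) → Prop := fun w =>
        VV c₀ TP U (pairBits (List.ofFn w) x) = [true] ∨
          VV c₀ TP U (pairBits (List.ofFn w) x) = [false]
      have hrb : 2 * n ^ 2 * 3 ^ R ≤ 4 ^ R := reps_bound hnm
      have h4R : 0 < 4 ^ R := by positivity
      classical
      have hcnt : 2 * (Finset.univ.filter fun w : Fin L → Bool => ¬ good w).card ≤ 2 ^ L := by
        by_cases hrigid : ∀ π : Equiv.Perm (Fin n), isA (aM (gA x)) π → π = 1
        · -- rigid graphs
          have hr0 : Rigid (2 * n) (ent n (aM (gA x)) (inst1 n 0) (inst2 n 0)) :=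
            rigid_graph hn0 hrigid
          have h1 := hbad 0 hr0
          have h2 : (Finset.univ.filter fun w : Fin L → Bool => ¬ good w) ⊆ bad 0 := by
            intro w hw
            simp only [Finset.mem_filter, Finset.mem_univ, true_and, good, bad] at hw ⊢
            by_contra hcon
            apply hw
            right
            rw [hVV, hfin _ hn0]
            have : H (List.ofFn w) 0 = true := by
              rw [hH _ 0 (by omega)]
              push Not at hcon
              obtain ⟨ρ, hρ, hE⟩ := hcon
              refine ⟨ρ, hρ, ?_⟩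
              rw [hrnd]
              simpa using hE
            unfold outp
            rw [if_pos this]
          have h3 := Finset.card_le_card h2
          have h5 : 4 ^ R * (2 * (Finset.univ.filter fun w : Fin L → Bool => ¬ good w).card) ≤
              4 ^ R * 2 ^ L := by
            calc 4 ^ R * (2 * (Finset.univ.filter fun w : Fin L → Bool => ¬ good w).card)
                ≤ 4 ^ R * (2 * (bad 0).card) := Nat.mul_le_mul_left _ (Nat.mul_le_mul_left _ h3)
              _ = 2 * (4 ^ R * (bad 0).card) := by ring
              _ ≤ 2 * (3 ^ R * 2 ^ L) := Nat.mul_le_mul_left _ h1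
              _ = (2 * 1 * 3 ^ R) * 2 ^ L := by ring
              _ ≤ (2 * n ^ 2 * 3 ^ R) * 2 ^ L := by
                refine Nat.mul_le_mul_right _ (Nat.mul_le_mul_right _ (Nat.mul_le_mul_left _ ?_))
                exact Nat.one_le_pow _ _ hn0
              _ ≤ 4 ^ R * 2 ^ L := Nat.mul_le_mul_right _ hrb
          exact Nat.le_of_mul_le_mul_left h5 h4R
        · -- graphs with a non-trivial automorphism
          push Not at hrigid
          obtain ⟨k, hk, j, hj, π, hπ, hπ1, hyes, hno⟩ := exists_search (a := aM (gA x))
            (n := n) hrigid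
          have hidx : ∀ u < n, ∀ v < n, idxI n k j u v < 1 + n * n * n * n := by
            intro u hu v hv
            unfold idxI
            have e1 : k * n + j + 1 ≤ n * n := by
              have : (k + 1) * n ≤ n * n := Nat.mul_le_mul_right _ hk
              rw [add_mul, one_mul] at this
              omega
            have e2 : (k * n + j) * n + u + 1 ≤ n * n * n := by
              have : (k * n + j + 1) * n ≤ n * n * n := Nat.mul_le_mul_right _ e1
              rw [add_mul, one_mul] at this
              omega
            have e3 : ((k * n + j) * n + u + 1) * n ≤ n * n * n * n := Nat.mul_le_mul_right _ e2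
            rw [add_mul _ 1, one_mul] at e3
            omega
          have h2 : (Finset.univ.filter fun w : Fin L → Bool => ¬ good w) ⊆
              (Finset.range n ×ˢ Finset.range n).biUnion fun p =>
                if p.2 ≠ pf π p.1 then bad (idxI n k j p.1 p.2) else ∅ := by
            intro w hw
            simp only [Finset.mem_filter, Finset.mem_univ, true_and, good] at hw
            by_contra hcon
            apply hw
            left
            rw [hVV, hfin _ hn0]
            refine outp_complete hk hj hπ hπ1 ?_ ?_ ?_
            · rw [Bool.eq_false_iff]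
              intro h0
              exact hπ1 (hsound _ h0 π hπ)
            · intro u hu
              rw [Bool.eq_false_iff]
              intro h0
              obtain ⟨ρ, _, hρ⟩ := (hH _ _ (hidx u hu _ (pf_lt π hu))).1 h0
              have := hneg (idxI n k j u (pf π u)) (by
                rw [inst1_idx hk hj hu (pf_lt π hu), inst2_idx hk hj hu (pf_lt π hu),
                  ← hyes u hu]
                refine nonrigid_swap hπ hn0 ?_
                intro y hy
                simp only [List.mem_append, List.mem_range, List.mem_cons, List.not_mem_nil,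
                  or_false] at hy
                omega) (rnd c₀ TP (List.ofFn w) x ρ)
              rw [this] at hρ
              exact absurd hρ (by simp)
            · intro u hu v hv huv
              rw [hH _ _ (hidx u hu v hv)]
              by_contra hcon2
              apply hcon
              rw [Finset.mem_biUnion]
              refine ⟨(u, v), by simp [hu, hv], ?_⟩
              simp only
              rw [if_pos huv]
              simp only [bad, Finset.mem_filter, Finset.mem_univ, true_and]
              intro ρ hρ
              push Not at hcon2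
              have := hcon2 ρ hρ
              rw [hrnd] at this
              simpa using this
          have h3 := (Finset.card_le_card h2).trans Finset.card_biUnion_le
          have h5 : 4 ^ R * (Finset.univ.filter fun w : Fin L → Bool => ¬ good w).card ≤
              n ^ 2 * (3 ^ R * 2 ^ L) := by
            refine (Nat.mul_le_mul_left _ h3).trans ?_
            rw [Finset.mul_sum]
            refine (Finset.sum_le_card_nsmul _ _ (3 ^ R * 2 ^ L) ?_).trans (le_of_eq ?_)
            · rintro ⟨u, v⟩ hp
              simp only [Finset.mem_product, Finset.mem_range] at hp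
              simp only
              split_ifs with huv
              · apply hbad
                rw [inst1_idx hk hj hp.1 hp.2, inst2_idx hk hj hp.1 hp.2]
                exact hno u hp.1 v hp.2 huv
              · simp
            · simp only [Finset.card_product, Finset.card_range, smul_eq_mul]
              ring
          have h6 : 4 ^ R * (2 * (Finset.univ.filter fun w : Fin L → Bool => ¬ good w).card) ≤
              4 ^ R * 2 ^ L := by
            calc 4 ^ R * (2 * (Finset.univ.filter fun w : Fin L → Bool => ¬ good w).card)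
                = 2 * (4 ^ R * (Finset.univ.filter fun w : Fin L → Bool => ¬ good w).card) := by
                  ring
              _ ≤ 2 * (n ^ 2 * (3 ^ R * 2 ^ L)) := Nat.mul_le_mul_left _ h5
              _ = (2 * n ^ 2 * 3 ^ R) * 2 ^ L := by ring
              _ ≤ 4 ^ R * 2 ^ L := Nat.mul_le_mul_right _ hrb
          exact Nat.le_of_mul_le_mul_left h6 h4R
      have htot : (Finset.univ.filter fun w : Fin L → Bool => good w).card +
          (Finset.univ.filter fun w : Fin L → Bool => ¬ good w).card = 2 ^ L := by
        rw [Finset.card_filter_add_card_filter_not]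
        simp
      have hcard : Nat.card {w : Fin L → Bool // good w} =
          (Finset.univ.filter fun w : Fin L → Bool => good w).card := by
        rw [Nat.card_eq_fintype_card, Fintype.card_subtype]
      change (1 : ℝ) / 2 ≤ (Nat.card {w : Fin L → Bool // good w} : ℝ) / 2 ^ L
      rw [hcard, div_le_div_iff₀ (by norm_num) (by positivity), one_mul]
      have : 2 ^ L ≤ (Finset.univ.filter fun w : Fin L → Bool => good w).card * 2 := by omega
      exact_mod_cast this

end Pool.Agent.W2helper58.GA
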