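import Mathlib

/-!
# Hashing independent blocks with the same hash function
-/

namespace Pool.Agent.W2helper58.GA

open Finset

/-- The distance of product measures. -/
theorem l1_prod {W : Type*} [Fintype W] [DecidableEq W] (f g : W → ℝ) (hf : ∀ w, 0 ≤ f w)
    (hg : ∀ w, 0 ≤ g w) (hf1 : ∑ w, f w ≤ 1) (hg1 : ∑ w, g w ≤ 1) (T : ℕ) :
    ∑ v : Fin T → W, |∏ t, f (v t) - ∏ t, g (v t)| ≤ T * ∑ w, |f w - g w| := by
  have hprod : ∀ (T : ℕ), ∑ v : Fin T → W, ∏ t, f (v t) ≤ 1 := by
    intro T
    rw [← Fintype.piFinset_univ, ← Finset.prod_univ_sum (fun _ : Fin T => (univ : Finset W))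
      (fun _ w => f w)]
    exact Finset.prod_le_one (fun _ _ => Finset.sum_nonneg fun w _ => hf w) fun _ _ => hf1
  induction T with
  | zero => simp
  | succ T ih =>
    have e : ∑ v : Fin (T + 1) → W, |∏ t, f (v t) - ∏ t, g (v t)| =
        ∑ w : W, ∑ v : Fin T → W, |f w * ∏ t, f (v t) - g w * ∏ t, g (v t)| := by
      rw [← (Fin.consEquiv fun _ : Fin (T + 1) => W).sum_comp, Fintype.sum_prod_type]
      simp [Fin.prod_univ_succ, Fin.consEquiv]
    rw [e]
    calc ∑ w : W, ∑ v : Fin T → W, |f w * ∏ t, f (v t) - g w * ∏ t, g (v t)|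
        ≤ ∑ w : W, ∑ v : Fin T → W, (|f w - g w| * ∏ t, f (v t) +
            g w * |∏ t, f (v t) - ∏ t, g (v t)|) := by
          refine Finset.sum_le_sum fun w _ => Finset.sum_le_sum fun v _ => ?_
          have : f w * ∏ t, f (v t) - g w * ∏ t, g (v t) =
              (f w - g w) * ∏ t, f (v t) + g w * (∏ t, f (v t) - ∏ t, g (v t)) := by ring
          rw [this]
          refine (abs_add_le _ _).trans ?_
          rw [abs_mul, abs_mul, abs_of_nonneg (hg w),
            abs_of_nonneg (Finset.prod_nonneg fun t _ => hf (v t))]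
      _ = (∑ w, |f w - g w|) * (∑ v : Fin T → W, ∏ t, f (v t)) +
            (∑ w, g w) * ∑ v : Fin T → W, |∏ t, f (v t) - ∏ t, g (v t)| := by
          simp only [Finset.sum_add_distrib, Finset.sum_mul_sum]
      _ ≤ (∑ w, |f w - g w|) * 1 + 1 * (T * ∑ w, |f w - g w|) := by
          refine add_le_add (mul_le_mul_of_nonneg_left (hprod T)
            (Finset.sum_nonneg fun _ _ => abs_nonneg _)) ?_
          exact mul_le_mul hg1 ih (Finset.sum_nonneg fun _ _ => abs_nonneg _) zero_le_one
      _ = ((T + 1 : ℕ) : ℝ) * ∑ w, |f w - g w| := by push_cast; ring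

set_option linter.unusedSectionVars false

section

variable {Ω H W : Type} [Fintype Ω] [Fintype H] [Fintype W] [DecidableEq Ω] [DecidableEq H]
  [DecidableEq W]

/-- The number of good `ω` with hash value `w`. -/
def nF (h : H → Ω → W) (ok : Ω → Bool) (s : H) (w : W) : ℕ :=
  ((univ.filter fun ω => ok ω = true).filter fun ω => h s ω = w).card

theorem sum_nF (h : H → Ω → W) (ok : Ω → Bool) (s : H) :
    ∑ w, nF h ok s w = (univ.filter fun ω => ok ω = true).card :=
  (Finset.card_eq_sum_card_fiberwise (fun _ _ => by simp)).symm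

theorem nF_eq (h : H → Ω → W) (ok : Ω → Bool) (s : H) (w : W) :
    (nF h ok s w : ℝ) = ∑ ω ∈ univ.filter (fun ω => ok ω = true), if h s ω = w then (1 : ℝ) else 0 := by
  unfold nF
  rw [Finset.sum_boole]

theorem sum_sq (h : H → Ω → W) (ok : Ω → Bool)
    (hcol : ∀ ω ω', ok ω = true → ok ω' = true → ω ≠ ω' →
      Fintype.card W * (univ.filter fun s => h s ω = h s ω').card ≤ Fintype.card H)
    (hW : 0 < Fintype.card W) :
    ∑ s, ∑ w, (nF h ok s w : ℝ) ^ 2 ≤ Fintype.card Ω * Fintype.card H +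
      (Fintype.card Ω : ℝ) ^ 2 * Fintype.card H / Fintype.card W := by
  have h1 : ∀ s, ∑ w, (nF h ok s w : ℝ) ^ 2 =
      ∑ ω ∈ univ.filter (fun ω => ok ω = true), ∑ ω' ∈ univ.filter (fun ω => ok ω = true),
        if h s ω = h s ω' then (1 : ℝ) else 0 := by
    intro s
    have : ∀ w, (nF h ok s w : ℝ) ^ 2 = ∑ ω ∈ univ.filter (fun ω => ok ω = true),
        ∑ ω' ∈ univ.filter (fun ω => ok ω = true),
          (if h s ω = w then (1 : ℝ) else 0) * (if h s ω' = w then (1 : ℝ) else 0) := by
      intro w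
      rw [sq, nF_eq, Finset.sum_mul_sum]
    simp only [this]
    rw [Finset.sum_comm]
    refine Finset.sum_congr rfl fun ω _ => ?_
    rw [Finset.sum_comm]
    refine Finset.sum_congr rfl fun ω' _ => ?_
    by_cases hh : h s ω = h s ω'
    · rw [if_pos hh, Finset.sum_eq_single (h s ω)]
      · simp [hh]
      · intro w _ hw
        rw [if_neg (Ne.symm hw), zero_mul]
      · simp
    · rw [if_neg hh]
      refine Finset.sum_eq_zero fun w _ => ?_
      by_cases hw : h s ω = w
      · have hw' : ¬ h s ω' = w := fun h' => hh (hw.trans h'.symm)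
        rw [if_neg hw', mul_zero]
      · rw [if_neg hw, zero_mul]
  simp only [h1]
  rw [Finset.sum_comm]
  have h2 : ∀ ω ∈ univ.filter (fun ω => ok ω = true),
      ∑ s : H, ∑ ω' ∈ univ.filter (fun ω => ok ω = true), (if h s ω = h s ω' then (1 : ℝ) else 0) ≤
      Fintype.card H + Fintype.card Ω * (Fintype.card H / Fintype.card W : ℝ) := by
    intro ω hω
    rw [Finset.sum_comm]
    have h3 : ∀ ω' ∈ univ.filter (fun ω => ok ω = true),
        ∑ s : H, (if h s ω = h s ω' then (1 : ℝ) else 0) ≤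
        (if ω' = ω then (Fintype.card H : ℝ) else 0) + Fintype.card H / Fintype.card W := by
      intro ω' hω'
      have hpos : (0 : ℝ) < Fintype.card W := by exact_mod_cast hW
      by_cases hh : ω' = ω
      · subst hh
        simp only [if_true, Finset.sum_const, Finset.card_univ, nsmul_eq_mul, mul_one]
        have : (0 : ℝ) ≤ Fintype.card H / Fintype.card W := by positivity
        linarith
      · rw [if_neg hh, zero_add, Finset.sum_boole, le_div_iff₀ hpos]
        have := hcol ω ω' (by simpa using hω) (by simpa using hω') (Ne.symm hh)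
        rw [mul_comm]
        exact_mod_cast this
    refine (Finset.sum_le_sum h3).trans ?_
    rw [Finset.sum_add_distrib]
    refine add_le_add ?_ ?_
    · rw [Finset.sum_ite_eq' (univ.filter fun ω => ok ω = true) ω fun _ => (Fintype.card H : ℝ)]
      split_ifs <;> simp
    · rw [Finset.sum_const, nsmul_eq_mul]
      refine mul_le_mul_of_nonneg_right ?_ (by positivity)
      exact_mod_cast (Finset.card_le_univ _)
  refine (Finset.sum_le_sum h2).trans ?_
  rw [Finset.sum_const, nsmul_eq_mul]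
  have h4 : ((univ.filter fun ω => ok ω = true).card : ℝ) ≤ Fintype.card Ω := by
    exact_mod_cast (Finset.card_le_univ _)
  have h5 : (0 : ℝ) ≤ Fintype.card H + Fintype.card Ω * (Fintype.card H / Fintype.card W : ℝ) := by
    positivity
  refine (mul_le_mul_of_nonneg_right h4 h5).trans (le_of_eq ?_)
  ring

/-- The number of block sequences whose hash values are in `S`. -/
theorem card_seq (h : H → Ω → W) (ok : Ω → Bool) (T : ℕ) (S : Finset (Fin T → W)) (s : H) :
    (univ.filter fun ω : Fin T → Ω => (∀ t, ok (ω t) = true) ∧ (fun t => h s (ω t)) ∈ S).card =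
      ∑ v ∈ S, ∏ t, nF h ok s (v t) := by
  rw [Finset.card_eq_sum_card_fiberwise (f := fun ω : Fin T → Ω => fun t => h s (ω t)) (t := S)]
  · refine Finset.sum_congr rfl fun v hv => ?_
    have : (univ.filter fun ω : Fin T → Ω => (∀ t, ok (ω t) = true) ∧
        (fun t => h s (ω t)) ∈ S).filter (fun ω => (fun t => h s (ω t)) = v) =
        Fintype.piFinset fun t => (univ.filter fun ω => ok ω = true).filter
          fun ω => h s ω = v t := by
      ext ω
      simp only [Finset.mem_filter, Finset.mem_univ, true_and, Fintype.mem_piFinset]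
      constructor
      · rintro ⟨⟨h1, _⟩, h2⟩ t
        exact ⟨h1 t, congrFun h2 t⟩
      · intro h1
        have h2 : (fun t => h s (ω t)) = v := funext fun t => (h1 t).2
        exact ⟨⟨fun t => (h1 t).1, h2 ▸ hv⟩, h2⟩
    rw [this, Fintype.card_piFinset]
    rfl
  · intro ω hω
    simp only [Finset.coe_filter, Finset.mem_univ, true_and, Set.mem_ofPred_eq] at hω
    exact hω.2

/-- Hashing `T` independent blocks with the same random hash function gives almost uniform
strings. -/
theorem hash_prob (h : H → Ω → W) (ok : Ω → Bool)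
    (hcol : ∀ ω ω', ok ω = true → ok ω' = true → ω ≠ ω' →
      Fintype.card W * (univ.filter fun s => h s ω = h s ω').card ≤ Fintype.card H)
    [Nonempty Ω] [Nonempty H] [Nonempty W] (T : ℕ) (S : Finset (Fin T → W)) (η ε : ℝ)
    (hη : ((univ.filter fun ω => ok ω = false).card : ℝ) ≤ η * Fintype.card Ω)
    (hε : 0 ≤ ε) (hε2 : (T : ℝ) ^ 2 * (Fintype.card W / Fintype.card Ω + 2 * η) ≤ ε ^ 2) :
    ((S.card : ℝ) / Fintype.card W ^ T - ε) * (Fintype.card H * Fintype.card Ω ^ T) ≤
      (univ.filter fun p : H × (Fin T → Ω) => (∀ t, ok (p.2 t) = true) ∧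
        (fun t => h p.1 (p.2 t)) ∈ S).card := by
  have hΩ : (0 : ℝ) < Fintype.card Ω := by exact_mod_cast Fintype.card_pos
  have hH : (0 : ℝ) < Fintype.card H := by exact_mod_cast Fintype.card_pos
  have hW : (0 : ℝ) < Fintype.card W := by exact_mod_cast Fintype.card_pos
  set nΩ : ℝ := (Fintype.card Ω : ℝ) with hnΩ
  set nH : ℝ := (Fintype.card H : ℝ) with hnH
  set nW : ℝ := (Fintype.card W : ℝ) with hnW
  let f : H → W → ℝ := fun s w => nF h ok s w / nΩ
  let g : W → ℝ := fun _ => 1 / nW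
  -- the number of good blocks
  have hgood : ((univ.filter fun ω => ok ω = true).card : ℝ) +
      (univ.filter fun ω => ok ω = false).card = nΩ := by
    have : (univ.filter fun ω => ok ω = false) = univ.filter fun ω => ¬ ok ω = true := by
      ext ω; simp
    rw [this, hnΩ]
    exact_mod_cast Finset.card_filter_add_card_filter_not (s := (univ : Finset Ω))
      (fun ω => ok ω = true)
  have hfs : ∀ s, ∑ w, f s w = ((univ.filter fun ω => ok ω = true).card : ℝ) / nΩ := by
    intro s
    simp only [f]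
    rw [← Finset.sum_div, ← sum_nF h ok s]
    push_cast
    rfl
  have hfs1 : ∀ s, ∑ w, f s w ≤ 1 := by
    intro s
    rw [hfs, div_le_one hΩ, hnΩ]
    exact_mod_cast (Finset.card_le_univ _)
  have hfs2 : ∀ s, 1 - η ≤ ∑ w, f s w := by
    intro s
    rw [hfs, le_div_iff₀ hΩ]
    linarith
  have hgs : ∑ w, g w = 1 := by
    simp only [g, Finset.sum_const, Finset.card_univ, nsmul_eq_mul]
    exact mul_one_div_cancel hW.ne'
  let Δ : H → ℝ := fun s => ∑ w, |f s w - g w|
  have hΔ0 : ∀ s, 0 ≤ Δ s := fun s => Finset.sum_nonneg fun _ _ => abs_nonneg _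
  -- second moments
  have hΔ2 : ∀ s, Δ s ^ 2 ≤ nW * ∑ w, f s w ^ 2 - 1 + 2 * η := by
    intro s
    have h1 : Δ s ^ 2 ≤ nW * ∑ w, (f s w - g w) ^ 2 := by
      have := sq_sum_le_card_mul_sum_sq (s := (univ : Finset W)) (f := fun w => |f s w - g w|)
      simpa [Finset.card_univ, sq_abs] using this
    have h2 : ∑ w, (f s w - g w) ^ 2 = ∑ w, f s w ^ 2 - 2 / nW * ∑ w, f s w + 1 / nW := by
      have : ∀ w, (f s w - g w) ^ 2 = f s w ^ 2 - 2 / nW * f s w + (1 / nW) * (1 / nW) := by
        intro w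
        simp only [g]
        ring
      simp only [this]
      rw [Finset.sum_add_distrib, Finset.sum_sub_distrib, ← Finset.mul_sum, Finset.sum_const,
        Finset.card_univ, nsmul_eq_mul, ← hnW]
      field_simp
    rw [h2] at h1
    refine h1.trans ?_
    have h3 := hfs2 s
    have h4 : nW * (∑ w, f s w ^ 2 - 2 / nW * ∑ w, f s w + 1 / nW) =
        nW * ∑ w, f s w ^ 2 - 2 * ∑ w, f s w + 1 := by
      field_simp
    rw [h4]
    linarith
  have hsum2 : ∑ s, Δ s ^ 2 ≤ nH * (nW / nΩ + 2 * η) := by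
    refine (Finset.sum_le_sum fun s _ => hΔ2 s).trans ?_
    have h1 := sum_sq h ok hcol Fintype.card_pos
    have h2 : ∑ s, ∑ w, f s w ^ 2 = (∑ s, ∑ w, (nF h ok s w : ℝ) ^ 2) / nΩ ^ 2 := by
      simp only [f, div_pow]
      rw [Finset.sum_div]
      refine Finset.sum_congr rfl fun s _ => ?_
      rw [Finset.sum_div]
    have h3 : ∑ s : H, (nW * ∑ w, f s w ^ 2 - 1 + 2 * η) =
        nW * ∑ s, ∑ w, f s w ^ 2 - nH + 2 * η * nH := by
      rw [Finset.sum_add_distrib, Finset.sum_sub_distrib, ← Finset.mul_sum]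
      simp only [Finset.sum_const, Finset.card_univ, nsmul_eq_mul]
      rw [← hnH]
      ring
    rw [h3, h2]
    have h4 : nW * ((∑ s, ∑ w, (nF h ok s w : ℝ) ^ 2) / nΩ ^ 2) ≤
        nW * ((nΩ * nH + nΩ ^ 2 * nH / nW) / nΩ ^ 2) := by
      refine mul_le_mul_of_nonneg_left ?_ hW.le
      exact div_le_div_of_nonneg_right h1 (by positivity)
    have h5 : nW * ((nΩ * nH + nΩ ^ 2 * nH / nW) / nΩ ^ 2) = nH * (nW / nΩ) + nH := by
      field_simp
    rw [h5] at h4
    linarith
  have hsum : T * ∑ s, Δ s ≤ ε * nH := by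
    have h1 : (∑ s, Δ s) ^ 2 ≤ nH * ∑ s, Δ s ^ 2 := by
      have := sq_sum_le_card_mul_sum_sq (s := (univ : Finset H)) (f := Δ)
      simpa [Finset.card_univ] using this
    have h2 : (T * ∑ s, Δ s) ^ 2 ≤ (ε * nH) ^ 2 := by
      rw [mul_pow, mul_pow]
      calc (T : ℝ) ^ 2 * (∑ s, Δ s) ^ 2 ≤ (T : ℝ) ^ 2 * (nH * (nH * (nW / nΩ + 2 * η))) := by
            refine mul_le_mul_of_nonneg_left (h1.trans ?_) (by positivity)
            exact mul_le_mul_of_nonneg_left hsum2 hH.le
        _ = ((T : ℝ) ^ 2 * (nW / nΩ + 2 * η)) * nH ^ 2 := by ring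
        _ ≤ ε ^ 2 * nH ^ 2 := mul_le_mul_of_nonneg_right hε2 (by positivity)
    have h3 : 0 ≤ T * ∑ s, Δ s :=
      mul_nonneg (by positivity) (Finset.sum_nonneg fun s _ => hΔ0 s)
    have h4 : 0 ≤ ε * nH := mul_nonneg hε hH.le
    exact (sq_le_sq₀ h3 h4).1 h2
  -- the count
  have hcount : ((univ.filter fun p : H × (Fin T → Ω) => (∀ t, ok (p.2 t) = true) ∧
        (fun t => h p.1 (p.2 t)) ∈ S).card : ℝ) = ∑ s, ∑ v ∈ S, ∏ t, (nF h ok s (v t) : ℝ) := by
    have h1 : (univ.filter fun p : H × (Fin T → Ω) => (∀ t, ok (p.2 t) = true) ∧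
        (fun t => h p.1 (p.2 t)) ∈ S).card = ∑ s, (univ.filter fun ω : Fin T → Ω =>
          (∀ t, ok (ω t) = true) ∧ (fun t => h s (ω t)) ∈ S).card := by
      simp only [Finset.card_filter]
      rw [Fintype.sum_prod_type]
    rw [h1]
    push_cast
    refine Finset.sum_congr rfl fun s _ => ?_
    rw [card_seq]
    push_cast
    rfl
  rw [hcount]
  have hs : ∀ s, ((S.card : ℝ) / nW ^ T - T * Δ s) * nΩ ^ T ≤
      ∑ v ∈ S, ∏ t, (nF h ok s (v t) : ℝ) := by
    intro s
    have h1 : ∑ v ∈ S, ∏ t, (nF h ok s (v t) : ℝ) = (∑ v ∈ S, ∏ t, f s (v t)) * nΩ ^ T := by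
      rw [Finset.sum_mul]
      refine Finset.sum_congr rfl fun v _ => ?_
      simp only [f]
      rw [Finset.prod_div_distrib]
      simp only [Finset.prod_const, Finset.card_univ, Fintype.card_fin]
      field_simp
    rw [h1]
    refine mul_le_mul_of_nonneg_right ?_ (by positivity)
    have h2 := l1_prod (f s) g (fun w => by simp only [f]; positivity)
      (fun w => by simp only [g]; positivity) (hfs1 s) hgs.le T
    have h3 : ∑ v ∈ S, |∏ t, f s (v t) - ∏ t, g (v t)| ≤
        ∑ v : Fin T → W, |∏ t, f s (v t) - ∏ t, g (v t)| :=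
      Finset.sum_le_univ_sum_of_nonneg fun _ => abs_nonneg _
    have h4 : (S.card : ℝ) / nW ^ T - ∑ v ∈ S, ∏ t, f s (v t) ≤
        ∑ v ∈ S, |∏ t, f s (v t) - ∏ t, g (v t)| := by
      have : (S.card : ℝ) / nW ^ T = ∑ v ∈ S, ∏ t, g (v t) := by
        simp only [g, Finset.prod_const, Finset.card_univ, Fintype.card_fin, Finset.sum_const,
          nsmul_eq_mul]
        rw [one_div, inv_pow]
        rfl
      rw [this, ← Finset.sum_sub_distrib]
      refine Finset.sum_le_sum fun v _ => ?_
      rw [← abs_neg]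
      refine le_trans (le_of_eq ?_) (le_abs_self _)
      ring
    linarith
  calc ((S.card : ℝ) / nW ^ T - ε) * (nH * nΩ ^ T)
      ≤ ∑ s, ((S.card : ℝ) / nW ^ T - T * Δ s) * nΩ ^ T := by
        rw [← Finset.sum_mul, Finset.sum_sub_distrib, ← Finset.mul_sum]
        simp only [Finset.sum_const, Finset.card_univ, nsmul_eq_mul]
        rw [← hnH, ← mul_assoc]
        refine mul_le_mul_of_nonneg_right ?_ (by positivity)
        linarith
    _ ≤ _ := Finset.sum_le_sum fun s _ => hs s

end

end Pool.Agent.W2helper58.GA
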