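import Pool.Agent.W2helper58.GA.Loop
import Pool.Agent.H801.Fvs.Raw

/-!
# Upper bounds for the KT complexity of strings made of compressible blocks
-/

namespace Pool.Agent.W2helper58.GA

open Turing Pool.Agent.NPC
open Function (update)

/-- What is needed of the universal machine. -/
structure Machine.Good (U : Machine) : Prop where
  /-- acceptance within `t` steps is monotone in `t` -/
  mono : ∀ d i b t t', t ≤ t' → U d i b t → U d i b t'
  /-- nothing is accepted within `0` steps -/
  pos : ∀ d i b, ¬ U d i b 0
  /-- `U` simulates every machine -/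
  sim : ∀ M : RTM, Simulates U M

theorem RTM.Universal.good {U : RTM} (h : U.Universal) : Machine.Good U.Accepts where
  mono := by
    rintro d i b t t' htt ⟨s, hs, h⟩
    exact ⟨s, hs.trans htt, h⟩
  pos := by
    rintro d i b ⟨s, hs, c, hc, hc', -⟩
    obtain rfl : s = 0 := by omega
    simp only [Function.iterate_zero, id_eq, Option.some.injEq] at hc
    rw [← hc] at hc'
    exact absurd hc' (by simp [RTM.start])
  sim := h

/-! ### Parsing the input and the header -/

/-- the position, counted from `0` -/
def inI (x : List Bool) : ℕ :=
  (if x.head? = some true then valB x.tail.tail else valB x.tail) - 1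

/-- the symbol -/
def inB (x : List Bool) : Option Bool :=
  if x.head? = some true then some (x.tail.head?.getD false) else none

theorem inI_input (i : ℕ) (b : Option Bool) : inI (RTM.input (i + 1) b) = i := by
  cases b <;> simp [inI, RTM.input, valB_bits]

theorem inB_input (i : ℕ) (b : Option Bool) : inB (RTM.input i b) = b := by
  cases b <;> simp [inB, RTM.input]

theorem poly_inI : Poly inI :=
  Poly.sub (Poly.ite (Poly.decide_eq (Poly.head? Poly.id) (NPC.Poly.const _))
    (Poly.valBits (Poly.tail (Poly.tail Poly.id))) (Poly.valBits (Poly.tail Poly.id)))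
    (NPC.Poly.const 1)

theorem poly_inB : Poly inB :=
  Poly.ite (Poly.decide_eq (Poly.head? Poly.id) (NPC.Poly.const _))
    (Poly.some (Poly.head?_getD (Poly.tail Poly.id) false)) (NPC.Poly.const _)

theorem poly_pairBits : Poly (fun p : List Bool × List Bool => pairBits p.1 p.2) :=
  Poly.append (Poly.flatMap (F := fun _ b => [true, b]) (Poly.fst Poly.id)
    (Poly.cons (NPC.Poly.const _) (Poly.cons (Poly.snd Poly.id) (NPC.Poly.const _))))
    (Poly.cons (NPC.Poly.const _) (Poly.snd Poly.id))

theorem pairBits_length (x w : List Bool) : (pairBits x w).length = 2 * x.length + 1 + w.length := by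
  simp [pairBits]; omega

theorem pairBits_append (x w u : List Bool) : pairBits x w ++ u = pairBits x (w ++ u) := by
  simp [pairBits]

theorem pairBits_inj {x w x' w' : List Bool} (h : pairBits x w = pairBits x' w') :
    x = x' ∧ w = w' := by
  have := congrArg unpair h
  rw [unpair_pairBits, unpair_pairBits] at this
  exact Prod.mk.inj this

section Block

variable (F : List Bool → List Bool → ℕ → Bool) (T l c : List Bool → ℕ)

/-- What the block machine does next, on input `x` after reading the bits `a`. -/
def bact (s : List Bool × List Bool) : List Bool :=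
  if pairBits (unpair s.2).1 (unpair s.2).2 = s.2 then
    if T (unpair s.2).1 * l (unpair s.2).1 ≤ inI s.1 then
      [true, decide (inB s.1 = none)]
    else if (unpair s.2).2.length < c (unpair s.2).1 then
      false :: (2 * (unpair s.2).1.length + 1 + (inI s.1 / l (unpair s.2).1) * c (unpair s.2).1 +
        (unpair s.2).2.length).bits
    else [true, decide (inB s.1 = some (F (unpair s.2).1 (unpair s.2).2
      (inI s.1 % l (unpair s.2).1)))]
  else false :: s.2.length.bits

theorem poly_bact (hF : Poly (fun p : List Bool × List Bool × ℕ => F p.1 p.2.1 p.2.2))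
    (hT : Poly T) (hl : Poly l) (hc : Poly c) : Poly (bact F T l c) := by
  have hu : Poly (fun s : List Bool × List Bool => unpair s.2) :=
    poly_unpair.comp (Poly.snd Poly.id)
  have hh := Poly.fst hu
  have hg := Poly.snd hu
  have hI : Poly (fun s : List Bool × List Bool => inI s.1) := poly_inI.comp (Poly.fst Poly.id)
  have hB : Poly (fun s : List Bool × List Bool => inB s.1) := poly_inB.comp (Poly.fst Poly.id)
  have hT' := hT.comp hh
  have hl' := hl.comp hh
  have hc' := hc.comp hh
  refine Poly.ite (Poly.decide_eq (poly_pairBits.comp (Poly.pair hh hg)) (Poly.snd Poly.id))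
    (Poly.ite (Poly.decide_le (Poly.mul hT' hl') hI) ?_ (Poly.ite (Poly.decide_lt
      (Poly.length hg) hc') ?_ ?_)) ?_
  · exact Poly.cons (NPC.Poly.const _) (Poly.cons (Poly.decide_eq hB (NPC.Poly.const _)) (NPC.Poly.const _))
  · exact Poly.cons (NPC.Poly.const _) (Poly.natBits (Poly.add (Poly.add (Poly.succ
      (Poly.mul (NPC.Poly.const 2) (Poly.length hh))) (Poly.mul (Poly.div hI hl') hc'))
      (Poly.length hg)))
  · exact Poly.cons (NPC.Poly.const _) (Poly.cons (Poly.decide_eq hB (Poly.some
      (hF.comp (Poly.pair hh (Poly.pair hg (Poly.mod hI hl')))))) (NPC.Poly.const _))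
  · exact Poly.cons (NPC.Poly.const _) (Poly.natBits (Poly.length (Poly.snd Poly.id)))

theorem bact_header {x hdr w : List Bool} {k : ℕ} (hk : k < 2 * hdr.length + 1) :
    bact F T l c (x, (pairBits hdr w).take k) = false :: k.bits := by
  have hlen : ((pairBits hdr w).take k).length = k := by
    rw [List.length_take, pairBits_length]
    omega
  unfold bact
  rw [if_neg, hlen]
  intro h
  have h1 : pairBits hdr w = (pairBits hdr w).take k ++ (pairBits hdr w).drop k :=
    (List.take_append_drop _ _).symm
  simp only at h
  rw [← h, pairBits_append] at h1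
  have h2 := (pairBits_inj h1).1
  have h3 := congrArg List.length h
  rw [pairBits_length, ← h2, hlen] at h3
  omega

theorem bact_end {x hdr : List Bool} (h : T hdr * l hdr ≤ inI x) (g : List Bool) :
    bact F T l c (x, pairBits hdr g) = [true, decide (inB x = none)] := by
  unfold bact
  simp only [unpair_pairBits, if_true]
  rw [if_pos h]

theorem bact_read {x hdr : List Bool} (h : inI x < T hdr * l hdr) (g : List Bool)
    (hg : g.length < c hdr) :
    bact F T l c (x, pairBits hdr g) =
      false :: (2 * hdr.length + 1 + (inI x / l hdr) * c hdr + g.length).bits := by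
  unfold bact
  simp only [unpair_pairBits, if_true]
  rw [if_neg (by omega), if_pos hg]

theorem bact_final {x hdr : List Bool} (h : inI x < T hdr * l hdr) (g : List Bool)
    (hg : ¬ g.length < c hdr) :
    bact F T l c (x, pairBits hdr g) =
      [true, decide (inB x = some (F hdr g (inI x % l hdr)))] := by
  unfold bact
  simp only [unpair_pairBits, if_true]
  rw [if_neg (by omega), if_neg hg]

theorem take_succ_getD (w : List Bool) {k : ℕ} (hk : k < w.length) :
    w.take (k + 1) = w.take k ++ [w[k]] := by
  rw [List.take_add_one, List.getElem?_eq_getElem hk]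
  rfl

/-- Strings made of `T` blocks of `l` bits, each of which is computed from the header and from a
code of `c` bits, have KT complexity at most `T c` plus a polynomial. -/
theorem block_describes {U : Machine} (hU : U.Good)
    (hF : Poly (fun p : List Bool × List Bool × ℕ => F p.1 p.2.1 p.2.2))
    (hT : Poly T) (hl : Poly l) (hc : Poly c) :
    ∃ Q : Polynomial ℕ, ∀ (hdr : List Bool) (g : ℕ → List Bool) (z : List Bool) (m : ℕ),
      (∀ t < T hdr, (g t).length = c hdr) → 0 < l hdr → z.length = T hdr * l hdr →
      (∀ t < T hdr, ∀ j < l hdr, z[t * l hdr + j]? = some (F hdr (g t) j)) →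
      hdr.length ≤ m → c hdr ≤ m → (z.length + 1).size ≤ m →
      ∃ d t, Describes U d t z ∧ d.length + t ≤ T hdr * c hdr + Q.eval m := by
  obtain ⟨M, P, hM⟩ := exists_rtm (S := List Bool × List Bool)
    (ini := fun x => (x, [])) (act := bact F T l c) (nx := fun b s => (s.1, s.2 ++ [b]))
    (PC.comp (g := fun x : List Bool => (x, ([] : List Bool)))
      (Poly.pair Poly.id (NPC.Poly.const _)) PC.rawIn)
    (PC.comp (g := fun x : List Bool => x) H801.Fvs.PC.rawOut (poly_bact F T l c hF hT hl hc))
    (fun b => Poly.pair (Poly.fst Poly.id)
      (Poly.append (Poly.snd Poly.id) (NPC.Poly.const [b])))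
  obtain ⟨cc, hcc⟩ := hU.sim M
  let R : Polynomial ℕ := (Polynomial.C 3 * Polynomial.X + Polynomial.C 2) *
    P.comp (Polynomial.C 16 * Polynomial.X + Polynomial.C 16) +
    P.comp (Polynomial.X + Polynomial.C 2)
  have hR : ∀ m, R.eval m = (3 * m + 2) * P.eval (16 * m + 16) + P.eval (m + 2) := by
    intro m; simp [R]
  refine ⟨Polynomial.C 2 * Polynomial.X + Polynomial.C 1 + Polynomial.C cc +
    Polynomial.C cc * (R + Polynomial.X + Polynomial.C 1) ^ cc, ?_⟩
  intro hdr g z m hg hl0 hz hzb h1 h2 h3
  -- the concatenation of the codes
  obtain ⟨w, hw, hwlen⟩ : ∃ w : List Bool, (∀ t < T hdr, ∀ k < c hdr,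
      w[t * c hdr + k]? = (g t)[k]?) ∧ w.length = T hdr * c hdr := by
    have key : ∀ n, n ≤ T hdr → ∃ w : List Bool, (∀ t < n, ∀ k < c hdr,
      w[t * c hdr + k]? = (g t)[k]?) ∧ w.length = n * c hdr := by
      intro n
      induction n with
      | zero => intro _; exact ⟨[], by simp, by simp⟩
      | succ n ih =>
        intro hn
        obtain ⟨w, hw, hwl⟩ := ih (by omega)
        refine ⟨w ++ g n, ?_, by rw [List.length_append, hwl, hg n (by omega)]; ring⟩
        intro t ht k hk
        by_cases htn : t = n
        · subst htn
          rw [List.getElem?_append_right (by omega), hwl]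
          congr 1
          omega
        · rw [List.getElem?_append_left, hw t (by omega) k hk]
          rw [hwl]
          have : (t + 1) * c hdr ≤ n * c hdr := Nat.mul_le_mul_right _ (by omega)
          rw [add_mul, one_mul] at this
          omega
    exact key _ le_rfl
  obtain ⟨d', hd', hsim⟩ := hcc (pairBits hdr w)
  have hfinal : ∀ i ≤ z.length, ∀ b : Option Bool,
      (z[i]? = b → M.Accepts (pairBits hdr w) (i + 1) b (R.eval m)) ∧
      (∀ t, M.Accepts (pairBits hdr w) (i + 1) b t → z[i]? = b) := by
    intro i hi b
    have hx1 := inI_input i b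
    have hx2 := inB_input (i + 1) b
    have hxlen : (RTM.input (i + 1) b).length ≤ m + 2 := by
      have : (i + 1).size ≤ m := (Nat.size_le_size (by omega)).trans h3
      rw [← Nat.size_eq_bits_len] at this
      cases b <;> simp [RTM.input] <;> omega
    set x := RTM.input (i + 1) b with hx
    have hread : ∀ k < 2 * hdr.length + 1, ∃ b', (pairBits hdr w)[k]? = some b' ∧
        (pairBits hdr w).take (k + 1) = (pairBits hdr w).take k ++ [b'] := by
      intro k hk
      have hk' : k < (pairBits hdr w).length := by rw [pairBits_length]; omega
      exact ⟨_, List.getElem?_eq_getElem hk', take_succ_getD _ hk'⟩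
    have htake : (pairBits hdr w).take (2 * hdr.length + 1) = pairBits hdr [] := by
      have : pairBits hdr w = pairBits hdr [] ++ w := by rw [pairBits_append]; simp
      rw [this, List.take_append_of_le_length (by rw [pairBits_length]; simp),
        List.take_of_length_le (by rw [pairBits_length]; simp)]
    have hval : ∀ k : ℕ, valB k.bits = k := valB_bits
    have szb : ∀ a : List Bool, a.length ≤ 3 * m + 1 → sz (x, a) ≤ 16 * m + 16 := by
      intro a ha
      have e1 := sz_listBool_le x
      have e2 := sz_listBool_le a
      simp only [sz_pair]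
      omega
    by_cases hend : i = z.length
    · -- the end marker
      obtain ⟨a1, a2⟩ := hM (pairBits hdr w) (i + 1) b (2 * hdr.length + 1)
        (fun k => (x, (pairBits hdr w).take k)) (fun k => k.bits)
        (fun k => ((pairBits hdr w)[k]?).getD false) [decide (b = none)] (16 * m + 16)
        (by simp [hx]) (by
          intro k hk
          obtain ⟨b', e1, e2⟩ := hread k hk
          refine ⟨bact_header F T l c hk, ?_, ?_⟩
          · rw [hval, e1]; rfl
          · rw [e2, e1]; rfl) (by
          rw [htake, bact_end F T l c (by rw [hx1, hend, hz]), hx2]) (by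
          intro k hk
          exact szb _ (by rw [List.length_take]; omega))
      have hzi : z[i]? = none := by rw [hend]; simp
      rw [hzi]
      refine ⟨fun h => ?_, fun t ht => ?_⟩
      · obtain ⟨s', hs', rest⟩ := a1 (by simp [← h])
        refine ⟨s', hs'.trans ?_, rest⟩
        rw [hR]
        have e1 : P.eval (RTM.input (i + 1) b).length ≤ P.eval (m + 2) := eval_mono P hxlen
        have e2 : (2 * hdr.length + 1 + 1) * P.eval (16 * m + 16) ≤
          (3 * m + 2) * P.eval (16 * m + 16) := Nat.mul_le_mul_right _ (by omega)
        omega
      · have := a2 t ht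
        simpa [eq_comm] using this
    · -- a position inside the string
      have hi' : i < T hdr * l hdr := by omega
      set t := i / l hdr with ht
      set j := i % l hdr with hj
      have htT : t < T hdr := (Nat.div_lt_iff_lt_mul hl0).2 hi'
      have hjl : j < l hdr := Nat.mod_lt _ hl0
      have hij : t * l hdr + j = i := by rw [ht, hj, mul_comm]; exact Nat.div_add_mod i (l hdr)
      have hzi : z[i]? = some (F hdr (g t) j) := by
        have := hzb t htT j hjl
        rwa [hij] at this
      have hgt := hg t htT
      have hblock : ∀ k < c hdr, ∃ b', (pairBits hdr w)[2 * hdr.length + 1 + t * c hdr + k]? =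
          some b' ∧ (g t).take (k + 1) = (g t).take k ++ [b'] := by
        intro k hk
        have hk' : k < (g t).length := by omega
        refine ⟨_, ?_, take_succ_getD _ hk'⟩
        have : pairBits hdr w = pairBits hdr [] ++ w := by rw [pairBits_append]; simp
        rw [this, List.getElem?_append_right (by rw [pairBits_length]; simp; omega),
          pairBits_length]
        have e : 2 * hdr.length + 1 + t * c hdr + k - (2 * hdr.length + 1 + ([] : List Bool).length)
          = t * c hdr + k := by simp; omega
        rw [e, hw t htT k hk, List.getElem?_eq_getElem hk']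
      let S : ℕ → List Bool × List Bool := fun k =>
        if k < 2 * hdr.length + 1 then (x, (pairBits hdr w).take k)
        else (x, pairBits hdr ((g t).take (k - (2 * hdr.length + 1))))
      let q : ℕ → List Bool := fun k =>
        if k < 2 * hdr.length + 1 then k.bits
        else (2 * hdr.length + 1 + t * c hdr + (k - (2 * hdr.length + 1))).bits
      obtain ⟨a1, a2⟩ := hM (pairBits hdr w) (i + 1) b (2 * hdr.length + 1 + c hdr)
        S q (fun k => ((pairBits hdr w)[valB (q k)]?).getD false)
        [decide (b = some (F hdr (g t) j))] (16 * m + 16)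
        (by simp [S, hx]) (by
          intro k hk
          by_cases hk1 : k < 2 * hdr.length + 1
          · obtain ⟨b', e1, e2⟩ := hread k hk1
            simp only [S, q, if_pos hk1, hval]
            refine ⟨bact_header F T l c hk1, ?_, ?_⟩
            · rw [e1]; rfl
            · by_cases hk2 : k + 1 < 2 * hdr.length + 1
              · rw [if_pos hk2, e2, e1]; rfl
              · have hk3 : k + 1 = 2 * hdr.length + 1 := by omega
                rw [if_neg hk2, hk3, Nat.sub_self, List.take_zero, ← htake, ← hk3, e2, e1]; rfl
          · have hk2 : ¬ k + 1 < 2 * hdr.length + 1 := by omega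
            obtain ⟨k', rfl⟩ := Nat.exists_eq_add_of_le (Nat.not_lt.1 hk1)
            obtain ⟨b', e1, e2⟩ := hblock k' (by omega)
            simp only [S, q, if_neg hk1, if_neg hk2, hval]
            have e3 : 2 * hdr.length + 1 + k' - (2 * hdr.length + 1) = k' := by omega
            have e4 : 2 * hdr.length + 1 + k' + 1 - (2 * hdr.length + 1) = k' + 1 := by omega
            have e5 : ((g t).take k').length = k' := by rw [List.length_take]; omega
            rw [e3, e4]
            refine ⟨?_, ?_, ?_⟩
            · rw [bact_read F T l c (by rw [hx1]; exact hi') _ (by rw [e5]; omega), hx1, e5]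
            · rw [e1]; rfl
            · rw [e2, e1, pairBits_append]; rfl) (by
          have e3 : 2 * hdr.length + 1 + c hdr - (2 * hdr.length + 1) = c hdr := by omega
          simp only [S, if_neg (by omega : ¬ 2 * hdr.length + 1 + c hdr < 2 * hdr.length + 1)]
          rw [e3, List.take_of_length_le (by omega),
            bact_final F T l c (by rw [hx1]; exact hi') _ (by omega), hx1, hx2]) (by
          intro k hk
          by_cases hk1 : k < 2 * hdr.length + 1
          · simp only [S, if_pos hk1]
            exact szb _ (by rw [List.length_take]; omega)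
          · simp only [S, if_neg hk1]
            exact szb _ (by rw [pairBits_length, List.length_take]; omega))
      rw [hzi]
      refine ⟨fun h => ?_, fun t' ht' => ?_⟩
      · obtain ⟨s', hs', rest⟩ := a1 (by simp [← h])
        refine ⟨s', hs'.trans ?_, rest⟩
        rw [hR]
        have e1 : P.eval (RTM.input (i + 1) b).length ≤ P.eval (m + 2) := eval_mono P hxlen
        have e2 : (2 * hdr.length + 1 + c hdr + 1) * P.eval (16 * m + 16) ≤
          (3 * m + 2) * P.eval (16 * m + 16) := Nat.mul_le_mul_right _ (by omega)
        omega
      · have := a2 t' ht'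
        simp only [List.cons.injEq, decide_eq_true_eq, and_true] at this
        exact this.symm
  refine ⟨d', cc * (R.eval m + m + 1) ^ cc, ?_, ?_⟩
  · intro i hi b
    obtain ⟨f1, f2⟩ := hfinal i hi b
    obtain ⟨g1, g2⟩ := hsim (i + 1) b
    constructor
    · intro h
      obtain ⟨t', ht'⟩ := g2 _ h
      exact f2 t' ht'
    · intro h
      have := g1 _ (f1 h)
      refine hU.mono _ _ _ _ _ ?_ this
      have : (i + 1).size ≤ m := (Nat.size_le_size (by omega)).trans h3
      exact Nat.mul_le_mul_left _ (Nat.pow_le_pow_left (by omega) _)
  · have e1 := pairBits_length hdr w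
    simp only [Polynomial.eval_add, Polynomial.eval_mul, Polynomial.eval_C, Polynomial.eval_X,
      Polynomial.eval_pow]
    omega

end Block

end Pool.Agent.W2helper58.GA
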