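import Pool.Agent.W2helper58.GA.OCmd

/-!
# Machines that alternate between polynomial-time computation and reading
-/

namespace Pool.Agent.W2helper58.GA

open Turing Pool.Agent.NPC
open Function (update)

theorem lift_run {K : Type} [DecidableEq K] {a r : K} {d : List Bool} {c : Cmd K}
    {s s' : K → List Bool} {t : ℕ} (h : Run c s s' t) : ORun a r d (OCmd.lift c) s s' t := by
  induction h with
  | skip s => exact ORun.skip s
  | push s k b => exact ORun.push s k b
  | pop s k => exact ORun.pop s k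
  | seq _ _ ih₁ ih₂ => exact ORun.seq ih₁ ih₂
  | casesNil hk _ ih => exact ORun.casesNil hk ih
  | casesFalse hk _ ih => exact ORun.casesFalse hk ih
  | casesTrue hk _ ih => exact ORun.casesTrue hk ih
  | loopNil hk => exact ORun.loopNil hk
  | loopCons hk _ _ ih₁ ih₂ => exact ORun.loopCons hk ih₁ ih₂

namespace OCmd

/-- Renaming of stacks. -/
def map {K K' : Type} (f : K → K') : OCmd K → OCmd K'
  | skip => skip
  | push k b => push (f k) b
  | pop k => pop (f k)
  | seq c d => seq (c.map f) (d.map f)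
  | cases k c₀ cf ct => cases (f k) (c₀.map f) (cf.map f) (ct.map f)
  | loop k c => loop (f k) (c.map f)
  | ask => ask

/-- A strict bound on the stacks used. -/
def bd : OCmd ℕ → ℕ
  | skip => 0
  | push k _ => k + 1
  | pop k => k + 1
  | seq c d => max c.bd d.bd
  | cases k c₀ cf ct => max (k + 1) (max c₀.bd (max cf.bd ct.bd))
  | loop k c => max (k + 1) c.bd
  | ask => 0

end OCmd

theorem ORun.restrict {a r : ℕ} {d : List Bool} {c : OCmd ℕ} {s s' : ℕ → List Bool} {t : ℕ}
    (h : ORun a r d c s s' t) {n : ℕ} (hn : c.bd ≤ n + 1) (ha : a < n + 1) (hr : r < n + 1) :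
    ORun (Fin.ofNat (n + 1) a) (Fin.ofNat (n + 1) r) d (c.map (Fin.ofNat (n + 1)))
      (fun i : Fin (n + 1) => s i) (fun i => s' i) t := by
  induction h with
  | skip s => exact ORun.skip _
  | push s k b =>
    have hk : k < n + 1 := hn
    have := ORun.push (a := Fin.ofNat (n + 1) a) (r := Fin.ofNat (n + 1) r) (d := d)
      (fun i : Fin (n + 1) => s i) (Fin.ofNat (n + 1) k) b
    rw [update_restrict hk]
    simpa [OCmd.map, Nat.mod_eq_of_lt hk] using this
  | pop s k =>
    have hk : k < n + 1 := hn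
    have := ORun.pop (a := Fin.ofNat (n + 1) a) (r := Fin.ofNat (n + 1) r) (d := d)
      (fun i : Fin (n + 1) => s i) (Fin.ofNat (n + 1) k)
    rw [update_restrict hk]
    simpa [OCmd.map, Nat.mod_eq_of_lt hk] using this
  | seq _ _ ih₁ ih₂ =>
    simp only [OCmd.bd, sup_le_iff] at hn
    exact ORun.seq (ih₁ hn.1) (ih₂ hn.2)
  | @casesNil k c₀ cf ct s s' t hk _ ih =>
    simp only [OCmd.bd, sup_le_iff] at hn
    refine ORun.casesNil ?_ (ih hn.2.1)
    simpa [Nat.mod_eq_of_lt hn.1] using hk
  | @casesFalse k c₀ cf ct s s' t l hk _ ih =>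
    simp only [OCmd.bd, sup_le_iff] at hn
    refine ORun.casesFalse (l := l) ?_ (ih hn.2.2.1)
    simpa [Nat.mod_eq_of_lt hn.1] using hk
  | @casesTrue k c₀ cf ct s s' t l hk _ ih =>
    simp only [OCmd.bd, sup_le_iff] at hn
    refine ORun.casesTrue (l := l) ?_ (ih hn.2.2.2)
    simpa [Nat.mod_eq_of_lt hn.1] using hk
  | @loopNil k c s hk =>
    simp only [OCmd.bd, sup_le_iff] at hn
    refine ORun.loopNil ?_
    simpa [Nat.mod_eq_of_lt hn.1] using hk
  | @loopCons k c s s' s'' t t' hk _ _ ih₁ ih₂ =>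
    have hn' := hn
    simp only [OCmd.bd, sup_le_iff] at hn
    refine ORun.loopCons ?_ (ih₁ hn.2) (ih₂ hn')
    simpa [Nat.mod_eq_of_lt hn.1] using hk
  | ask s =>
    have := ORun.ask (a := Fin.ofNat (n + 1) a) (r := Fin.ofNat (n + 1) r) (d := d)
      (fun i : Fin (n + 1) => s i)
    have e : (fun i : Fin (n + 1) => rd a r d s i) =
        rd (Fin.ofNat (n + 1) a) (Fin.ofNat (n + 1) r) d (fun i : Fin (n + 1) => s i) := by
      unfold rd
      rw [update_restrict hr, update_restrict ha]
      have e2 : update (fun i : Fin (n + 1) => s i) (Fin.ofNat (n + 1) a) []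
          (Fin.ofNat (n + 1) r) = update s a [] r := by
        have := congrFun (update_restrict (n := n) ha s []) (Fin.ofNat (n + 1) r)
        simp only [Fin.val_ofNat, Nat.mod_eq_of_lt hr] at this
        exact this.symm
      rw [e2]
      simp [Nat.mod_eq_of_lt ha]
    rw [e]
    exact this

/-- A run within a time bound. -/
def ORuns (a r : ℕ) (d : List Bool) (c : OCmd ℕ) (s s' : ℕ → List Bool) (n : ℕ) : Prop :=
  ∃ t ≤ n, ORun a r d c s s' t

namespace ORuns

variable {a r : ℕ} {d : List Bool}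

theorem mono {c : OCmd ℕ} {s s' : ℕ → List Bool} {m n : ℕ} (h : ORuns a r d c s s' m)
    (hmn : m ≤ n) : ORuns a r d c s s' n := by
  obtain ⟨t, ht, h⟩ := h
  exact ⟨t, ht.trans hmn, h⟩

theorem conv {c : OCmd ℕ} {s s' s₁ s₁' : ℕ → List Bool} {m n : ℕ} (h : ORuns a r d c s s' m)
    (e₁ : s = s₁) (e₂ : s' = s₁') (hmn : m ≤ n) : ORuns a r d c s₁ s₁' n := by
  subst e₁ e₂
  exact h.mono hmn

theorem lift {c : Cmd ℕ} {s s' : ℕ → List Bool} {n : ℕ} (h : Runs c s s' n) :
    ORuns a r d (OCmd.lift c) s s' n := by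
  obtain ⟨t, ht, h⟩ := h
  exact ⟨t, ht, lift_run h⟩

theorem seq {c e : OCmd ℕ} {s s' s'' : ℕ → List Bool} {m n : ℕ} (h₁ : ORuns a r d c s s' m)
    (h₂ : ORuns a r d e s' s'' n) : ORuns a r d (OCmd.seq c e) s s'' (m + n) := by
  obtain ⟨t₁, ht₁, h₁⟩ := h₁
  obtain ⟨t₂, ht₂, h₂⟩ := h₂
  exact ⟨t₁ + t₂, by omega, ORun.seq h₁ h₂⟩

theorem skip (s : ℕ → List Bool) : ORuns a r d OCmd.skip s s 1 := ⟨1, le_rfl, ORun.skip s⟩

theorem push (s : ℕ → List Bool) (k : ℕ) (b : Bool) :
    ORuns a r d (OCmd.push k b) s (update s k (b :: s k)) 1 := ⟨1, le_rfl, ORun.push s k b⟩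

theorem pop (s : ℕ → List Bool) (k : ℕ) :
    ORuns a r d (OCmd.pop k) s (update s k (s k).tail) 1 := ⟨1, le_rfl, ORun.pop s k⟩

theorem ask (s : ℕ → List Bool) : ORuns a r d OCmd.ask s (rd a r d s) 1 :=
  ⟨1, le_rfl, ORun.ask s⟩

theorem casesFalse {k : ℕ} {c₀ cf ct : OCmd ℕ} {s s' : ℕ → List Bool} {n : ℕ}
    {l : List Bool} (hk : s k = false :: l) (h : ORuns a r d cf s s' n) :
    ORuns a r d (OCmd.cases k c₀ cf ct) s s' (n + 1) := by
  obtain ⟨t, ht, h⟩ := h
  exact ⟨t + 1, by omega, ORun.casesFalse hk h⟩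

theorem casesTrue {k : ℕ} {c₀ cf ct : OCmd ℕ} {s s' : ℕ → List Bool} {n : ℕ}
    {l : List Bool} (hk : s k = true :: l) (h : ORuns a r d ct s s' n) :
    ORuns a r d (OCmd.cases k c₀ cf ct) s s' (n + 1) := by
  obtain ⟨t, ht, h⟩ := h
  exact ⟨t + 1, by omega, ORun.casesTrue hk h⟩

theorem loopNil {k : ℕ} {c : OCmd ℕ} {s : ℕ → List Bool} (hk : s k = []) :
    ORuns a r d (OCmd.loop k c) s s 1 := ⟨1, le_rfl, ORun.loopNil hk⟩

theorem loopCons {k : ℕ} {c : OCmd ℕ} {s s' s'' : ℕ → List Bool} {m n : ℕ} (hk : s k ≠ [])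
    (h₁ : ORuns a r d c s s' m) (h₂ : ORuns a r d (OCmd.loop k c) s' s'' n) :
    ORuns a r d (OCmd.loop k c) s s'' (m + n + 1) := by
  obtain ⟨t₁, ht₁, h₁⟩ := h₁
  obtain ⟨t₂, ht₂, h₂⟩ := h₂
  exact ⟨t₁ + t₂ + 1, by omega, ORun.loopCons hk h₁ h₂⟩

end ORuns

/-- Stacks `0, 1, 2, 5` have the given contents, all others are empty. -/
def st3 (x y z w : List Bool) : ℕ → List Bool := fun i =>
  match i with
  | 0 => x
  | 1 => y
  | 2 => z
  | 5 => w
  | _ => []

@[simp] theorem st3_zero (x y z w) : st3 x y z w 0 = x := rfl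
@[simp] theorem st3_one (x y z w) : st3 x y z w 1 = y := rfl
@[simp] theorem st3_two (x y z w) : st3 x y z w 2 = z := rfl
@[simp] theorem st3_five (x y z w) : st3 x y z w 5 = w := rfl

theorem st3_else (x y z w) {i : ℕ} (h0 : i ≠ 0) (h1 : i ≠ 1) (h2 : i ≠ 2) (h5 : i ≠ 5) :
    st3 x y z w i = [] := by
  unfold st3
  split <;> simp_all

theorem eq_st3 {S : ℕ → List Bool} {x y z w : List Bool} (h0 : S 0 = x) (h1 : S 1 = y)
    (h2 : S 2 = z) (h5 : S 5 = w) (h : ∀ i, i ≠ 0 → i ≠ 1 → i ≠ 2 → i ≠ 5 → S i = []) :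
    S = st3 x y z w := by
  funext i
  by_cases e0 : i = 0
  · subst e0; exact h0
  by_cases e1 : i = 1
  · subst e1; exact h1
  by_cases e2 : i = 2
  · subst e2; exact h2
  by_cases e5 : i = 5
  · subst e5; exact h5
  rw [h i e0 e1 e2 e5, st3_else x y z w e0 e1 e2 e5]

@[simp] theorem update_st3_zero (x y z w v) : update (st3 x y z w) 0 v = st3 v y z w :=
  eq_st3 (by simp) (by simp [Function.update_of_ne]) (by simp [Function.update_of_ne])
    (by simp [Function.update_of_ne]) (fun i h0 h1 h2 h5 => by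
      rw [Function.update_of_ne h0, st3_else x y z w h0 h1 h2 h5])

@[simp] theorem update_st3_one (x y z w v) : update (st3 x y z w) 1 v = st3 x v z w :=
  eq_st3 (by simp [Function.update_of_ne]) (by simp) (by simp [Function.update_of_ne])
    (by simp [Function.update_of_ne]) (fun i h0 h1 h2 h5 => by
      rw [Function.update_of_ne h1, st3_else x y z w h0 h1 h2 h5])

@[simp] theorem update_st3_two (x y z w v) : update (st3 x y z w) 2 v = st3 x y v w :=
  eq_st3 (by simp [Function.update_of_ne]) (by simp [Function.update_of_ne]) (by simp)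
    (by simp [Function.update_of_ne]) (fun i h0 h1 h2 h5 => by
      rw [Function.update_of_ne h2, st3_else x y z w h0 h1 h2 h5])

@[simp] theorem update_st3_five (x y z w v) : update (st3 x y z w) 5 v = st3 x y z v :=
  eq_st3 (by simp [Function.update_of_ne]) (by simp [Function.update_of_ne])
    (by simp [Function.update_of_ne]) (by simp) (fun i h0 h1 h2 h5 => by
      rw [Function.update_of_ne h5, st3_else x y z w h0 h1 h2 h5])

theorem inp_eq_st3 (x : List Bool) : (inp x : ℕ → List Bool) = st3 x [] [] [] :=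
  eq_st3 (by simp [inp]) (by simp [inp]) (by simp [inp]) (by simp [inp])
    (fun i h0 _ _ _ => by simp [inp, h0])

/-- Run a program on the stacks `3 i`. -/
def m0 (c : Cmd ℕ) : Cmd ℕ := c.map (fun i => 3 * i)

/-- Run a program on the stacks `3 i + 1`. -/
def m1 (c : Cmd ℕ) : Cmd ℕ := c.map (fun i => 3 * i + 1)

theorem m0_runs {c : Cmd ℕ} {x y : List Bool} {n : ℕ} (h : Runs c (inp x) (inp y) n)
    (u z w : List Bool) : Runs (m0 c) (st3 x u z w) (st3 y u z w) n := by
  obtain ⟨t, ht, h⟩ := h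
  obtain ⟨S', h1, h2, h3⟩ := h.map (f := fun i => 3 * i) (fun a b h => by simpa using h)
    (st3 x u z w) (by
      funext i
      by_cases hi : i = 0
      · subst hi; simp [inp]
      · rw [st3_else x u z w (by omega) (by omega) (by omega) (by omega)]
        simp [inp, hi])
  refine ⟨t, ht, ?_⟩
  have : S' = st3 y u z w := by
    have hr : ∀ i, i % 3 ≠ 0 → S' i = st3 x u z w i := fun i hi =>
      h3 i (by rintro ⟨j, hj⟩; simp only at hj; omega)
    refine eq_st3 ?_ (hr 1 (by decide)) (hr 2 (by decide)) (hr 5 (by decide)) ?_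
    · have := congrFun h2 0
      simpa [inp] using this
    · intro i h0 h1 h2' h5
      by_cases hi : i % 3 = 0
      · obtain ⟨j, rfl⟩ : ∃ j, i = 3 * j := ⟨i / 3, by omega⟩
        have := congrFun h2 j
        rw [this]
        have hj : j ≠ 0 := by omega
        simp [inp, hj]
      · rw [hr i hi, st3_else x u z w h0 h1 h2' h5]
  rw [← this]
  exact h1

theorem m1_runs {c : Cmd ℕ} {x y : List Bool} {n : ℕ} (h : Runs c (inp x) (inp y) n)
    (u z w : List Bool) : Runs (m1 c) (st3 u x z w) (st3 u y z w) n := by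
  obtain ⟨t, ht, h⟩ := h
  obtain ⟨S', h1, h2, h3⟩ := h.map (f := fun i => 3 * i + 1) (fun a b h => by simpa using h)
    (st3 u x z w) (by
      funext i
      by_cases hi : i = 0
      · subst hi; simp [inp]
      · rw [st3_else u x z w (by omega) (by omega) (by omega) (by omega)]
        simp [inp, hi])
  refine ⟨t, ht, ?_⟩
  have : S' = st3 u y z w := by
    have hr : ∀ i, i % 3 ≠ 1 → S' i = st3 u x z w i := fun i hi =>
      h3 i (by rintro ⟨j, hj⟩; simp only at hj; omega)
    refine eq_st3 (hr 0 (by decide)) ?_ (hr 2 (by decide)) (hr 5 (by decide)) ?_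
    · have := congrFun h2 0
      simpa [inp] using this
    · intro i h0 h1 h2' h5
      by_cases hi : i % 3 = 1
      · obtain ⟨j, rfl⟩ : ∃ j, i = 3 * j + 1 := ⟨i / 3, by omega⟩
        have := congrFun h2 j
        rw [this]
        have hj : j ≠ 0 := by omega
        simp [inp, hj]
      · rw [hr i hi, st3_else u x z w h0 h1 h2' h5]
  rw [← this]
  exact h1

theorem dup3_runs (x z w : List Bool) :
    Runs (Cmd.seq (mv 0 4) (cp 4 0 1)) (st3 x [] z w) (st3 x x z w) (9 * x.length + 2) := by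
  refine ((mv_runs (by decide) x _ _ rfl rfl).seq (cp_runs (by decide) (by decide) (by decide)
    x.reverse _ _ ?_ rfl)).conv rfl ?_ ?_
  · simp [st3_else]
  · symm
    refine (eq_st3 ?_ ?_ ?_ ?_ ?_).symm
    · simp [Function.update_of_ne]
    · simp [Function.update_of_ne]
    · simp [Function.update_of_ne]
    · simp [Function.update_of_ne]
    · intro i h0 h1 h2 h5
      by_cases h4 : i = 4
      · subst h4
        simp [Function.update_of_ne]
      · simp [Function.update_of_ne h1, Function.update_of_ne h0, Function.update_of_ne h4,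
          st3_else _ _ z w h0 h1 h2 h5]
  · simp; omega

/-- The body of the main loop. -/
def body (cA cF cT : Cmd ℕ) : OCmd ℕ :=
  OCmd.seq (OCmd.lift (Cmd.seq (mv 0 4) (cp 4 0 1))) (OCmd.seq (OCmd.lift (m1 cA))
    (OCmd.cases 1 OCmd.skip
      (OCmd.seq (OCmd.pop 1) (OCmd.seq OCmd.ask (OCmd.cases 5 OCmd.skip
        (OCmd.seq (OCmd.pop 5) (OCmd.lift (m0 cF)))
        (OCmd.seq (OCmd.pop 5) (OCmd.lift (m0 cT))))))
      (OCmd.seq (OCmd.pop 1) (OCmd.pop 2))))

theorem body_query {d : List Bool} {cA cF cT : Cmd ℕ} {x q : List Bool} {b : Bool}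
    {y : List Bool} {nA nN : ℕ} (hA : Runs cA (inp x) (inp (false :: q)) nA)
    (hd : d[valB q]? = some b) (hN : Runs (if b then cT else cF) (inp x) (inp y) nN) :
    ORuns 1 5 d (body cA cF cT) (st3 x [] [true] []) (st3 y [] [true] [])
      (9 * x.length + nA + nN + 10) := by
  have h1 := ORuns.lift (a := 1) (r := 5) (d := d) (dup3_runs x [true] [])
  have h2 := ORuns.lift (a := 1) (r := 5) (d := d) (m1_runs hA x [true] [])
  have h3 : ORuns 1 5 d (OCmd.pop 1) (st3 x (false :: q) [true] []) (st3 x q [true] []) 1 :=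
    (ORuns.pop _ 1).conv rfl (by simp) le_rfl
  have h4 : ORuns 1 5 d OCmd.ask (st3 x q [true] []) (st3 x [] [true] [b]) 1 :=
    (ORuns.ask _).conv rfl (by simp [rd, hd]) le_rfl
  have h5 : ORuns 1 5 d (OCmd.pop 5) (st3 x [] [true] [b]) (st3 x [] [true] []) 1 :=
    (ORuns.pop _ 5).conv rfl (by simp) le_rfl
  have h6 : ORuns 1 5 d (OCmd.cases 5 OCmd.skip (OCmd.seq (OCmd.pop 5) (OCmd.lift (m0 cF)))
      (OCmd.seq (OCmd.pop 5) (OCmd.lift (m0 cT)))) (st3 x [] [true] [b])
      (st3 y [] [true] []) (1 + nN + 1) := by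
    cases b
    · exact ORuns.casesFalse (l := []) (by simp)
        (h5.seq (ORuns.lift (m0_runs (by simpa using hN) [] [true] [])))
    · exact ORuns.casesTrue (l := []) (by simp)
        (h5.seq (ORuns.lift (m0_runs (by simpa using hN) [] [true] [])))
  refine (h1.seq (h2.seq (ORuns.casesFalse (l := q) (by simp) (h3.seq (h4.seq h6))))).mono ?_
  omega

theorem body_final {d : List Bool} {cA cF cT : Cmd ℕ} {x q : List Bool}
    {nA : ℕ} (hA : Runs cA (inp x) (inp (true :: q)) nA) :
    ORuns 1 5 d (body cA cF cT) (st3 x [] [true] []) (st3 x q [] [])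
      (9 * x.length + nA + 10) := by
  have h1 := ORuns.lift (a := 1) (r := 5) (d := d) (dup3_runs x [true] [])
  have h2 := ORuns.lift (a := 1) (r := 5) (d := d) (m1_runs hA x [true] [])
  have h3 : ORuns 1 5 d (OCmd.pop 1) (st3 x (true :: q) [true] []) (st3 x q [true] []) 1 :=
    (ORuns.pop _ 1).conv rfl (by simp) le_rfl
  have h4 : ORuns 1 5 d (OCmd.pop 2) (st3 x q [true] []) (st3 x q [] []) 1 :=
    (ORuns.pop _ 2).conv rfl (by simp) le_rfl
  refine (h1.seq (h2.seq (ORuns.casesTrue (l := q) (by simp) (h3.seq h4)))).mono ?_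
  omega

/-- A machine that alternates between polynomial-time computation and reading: `act s` tells what
to do in the memory state `s` (`false :: q`: read the bit with number `q`; `true :: z`: stop with
output `z`), and `nx b s` is the next memory state after reading the bit `b`. -/
theorem exists_rtm {S : Type} [TEnc S] {ini : List Bool → S} {act : S → List Bool}
    {nx : Bool → S → S} (hi : PC (fun x : List Bool => x) bits ini)
    (ha : PC bits (fun x : List Bool => x) act) (hn : ∀ b, PC bits bits (nx b)) :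
    ∃ (M : RTM) (P : Polynomial ℕ), ∀ (d : List Bool) (i : ℕ) (b : Option Bool) (n : ℕ)
      (s : ℕ → S) (q : ℕ → List Bool) (e : ℕ → Bool) (res : List Bool) (B : ℕ),
      s 0 = ini (RTM.input i b) →
      (∀ k < n, act (s k) = false :: q k ∧ d[valB (q k)]? = some (e k) ∧
        s (k + 1) = nx (e k) (s k)) →
      act (s n) = true :: res → (∀ k ≤ n, sz (s k) ≤ B) →
      (res = [true] →
        M.Accepts d i b ((n + 1) * P.eval B + P.eval (RTM.input i b).length)) ∧
      (∀ t, M.Accepts d i b t → res = [true]) := by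
  obtain ⟨cI, pI, hI⟩ := hi
  obtain ⟨cA, pA, hA⟩ := ha
  obtain ⟨cF, pF, hF⟩ := hn false
  obtain ⟨cT, pT, hT⟩ := hn true
  let prog : OCmd ℕ := OCmd.seq (OCmd.lift (m0 cI)) (OCmd.seq (OCmd.push 2 true)
    (OCmd.loop 2 (body cA cF cT)))
  let N : ℕ := prog.bd + 6
  let P : Polynomial ℕ := pI + pA + pF + pT + Polynomial.C 9 * Polynomial.X + Polynomial.C 20
  refine ⟨(prog.map (Fin.ofNat (N + 1))).toRTM 0 (Fin.ofNat (N + 1) 1) (Fin.ofNat (N + 1) 1)
    (Fin.ofNat (N + 1) 5), P, ?_⟩
  intro d i b n s q e res B hs0 hstep hfin hB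
  have hPe : ∀ m, P.eval m = pI.eval m + pA.eval m + pF.eval m + pT.eval m + 9 * m + 20 := by
    intro m; simp [P]
  -- the loop
  have hloop : ∀ j, j ≤ n → ORuns 1 5 d (OCmd.loop 2 (body cA cF cT))
      (st3 (bits (s (n - j))) [] [true] []) (st3 (bits (s n)) res [] [])
      ((j + 1) * P.eval B + 1) := by
    intro j
    induction j with
    | zero =>
      intro _
      have h1 := hA (s n)
      rw [hfin] at h1
      have h2 := body_final (d := d) (cF := cF) (cT := cT) h1
      have hb := hB n le_rfl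
      have e1 : pA.eval (bits (s n)).length ≤ pA.eval B := eval_mono pA hb
      have e2 : (bits (s n)).length ≤ B := hb
      refine (ORuns.loopCons (by simp) h2 (ORuns.loopNil (by simp))).mono ?_
      rw [hPe]
      omega
    | succ j ih =>
      intro hj
      obtain ⟨h1, h2, h3⟩ := hstep (n - (j + 1)) (by omega)
      rw [show n - (j + 1) + 1 = n - j by omega] at h3
      have hA' := hA (s (n - (j + 1)))
      rw [h1] at hA'
      have hb := hB (n - (j + 1)) (by omega)
      have e1 : pA.eval (bits (s (n - (j + 1)))).length ≤ pA.eval B := eval_mono pA hb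
      have e2 : (bits (s (n - (j + 1)))).length ≤ B := hb
      have e3 : pF.eval (bits (s (n - (j + 1)))).length ≤ pF.eval B := eval_mono pF hb
      have e4 : pT.eval (bits (s (n - (j + 1)))).length ≤ pT.eval B := eval_mono pT hb
      have hN : Runs (if e (n - (j + 1)) then cT else cF) (inp (bits (s (n - (j + 1)))))
          (inp (bits (s (n - j)))) (pF.eval B + pT.eval B) := by
        rw [h3]
        cases he : e (n - (j + 1))
        · exact (hF _).mono (by omega)
        · exact (hT _).mono (by omega)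
      have h4 := body_query hA' h2 hN
      refine (ORuns.loopCons (by simp) h4 (ih (by omega))).mono ?_
      have := hPe B
      rw [show (j + 1 + 1) * P.eval B = (j + 1) * P.eval B + P.eval B by ring]
      omega
  have h1 : ORuns 1 5 d (OCmd.lift (m0 cI)) (st3 (RTM.input i b) [] [] [])
      (st3 (bits (s 0)) [] [] []) (pI.eval (RTM.input i b).length) := by
    rw [hs0]
    exact ORuns.lift (m0_runs (hI _) [] [] [])
  have h2 : ORuns 1 5 d (OCmd.push 2 true) (st3 (bits (s 0)) [] [] [])
      (st3 (bits (s 0)) [] [true] []) 1 := (ORuns.push _ 2 true).conv rfl (by simp) le_rfl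
  have h3 := hloop n le_rfl
  rw [Nat.sub_self] at h3
  obtain ⟨t, ht, hr⟩ := h1.seq (h2.seq h3)
  have hbd : prog.bd ≤ N + 1 := by simp only [N]; omega
  have hr' := ORun.restrict (n := N) hr hbd (by omega) (by omega)
  have hstart : (fun i_1 : Fin (N + 1) => st3 (RTM.input i b) [] [] [] i_1) =
      update (fun _ => []) 0 (RTM.input i b) := by
    funext k
    by_cases hk : k = 0
    · subst hk; simp
    · rw [Function.update_of_ne hk]
      have hk' : (k : ℕ) ≠ 0 := fun h => hk (Fin.ext h)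
      unfold st3
      split <;> simp_all
  rw [hstart] at hr'
  have := toRTM_accepts (o := Fin.ofNat (N + 1) 1) hr'
  have ho : st3 (bits (s n)) res [] [] (Fin.ofNat (N + 1) 1 : Fin (N + 1)) = res := by
    have : ((Fin.ofNat (N + 1) 1 : Fin (N + 1)) : ℕ) = 1 := by
      simp only [Fin.val_ofNat]
      exact Nat.mod_eq_of_lt (by omega)
    rw [this, st3_one]
  rw [ho] at this
  refine ⟨fun h => ?_, this.2⟩
  obtain ⟨s', hs', hc⟩ := this.1 h
  refine ⟨s', hs'.trans ?_, hc⟩
  have := hPe (RTM.input i b).length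
  omega

end Pool.Agent.W2helper58.GA
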