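import Pool.Agent.W2helper58.GA.Algo

/-!
# Graph Automorphism is in `ZPP` relative to the KT-random strings
-/

namespace Pool.Agent.W2helper58.GA

open Pool.Agent.NPC Pool.Agent.H620R2.Gauge

/-! ### The oracle algorithm -/

theorem run_nonadaptive (M : Alg) (O : Oracle) (y : List Bool) (K : ℕ) (q : ℕ → List Bool)
    (out : List Bool → List Bool)
    (hD : ∀ a, M.D (pairBits y a) = if a.length < K then false :: q a.length else true :: out a) :
    ∀ i j n, i + j = K → i < n →
      M.run O y n ((List.range j).map fun k => O (q k)) =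
        some (out ((List.range K).map fun k => O (q k))) := by
  intro i
  induction i with
  | zero =>
    intro j n hj hn
    obtain ⟨n, rfl⟩ : ∃ n', n = n' + 1 := ⟨n - 1, by omega⟩
    have : j = K := by omega
    subst this
    rw [Alg.run, hD, if_neg (by simp)]
  | succ i ih =>
    intro j n hj hn
    obtain ⟨n, rfl⟩ : ∃ n', n = n' + 1 := ⟨n - 1, by omega⟩
    rw [Alg.run, hD, if_pos (by simp; omega)]
    simp only [List.length_map, List.length_range]
    have := ih (j + 1) n (by omega) (by omega)
    rw [List.range_succ, List.map_append] at this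
    exact this

theorem isFP_VV (c₀ : ℕ) (TP : Polynomial ℕ) (U : Machine) :
    IsFP (RKT U) (VV c₀ TP U) := by
  have hpoly : PolyTime (DD c₀ TP) :=
    PC.toPolyTime (PC.comp (g := fun x : List Bool => x) H801.Fvs.PC.rawOut
      (PC.comp (g := DD c₀ TP) (f := fun x : List Bool => x) (poly_DD c₀ TP) PC.rawIn))
  obtain ⟨p, hp⟩ := NPC.Poly.sz_le (upoly_kP c₀ (NPC.Poly.snd (poly_unpair)))
  refine ⟨⟨DD c₀ TP, hpoly, p.comp (Polynomial.C 4 * Polynomial.X + Polynomial.C 1)⟩, fun y => ?_⟩
  have h1 : kP c₀ (unpair y).2 < (p.comp (Polynomial.C 4 * Polynomial.X + Polynomial.C 1)).eval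
      y.length := by
    have h2 : sz (List.replicate (kP c₀ (unpair y).2) ()) ≤ p.eval (sz y) := hp y
    have h3 := length_lt_sz (List.replicate (kP c₀ (unpair y).2) ())
    rw [List.length_replicate] at h3
    have h4 : p.eval (sz y) ≤ p.eval (4 * y.length + 1) := eval_mono p (sz_listBool_le y)
    simp only [Polynomial.eval_comp, Polynomial.eval_add, Polynomial.eval_mul, Polynomial.eval_C,
      Polynomial.eval_X]
    omega
  have := run_nonadaptive ⟨DD c₀ TP, hpoly, p.comp (Polynomial.C 4 * Polynomial.X +
    Polynomial.C 1)⟩ (RKT U) y (kP c₀ (unpair y).2)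
    (fun q => zq c₀ TP (unpair y).1 (unpair y).2 (q / rP c₀ (unpair y).2) (q % rP c₀ (unpair y).2))
    (fun a => fin c₀ TP (unpair y).1 (unpair y).2 a) (by
      intro a
      simp only [DD, unpair_pairBits]) (kP c₀ (unpair y).2) 0 _ (by omega) h1
  exact this

/-! ### Random bits -/

theorem ofFn_getD {p : ℕ} (w : Fin p → Bool) (i : ℕ) : (List.ofFn w).getD i false = ext w i := by
  unfold ext
  rw [List.getD_eq_getElem?_getD]
  by_cases h : i < p
  · simp [h]
  · simp [h]

theorem reps {b : ℕ} {E : (ℕ → Bool) → Bool}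
    (hE : ∀ r r' : ℕ → Bool, (∀ i < b, r i = r' i) → E r = E r')
    (h : 4 * (Finset.univ.filter fun v : Fin b → Bool => E (ext v) = false).card ≤ 3 * 2 ^ b) :
    ∀ R L, R * b ≤ L → 4 ^ R * (Finset.univ.filter fun w : Fin L → Bool =>
      ∀ ρ < R, E (fun i => ext w (ρ * b + i)) = false).card ≤ 3 ^ R * 2 ^ L := by
  intro R
  induction R with
  | zero =>
    intro L _
    simp
  | succ R ih =>
    intro L hL
    obtain ⟨L', rfl⟩ : ∃ L', L = b + L' := Nat.exists_eq_add_of_le (by
      have : b ≤ (R + 1) * b := Nat.le_mul_of_pos_left _ (by omega)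
      omega)
    have hL' : R * b ≤ L' := by rw [add_mul, one_mul] at hL; omega
    have h2 := ih L' hL'
    let Φ : (Fin (b + L') → Bool) → (Fin b → Bool) × (Fin L' → Bool) := fun w =>
      (fun i => w ⟨i, by omega⟩, fun i => w ⟨b + i, by omega⟩)
    have hinj : Function.Injective Φ := by
      intro w w' hw
      funext k
      by_cases hk : (k : ℕ) < b
      · have := congrFun (congrArg Prod.fst hw) ⟨k, hk⟩
        exact this
      · have := congrFun (congrArg Prod.snd hw) ⟨k - b, by omega⟩
        simp only [Φ] at this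
        have e : b + ((k : ℕ) - b) = k := by omega
        simpa only [e] using this
    have he1 : ∀ w : Fin (b + L') → Bool, ∀ i < b, ext w i = ext (Φ w).1 i := by
      intro w i hi
      rw [ext_of_lt _ hi, ext_of_lt _ (by omega)]
    have he2 : ∀ w : Fin (b + L') → Bool, ∀ i, ext w (b + i) = ext (Φ w).2 i := by
      intro w i
      by_cases hi : i < L'
      · rw [ext_of_lt _ hi, ext_of_lt _ (by omega)]
      · unfold ext
        rw [dif_neg (by omega), dif_neg hi]
    have hcard : (Finset.univ.filter fun w : Fin (b + L') → Bool =>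
        ∀ ρ < R + 1, E (fun i => ext w (ρ * b + i)) = false).card ≤
        (Finset.univ.filter fun v : Fin b → Bool => E (ext v) = false).card *
        (Finset.univ.filter fun w : Fin L' → Bool =>
          ∀ ρ < R, E (fun i => ext w (ρ * b + i)) = false).card := by
      rw [← Finset.card_product]
      refine Finset.card_le_card_of_injOn Φ ?_ hinj.injOn
      intro w hw
      simp only [Finset.coe_filter, Finset.mem_univ, true_and, Set.mem_ofPred_eq] at hw
      simp only [Finset.coe_product, Set.mem_prod, Finset.coe_filter, Finset.mem_univ, true_and,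
        Set.mem_ofPred_eq]
      constructor
      · have := hw 0 (by omega)
        rw [← this]
        exact hE _ _ fun i hi => by rw [zero_mul, zero_add, he1 w i hi]
      · intro ρ hρ
        have := hw (ρ + 1) (by omega)
        rw [← this]
        refine hE _ _ fun i _ => ?_
        rw [← he2, show (ρ + 1) * b + i = b + (ρ * b + i) by ring]
    calc 4 ^ (R + 1) * (Finset.univ.filter fun w : Fin (b + L') → Bool =>
        ∀ ρ < R + 1, E (fun i => ext w (ρ * b + i)) = false).card
        ≤ 4 ^ (R + 1) * ((Finset.univ.filter fun v : Fin b → Bool => E (ext v) = false).card *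
        (Finset.univ.filter fun w : Fin L' → Bool =>
          ∀ ρ < R, E (fun i => ext w (ρ * b + i)) = false).card) := Nat.mul_le_mul_left _ hcard
      _ = (4 * (Finset.univ.filter fun v : Fin b → Bool => E (ext v) = false).card) *
          (4 ^ R * (Finset.univ.filter fun w : Fin L' → Bool =>
          ∀ ρ < R, E (fun i => ext w (ρ * b + i)) = false).card) := by ring
      _ ≤ (3 * 2 ^ b) * (3 ^ R * 2 ^ L') := Nat.mul_le_mul h h2
      _ = 3 ^ (R + 1) * 2 ^ (b + L') := by ring

/-! ### Exponentials beat polynomials -/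

theorem poly_lt_two_pow (P : Polynomial ℕ) : ∀ C : ℕ, ∃ c₀, ∀ m ≥ c₀, C * P.eval m ≤ 2 ^ m := by
  induction P using Polynomial.induction_on' with
  | add p q hp hq =>
    intro C
    obtain ⟨c1, h1⟩ := hp (2 * C)
    obtain ⟨c2, h2⟩ := hq (2 * C)
    refine ⟨max c1 c2, fun m hm => ?_⟩
    have h3 := h1 m (le_trans (le_max_left _ _) hm)
    have h4 := h2 m (le_trans (le_max_right _ _) hm)
    rw [Polynomial.eval_add]
    nlinarith
  | monomial k a =>
    intro C
    have h := tendsto_pow_const_div_const_pow_of_one_lt k (show (1 : ℝ) < 2 by norm_num)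
    have h2 := h.eventually (gt_mem_nhds (show (0 : ℝ) < 1 / (C * a + 1) by positivity))
    obtain ⟨c₀, hc⟩ := Filter.eventually_atTop.1 h2
    refine ⟨c₀, fun m hm => ?_⟩
    have h3 := hc m hm
    rw [div_lt_div_iff₀ (by positivity) (by positivity), one_mul] at h3
    rw [Polynomial.eval_monomial]
    have h4 : (C : ℝ) * (a * (m : ℝ) ^ k) ≤ 2 ^ m := by
      have : 0 ≤ (m : ℝ) ^ k := by positivity
      nlinarith
    exact_mod_cast h4

/-! ### The tests -/

theorem zStr_congr {N m T c : ℕ} {f : ℕ → ℕ → List Bool}
    (hf : ∀ x < N, ∀ y < N, (f x y).length = c) {A A' r r' : ℕ → Bool}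
    (h : ∀ i < hlen N m c, A i = A' i) (hr : ∀ i < T * qlen N m, r i = r' i) :
    zStr N m T f A r = zStr N m T f A' r' := by
  unfold zStr
  refine flatMap_congr' fun t ht => ?_
  have ht' : t < T := List.mem_range.1 ht
  refine List.map_congr_left fun j hj => ?_
  have hj' : j < clen N m + 1 := List.mem_range.1 hj
  have hb : blk N m f r t = blk N m f r' t := by
    unfold blk
    refine flatMap_congr' fun s hs => ?_
    have hs' : s < m := List.mem_range.1 hs
    refine canon_congr (fun x hx => ?_) fun _ _ _ _ => rfl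
    refine keyOf_congr fun i hi => hr _ ?_
    have e : ((t * m + s) * N + x) * m + i = t * qlen N m + ((s * N + x) * m + i) := by
      unfold qlen; ring
    have h1 := pos_lt hs' hx hi
    have h2 : (t + 1) * qlen N m ≤ T * qlen N m := Nat.mul_le_mul_right _ ht'
    rw [add_mul, one_mul] at h2
    omega
  rw [hb]
  refine hbit_congr fun i hi => ?_
  rw [blk_length hf] at hi ⊢
  apply h
  have : (j + 1) * dlen N m c ≤ (clen N m + 1) * dlen N m c := Nat.mul_le_mul_right _ hj'
  rw [add_mul, one_mul] at this
  unfold hlen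
  omega

theorem tst_congr {U : Machine} {N m T c : ℕ} {f : ℕ → ℕ → List Bool}
    (hf : ∀ x < N, ∀ y < N, (f x y).length = c) {r r' : ℕ → Bool}
    (h : ∀ i < rlen N m T c, r i = r' i) : tst U N m T c f r = tst U N m T c f r' := by
  unfold tst
  have h1 : ∀ i < T * qlen N m, r (hlen N m c + i) = r' (hlen N m c + i) := by
    intro i hi
    apply h
    unfold rlen
    omega
  have h2 : ∀ i < hlen N m c, r i = r' i := by
    intro i hi
    apply h
    unfold rlen
    omega
  rw [zStr_congr hf h2 h1]
  congr 1
  rw [Bool.eq_iff_iff]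
  simp only [List.all_eq_true, List.mem_range, okB_iff]
  have h3 : ∀ t < T, ∀ s < m, ∀ x < N, lab N m (fun i => r (hlen N m c + i)) (t * m + s) x =
      lab N m (fun i => r' (hlen N m c + i)) (t * m + s) x := by
    intro t ht s hs x hx
    refine keyOf_congr fun i hi => h1 _ ?_
    have e : ((t * m + s) * N + x) * m + i = t * qlen N m + ((s * N + x) * m + i) := by
      unfold qlen; ring
    have h4 := pos_lt hs hx hi
    have h5 : (t + 1) * qlen N m ≤ T * qlen N m := Nat.mul_le_mul_right _ ht
    rw [add_mul, one_mul] at h5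
    omega
  constructor
  · intro H t ht s hs x hx y hy hxy
    rw [← h3 t ht s hs x hx, ← h3 t ht s hs y hy] at hxy
    exact H t ht s hs x hx y hy hxy
  · intro H t ht s hs x hx y hy hxy
    rw [h3 t ht s hs x hx, h3 t ht s hs y hy] at hxy
    exact H t ht s hs x hx y hy hxy

theorem Rigid.congr {N : ℕ} {f f' : ℕ → ℕ → List Bool}
    (h : ∀ x < N, ∀ y < N, f x y = f' x y) (hr : Rigid N f) : Rigid N f' := by
  rintro σ ⟨h1, h2, h3⟩
  exact hr σ ⟨h1, h2, fun x hx y hy => by
    rw [h _ (h1 x hx) _ (h1 y hy), h x hx y hy, h3 x hx y hy]⟩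

theorem IsAut.congr {N : ℕ} {f f' : ℕ → ℕ → List Bool} {σ : ℕ → ℕ}
    (h : ∀ x < N, ∀ y < N, f x y = f' x y) (hr : IsAut N f σ) : IsAut N f' σ := by
  obtain ⟨h1, h2, h3⟩ := hr
  exact ⟨h1, h2, fun x hx y hy => by
    rw [← h _ (h1 x hx) _ (h1 y hy), ← h x hx y hy, h3 x hx y hy]⟩

/-! ### Graphs -/

theorem validB_iff {A : List (List Bool)} : validB A = true ↔
    (∀ row ∈ A, row.length = A.length) ∧ (∀ x < A.length, aM A x x = false) ∧
      ∀ x < A.length, ∀ y < A.length, aM A x y = aM A y x := by
  simp only [validB, Bool.and_eq_true, List.all_eq_true, decide_eq_true_eq, List.mem_range,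
    Bool.not_eq_true', and_assoc]

theorem aM_adjBits {n : ℕ} (G : SimpleGraph (Fin n)) (x y : Fin n) :
    aM (adjBits G) x y = true ↔ G.Adj x y := by
  simp [aM, adjBits, List.getD_eq_getElem?_getD]

theorem adjBits_length {n : ℕ} (G : SimpleGraph (Fin n)) : (adjBits G).length = n := by
  simp [adjBits]

theorem validB_adjBits {n : ℕ} (G : SimpleGraph (Fin n)) : validB (adjBits G) = true := by
  rw [validB_iff, adjBits_length]
  refine ⟨?_, ?_, ?_⟩
  · intro row hrow
    simp only [adjBits, List.mem_ofFn] at hrow
    obtain ⟨i, rfl⟩ := hrow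
    simp
  · intro x hx
    have := aM_adjBits G ⟨x, hx⟩ ⟨x, hx⟩
    simp only [SimpleGraph.irrefl, iff_false, Bool.not_eq_true] at this
    exact this
  · intro x hx y hy
    rw [Bool.eq_iff_iff]
    rw [aM_adjBits G ⟨x, hx⟩ ⟨y, hy⟩, aM_adjBits G ⟨y, hy⟩ ⟨x, hx⟩]
    exact G.adj_comm _ _

/-- the graph given by a matrix -/
def grOf (A : List (List Bool)) (h : validB A = true) : SimpleGraph (Fin A.length) where
  Adj x y := aM A x y = true
  symm := ⟨fun x y hxy => by
    rw [validB_iff] at h
    rw [h.2.2 y y.2 x x.2]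
    exact hxy⟩
  loopless := ⟨fun x hx => by
    rw [validB_iff] at h
    have := h.2.1 x x.2
    rw [this] at hx
    exact absurd hx (by simp)⟩

theorem aM_eq {A : List (List Bool)} {i j : ℕ} (hi : i < A.length) (hj : j < A[i].length) :
    aM A i j = A[i][j] := by
  unfold aM
  rw [List.getD_eq_getElem?_getD, List.getD_eq_getElem?_getD, List.getElem?_eq_getElem hi,
    Option.getD_some, List.getElem?_eq_getElem hj, Option.getD_some]

theorem adjBits_grOf (A : List (List Bool)) (h : validB A = true) : adjBits (grOf A h) = A := by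
  have h' := validB_iff.1 h
  apply List.ext_getElem (by simp [adjBits])
  intro i h1 h2
  have hr := h'.1 _ (List.getElem_mem h2)
  apply List.ext_getElem (by simp [adjBits, hr])
  intro j h3 h4
  simp only [adjBits, List.getElem_ofFn]
  rw [Bool.eq_iff_iff, @decide_eq_true_iff _ (Classical.propDecidable _), ← aM_eq h2 h4]
  exact Iff.rfl

theorem exists_aut_iff {A : List (List Bool)} (h : validB A = true) :
    (∃ φ : grOf A h ≃g grOf A h, ∃ v, φ v ≠ v) ↔
      ∃ π : Equiv.Perm (Fin A.length), isA (aM A) π ∧ π ≠ 1 := by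
  constructor
  · rintro ⟨φ, v, hv⟩
    refine ⟨φ.toEquiv, fun x y => ?_, ?_⟩
    · have := φ.map_rel_iff (a := x) (b := y)
      rw [Bool.eq_iff_iff]
      exact this
    · intro hc
      apply hv
      have := congrArg (fun e : Equiv.Perm (Fin A.length) => e v) hc
      exact this
  · rintro ⟨π, hπ, hπ1⟩
    have : ∃ v, π v ≠ v := by
      by_contra hcon
      push Not at hcon
      exact hπ1 (Equiv.ext hcon)
    obtain ⟨v, hv⟩ := this
    refine ⟨⟨π, fun {x y} => ?_⟩, v, hv⟩
    change aM A (π x) (π y) = true ↔ aM A x y = true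
    rw [hπ x y]

theorem mem_GraphAut {x : List Bool} : x ∈ GraphAut ↔
    ∃ π : Equiv.Perm (Fin (gA x).length), isA (aM (gA x)) π ∧ π ≠ 1 := by
  unfold GraphAut
  rw [mem_lang_iff]
  constructor
  · rintro ⟨A, hA, n, G, hAG, φ, v, hv⟩
    have hval : validB A = true := by rw [hAG]; exact validB_adjBits G
    have hg : gA x = A := by unfold gA; rw [hA]; simp [hval]
    have hlen : A.length = n := by rw [hAG, adjBits_length]
    subst hlen
    rw [hg]
    refine ⟨φ.toEquiv, fun x y => ?_, ?_⟩
    · have h1 := φ.map_rel_iff (a := x) (b := y)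
      rw [Bool.eq_iff_iff]
      have h2 := aM_adjBits G x y
      have h3 := aM_adjBits G (φ x) (φ y)
      rw [← hAG] at h2 h3
      change aM A (φ x) (φ y) = true ↔ aM A x y = true
      rw [h2, h3]
      exact h1
    · intro hc
      apply hv
      have := congrArg (fun e : Equiv.Perm (Fin A.length) => e v) hc
      exact this
  · intro h
    have hne : gA x ≠ [] := by
      intro h0
      rw [h0] at h
      obtain ⟨π, _, hπ1⟩ := h
      apply hπ1
      ext i
      have := i.2
      simp at this
    cases hu : unbits (List (List Bool)) x with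
    | none =>
      exfalso
      apply hne
      unfold gA
      rw [hu]
      simp
    | some A =>
      by_cases hval : validB A = true
      · have hg : gA x = A := by unfold gA; rw [hu]; simp [hval]
        rw [hg] at h
        exact ⟨A, rfl, A.length, grOf A hval, (adjBits_grOf A hval).symm,
          (exists_aut_iff hval).2 h⟩
      · exfalso
        apply hne
        unfold gA
        rw [hu]
        simp [hval]

theorem gA_length_le (x : List Bool) : (gA x).length ≤ x.length := by
  unfold gA
  split_ifs with h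
  · cases hu : unbits (List (List Bool)) x with
    | none => simp
    | some A =>
      have h1 := bits_of_unbits hu
      have h2 := length_lt_sz A
      simp only [Option.getD_some]
      have h3 : sz A = x.length := by rw [← h1]; rfl
      omega
  · simp

end Pool.Agent.W2helper58.GA
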