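import Pool.Agent.W2helper58.GA.Defs
import Pool.Agent.NPC.Tree

/-!
# Structured programs with a reading instruction, compiled to `RTM`
-/

namespace Pool.Agent.W2helper58.GA

open Turing Pool.Agent.NPC
open Function (update)

/-- Structured programs over binary stacks indexed by `K`, with a reading instruction. -/
inductive OCmd (K : Type) : Type
  | skip : OCmd K
  | push (k : K) (b : Bool) : OCmd K
  | pop (k : K) : OCmd K
  | seq (c d : OCmd K) : OCmd K
  | cases (k : K) (c₀ cf ct : OCmd K) : OCmd K
  | loop (k : K) (c : OCmd K) : OCmd K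
  | ask : OCmd K

/-- The stacks after reading a bit of `d` with address stack `a` and answer stack `r`. -/
def rd {K : Type} [DecidableEq K] (a r : K) (d : List Bool) (S : K → List Bool) :
    K → List Bool :=
  update (update S a []) r ((d[valB (S a)]?).toList ++ update S a [] r)

/-- Big-step semantics with running time. -/
inductive ORun {K : Type} [DecidableEq K] (a r : K) (d : List Bool) :
    OCmd K → (K → List Bool) → (K → List Bool) → ℕ → Prop
  | skip (s) : ORun a r d OCmd.skip s s 1
  | push (s k b) : ORun a r d (OCmd.push k b) s (update s k (b :: s k)) 1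
  | pop (s k) : ORun a r d (OCmd.pop k) s (update s k (s k).tail) 1
  | seq {c e s s' s'' t t'} : ORun a r d c s s' t → ORun a r d e s' s'' t' →
      ORun a r d (OCmd.seq c e) s s'' (t + t')
  | casesNil {k c₀ cf ct s s' t} : s k = [] → ORun a r d c₀ s s' t →
      ORun a r d (OCmd.cases k c₀ cf ct) s s' (t + 1)
  | casesFalse {k c₀ cf ct s s' t l} : s k = false :: l → ORun a r d cf s s' t →
      ORun a r d (OCmd.cases k c₀ cf ct) s s' (t + 1)
  | casesTrue {k c₀ cf ct s s' t l} : s k = true :: l → ORun a r d ct s s' t →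
      ORun a r d (OCmd.cases k c₀ cf ct) s s' (t + 1)
  | loopNil {k c s} : s k = [] → ORun a r d (OCmd.loop k c) s s 1
  | loopCons {k c s s' s'' t t'} : s k ≠ [] → ORun a r d c s s' t →
      ORun a r d (OCmd.loop k c) s' s'' t' → ORun a r d (OCmd.loop k c) s s'' (t + t' + 1)
  | ask (s) : ORun a r d OCmd.ask s (rd a r d s) 1

namespace OCmd

variable {K : Type}

/-- Programs without reading instructions. -/
def lift : Cmd K → OCmd K
  | Cmd.skip => skip
  | Cmd.push k b => push k b
  | Cmd.pop k => pop k
  | Cmd.seq c d => seq (lift c) (lift d)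
  | Cmd.cases k c₀ cf ct => cases k (lift c₀) (lift cf) (lift ct)
  | Cmd.loop k c => loop k (lift c)

/-- The labels (program points) of a program. -/
def Lbl : OCmd K → Type
  | skip => Unit
  | push _ _ => Unit
  | pop _ => Unit
  | seq c d => c.Lbl ⊕ d.Lbl
  | cases _ c₀ cf ct => Option (c₀.Lbl ⊕ (cf.Lbl ⊕ ct.Lbl))
  | loop _ c => Option c.Lbl
  | ask => Unit

theorem lblFinite : (c : OCmd K) → Finite c.Lbl
  | skip => inferInstanceAs (Finite Unit)
  | push _ _ => inferInstanceAs (Finite Unit)
  | pop _ => inferInstanceAs (Finite Unit)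
  | seq c d => @Finite.instSum c.Lbl d.Lbl c.lblFinite d.lblFinite
  | cases _ c₀ cf ct =>
    @instFiniteOption _ (@Finite.instSum c₀.Lbl (cf.Lbl ⊕ ct.Lbl) c₀.lblFinite
      (@Finite.instSum cf.Lbl ct.Lbl cf.lblFinite ct.lblFinite))
  | loop _ c => @instFiniteOption _ c.lblFinite
  | ask => inferInstanceAs (Finite Unit)

/-- The entry label. -/
def entry : (c : OCmd K) → c.Lbl
  | skip => ()
  | push _ _ => ()
  | pop _ => ()
  | seq c _ => Sum.inl c.entry
  | cases _ _ _ _ => none
  | loop _ _ => none
  | ask => ()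

/-- The labels of reading instructions. -/
def isAsk : (c : OCmd K) → c.Lbl → Bool
  | skip, _ => false
  | push _ _, _ => false
  | pop _, _ => false
  | seq c d, l => Sum.rec (fun l => c.isAsk l) (fun l => d.isAsk l) l
  | cases _ c₀ cf ct, l =>
    Option.rec false (fun l => Sum.rec (fun l => c₀.isAsk l)
      (fun l => Sum.rec (fun l => cf.isAsk l) (fun l => ct.isAsk l) l) l) l
  | loop _ c, l => Option.rec false (fun l => c.isAsk l) l
  | ask, _ => true

/-- The code of a program, for a given embedding of its labels and a given exit label. -/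
def code {L : Type} : (c : OCmd K) → (c.Lbl → L) → L → c.Lbl → Cmd.Stm K L
  | skip, _, exit, _ => TM2.Stmt.goto fun _ => exit
  | push k b, _, exit, _ => TM2.Stmt.push k (fun _ => b) (TM2.Stmt.goto fun _ => exit)
  | pop k, _, exit, _ => TM2.Stmt.pop k (fun v _ => v) (TM2.Stmt.goto fun _ => exit)
  | seq c d, emb, exit, l =>
    Sum.rec (fun l => c.code (fun x => emb (Sum.inl x)) (emb (Sum.inr d.entry)) l)
      (fun l => d.code (fun x => emb (Sum.inr x)) exit l) l
  | cases k c₀ cf ct, emb, exit, l =>
    Option.rec (TM2.Stmt.peek k (fun _ a => a)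
        (TM2.Stmt.goto fun v => match v with
          | none => emb (some (Sum.inl c₀.entry))
          | some false => emb (some (Sum.inr (Sum.inl cf.entry)))
          | some true => emb (some (Sum.inr (Sum.inr ct.entry)))))
      (fun l => Sum.rec (fun l => c₀.code (fun x => emb (some (Sum.inl x))) exit l)
        (fun l => Sum.rec (fun l => cf.code (fun x => emb (some (Sum.inr (Sum.inl x)))) exit l)
          (fun l => ct.code (fun x => emb (some (Sum.inr (Sum.inr x)))) exit l) l) l) l
  | loop k c, emb, exit, l =>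
    Option.rec (TM2.Stmt.peek k (fun _ a => a)
        (TM2.Stmt.goto fun v => match v with
          | none => exit
          | some _ => emb (some c.entry)))
      (fun l => c.code (fun x => emb (some x)) (emb none) l) l
  | ask, _, exit, _ => TM2.Stmt.goto fun _ => exit

end OCmd

section Correct

variable {K : Type} [DecidableEq K] {L : Type}

/-- One step of the machine with labels `L` and reading labels `Q`. -/
def ostep (a r : K) (d : List Bool) (M : L → Cmd.Stm K L) (Q : L → Bool)
    (c : TM2.Cfg (fun _ : K => Bool) L (Option Bool)) :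
    Option (TM2.Cfg (fun _ : K => Bool) L (Option Bool)) :=
  TM2.step M (if c.l.any Q then ⟨c.l, c.var, rd a r d c.stk⟩ else c)

/-- `n` machine steps. -/
def OSteps (a r : K) (d : List Bool) (M : L → Cmd.Stm K L) (Q : L → Bool) (n : ℕ)
    (x y : TM2.Cfg (fun _ : K => Bool) L (Option Bool)) : Prop :=
  (fun o => o.bind (ostep a r d M Q))^[n] (some x) = some y

variable {a r : K} {d : List Bool}

theorem OSteps.trans {M : L → Cmd.Stm K L} {Q : L → Bool} {m n : ℕ} {x y z}
    (h₁ : OSteps a r d M Q m x y) (h₂ : OSteps a r d M Q n y z) :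
    OSteps a r d M Q (m + n) x z := by
  unfold OSteps at *
  rw [add_comm, Function.iterate_add_apply, h₁, h₂]

theorem OSteps.one {M : L → Cmd.Stm K L} {Q : L → Bool} {l : L} {v S y} (hQ : Q l = false)
    (h : TM2.step M ⟨some l, v, S⟩ = some y) : OSteps a r d M Q 1 ⟨some l, v, S⟩ y := by
  unfold OSteps
  simp [ostep, hQ, h]

theorem ocode_correct {c : OCmd K} {s s' : K → List Bool} {t : ℕ} (h : ORun a r d c s s' t) :
    ∀ (M : L → Cmd.Stm K L) (Q : L → Bool) (emb : c.Lbl → L) (exit : L),
      (∀ l, M (emb l) = c.code emb exit l) → (∀ l, Q (emb l) = c.isAsk l) →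
      ∀ v, ∃ v', OSteps a r d M Q t ⟨some (emb c.entry), v, s⟩ ⟨some exit, v', s'⟩ := by
  induction h with
  | skip s =>
    intro M Q emb exit hM hQ v
    refine ⟨v, OSteps.one (hQ _) ?_⟩
    simp [TM2.step, hM, OCmd.code]
  | push s k b =>
    intro M Q emb exit hM hQ v
    refine ⟨v, OSteps.one (hQ _) ?_⟩
    simp [TM2.step, hM, OCmd.code]
  | pop s k =>
    intro M Q emb exit hM hQ v
    refine ⟨v, OSteps.one (hQ _) ?_⟩
    simp [TM2.step, hM, OCmd.code]
  | @seq c e s s' s'' t t' _ _ ih₁ ih₂ =>
    intro M Q emb exit hM hQ v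
    obtain ⟨v₁, h₁⟩ := ih₁ M Q (fun x => emb (Sum.inl x)) (emb (Sum.inr e.entry))
      (fun l => hM (Sum.inl l)) (fun l => hQ (Sum.inl l)) v
    obtain ⟨v₂, h₂⟩ := ih₂ M Q (fun x => emb (Sum.inr x)) exit (fun l => hM (Sum.inr l))
      (fun l => hQ (Sum.inr l)) v₁
    exact ⟨v₂, h₁.trans h₂⟩
  | @casesNil k c₀ cf ct s s' t hk _ ih =>
    intro M Q emb exit hM hQ v
    obtain ⟨v₁, h₁⟩ := ih M Q (fun x => emb (some (Sum.inl x))) exit
      (fun l => hM (some (Sum.inl l))) (fun l => hQ (some (Sum.inl l))) none
    refine ⟨v₁, ?_⟩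
    rw [add_comm]
    refine OSteps.trans (OSteps.one (hQ none) ?_) h₁
    have : M (emb none) = _ := hM none
    simp [TM2.step, OCmd.entry, this, OCmd.code, hk]
  | @casesFalse k c₀ cf ct s s' t l hk _ ih =>
    intro M Q emb exit hM hQ v
    obtain ⟨v₁, h₁⟩ := ih M Q (fun x => emb (some (Sum.inr (Sum.inl x)))) exit
      (fun l => hM (some (Sum.inr (Sum.inl l)))) (fun l => hQ (some (Sum.inr (Sum.inl l))))
      (some false)
    refine ⟨v₁, ?_⟩
    rw [add_comm]
    refine OSteps.trans (OSteps.one (hQ none) ?_) h₁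
    have : M (emb none) = _ := hM none
    simp [TM2.step, OCmd.entry, this, OCmd.code, hk]
  | @casesTrue k c₀ cf ct s s' t l hk _ ih =>
    intro M Q emb exit hM hQ v
    obtain ⟨v₁, h₁⟩ := ih M Q (fun x => emb (some (Sum.inr (Sum.inr x)))) exit
      (fun l => hM (some (Sum.inr (Sum.inr l)))) (fun l => hQ (some (Sum.inr (Sum.inr l))))
      (some true)
    refine ⟨v₁, ?_⟩
    rw [add_comm]
    refine OSteps.trans (OSteps.one (hQ none) ?_) h₁
    have : M (emb none) = _ := hM none
    simp [TM2.step, OCmd.entry, this, OCmd.code, hk]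
  | @loopNil k c s hk =>
    intro M Q emb exit hM hQ v
    refine ⟨none, OSteps.one (hQ none) ?_⟩
    have : M (emb none) = _ := hM none
    simp [TM2.step, OCmd.entry, this, OCmd.code, hk]
  | @loopCons k c s s' s'' t t' hk _ _ ih₁ ih₂ =>
    intro M Q emb exit hM hQ v
    obtain ⟨b, l, hl⟩ := List.exists_cons_of_ne_nil hk
    obtain ⟨v₁, h₁⟩ := ih₁ M Q (fun x => emb (some x)) (emb none)
      (fun l => hM (some l)) (fun l => hQ (some l)) (some b)
    obtain ⟨v₂, h₂⟩ := ih₂ M Q emb exit hM hQ v₁
    refine ⟨v₂, ?_⟩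
    have e : t + t' + 1 = 1 + (t + t') := by ring
    rw [e]
    refine OSteps.trans (OSteps.one (hQ none) ?_) (h₁.trans h₂)
    have : M (emb none) = _ := hM none
    simp [TM2.step, OCmd.entry, this, OCmd.code, hl]
  | ask s =>
    intro M Q emb exit hM hQ v
    refine ⟨v, ?_⟩
    unfold OSteps
    have : Q (emb (OCmd.ask : OCmd K).entry) = true := hQ _
    simp [ostep, this, TM2.step, hM, OCmd.code]

end Correct

/-- The machine of a program over finitely many stacks. -/
def OCmd.toRTM {K : Type} [DecidableEq K] [Finite K] (c : OCmd K) (i o a r : K) : RTM where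
  K := K
  Λ := Option c.Lbl
  finΛ := @instFiniteOption _ c.lblFinite
  σ := Option Bool
  main := some c.entry
  init := none
  prog := fun l => Option.rec (TM2.Stmt.load (fun _ => none) TM2.Stmt.halt)
    (fun l => c.code some none l) l
  inp := i
  out := o
  addr := a
  ans := r
  ask := fun l => Option.rec false (fun l => c.isAsk l) l

theorem toRTM_run {K : Type} [DecidableEq K] [Finite K] {c : OCmd K} {i₀ o a r : K}
    {d : List Bool} {i : ℕ} {b : Option Bool} {s' : K → List Bool} {t : ℕ}
    (h : ORun a r d c (update (fun _ => []) i₀ (RTM.input i b)) s' t) :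
    ∃ v, (fun u => u.bind ((c.toRTM i₀ o a r).step d))^[t + 1]
      (some ((c.toRTM i₀ o a r).start i b)) = some ⟨none, v, s'⟩ := by
  obtain ⟨v, hv⟩ := ocode_correct h (L := Option c.Lbl)
    (fun l => Option.rec (TM2.Stmt.load (fun _ => none) TM2.Stmt.halt)
      (fun l => c.code some none l) l) (fun l => Option.rec false (fun l => c.isAsk l) l)
      some none (fun l => rfl) (fun l => rfl) none
  refine ⟨none, ?_⟩
  have hv' : (fun u => u.bind ((c.toRTM i₀ o a r).step d))^[t]
      (some ((c.toRTM i₀ o a r).start i b)) = some ⟨some none, v, s'⟩ := hv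
  rw [add_comm, Function.iterate_add_apply, hv']
  rfl

theorem iter_none {α : Type*} (f : α → Option α) (n : ℕ) :
    (fun o : Option α => o.bind f)^[n] none = none := by
  induction n with
  | zero => rfl
  | succ n ih => rw [Function.iterate_succ_apply]; exact ih

/-- A halting configuration has no successor, and so the run is unique. -/
theorem halt_unique {M : RTM} {d : List Bool} {x : M.Cfg} {m n : ℕ} {y z : M.Cfg}
    (hy : (fun o => o.bind (M.step d))^[m] (some x) = some y) (hy' : y.l = none)
    (hz : (fun o => o.bind (M.step d))^[n] (some x) = some z) (hz' : z.l = none) : y = z := by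
  have key : ∀ (c : M.Cfg), c.l = none → ∀ k, (fun o => o.bind (M.step d))^[k + 1] (some c) =
      none := by
    intro c hc k
    rw [Function.iterate_succ_apply]
    have : (some c).bind (M.step d) = none := by
      obtain ⟨l, v, S⟩ := c
      simp only at hc
      subst hc
      simp [RTM.step, TM2.step]
    rw [this]
    exact iter_none _ _
  rcases lt_trichotomy m n with h | h | h
  · obtain ⟨k, rfl⟩ := Nat.exists_eq_add_of_lt h
    rw [show m + k + 1 = (k + 1) + m by ring, Function.iterate_add_apply, hy, key y hy'] at hz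
    exact absurd hz (by simp)
  · subst h
    rw [hy] at hz
    exact Option.some.inj hz
  · obtain ⟨k, rfl⟩ := Nat.exists_eq_add_of_lt h
    rw [show n + k + 1 = (k + 1) + n by ring, Function.iterate_add_apply, hz, key z hz'] at hy
    exact absurd hy (by simp)

/-- The acceptance of a machine given by a program. -/
theorem toRTM_accepts {K : Type} [DecidableEq K] [Finite K] {c : OCmd K} {i₀ o a r : K}
    {d : List Bool} {i : ℕ} {b : Option Bool} {s' : K → List Bool} {t : ℕ}
    (h : ORun a r d c (update (fun _ => []) i₀ (RTM.input i b)) s' t) :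
    (s' o = [true] → (c.toRTM i₀ o a r).Accepts d i b (t + 1)) ∧
    (∀ t', (c.toRTM i₀ o a r).Accepts d i b t' → s' o = [true]) := by
  obtain ⟨v, hv⟩ := toRTM_run (o := o) h
  refine ⟨fun ho => ⟨t + 1, le_rfl, _, hv, rfl, ho⟩, ?_⟩
  rintro t' ⟨s, _, y, hy, hy1, hy2⟩
  have := halt_unique hy hy1 hv rfl
  rw [this] at hy2
  exact hy2

end Pool.Agent.W2helper58.GA
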