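import Pool.Agent.W2helper58.GA.Prob2
import Pool.Agent.NPC.Dec

/-!
# The functions used in the reduction are polynomial-time computable
-/

namespace Pool.Agent.W2helper58.GA

open Pool.Agent.NPC

section

variable {α β : Type} [TEnc α] [TEnc β]

omit [TEnc β] in
theorem take_eq (l : List β) : ∀ j k : ℕ, ((l.zipIdx k).filter fun p =>
    decide (p.2 < k + j)).map Prod.fst = l.take j := by
  induction l with
  | nil => intro j k; simp
  | cons v l ih =>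
    intro j k
    rw [List.zipIdx_cons]
    cases j with
    | zero =>
      rw [List.take_zero, List.map_eq_nil_iff, List.filter_eq_nil_iff]
      intro p hp
      have : k ≤ p.2 := by
        rcases List.mem_cons.1 hp with rfl | hp
        · exact le_rfl
        · have := (List.mem_zipIdx hp).1
          omega
      simp only [add_zero, decide_eq_true_eq, not_lt]
      exact this
    | succ j =>
      rw [List.filter_cons, if_pos (by simp), List.map_cons, List.take_succ_cons, ← ih j (k + 1)]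
      congr 2
      ext p
      rw [show k + 1 + j = k + (j + 1) by omega]

theorem poly_take {l : α → List β} {n : α → ℕ} (hl : NPC.Poly l) (hn : NPC.Poly n) :
    NPC.Poly (fun a => (l a).take (n a)) := by
  refine (NPC.Poly.map (F := fun _ (p : β × ℕ) => p.1) (NPC.Poly.filter (p := fun a (p : β × ℕ) =>
    decide (p.2 < n a)) (NPC.Poly.zipIdx hl) (NPC.Poly.decide_lt (NPC.Poly.snd (NPC.Poly.snd NPC.Poly.id))
      (hn.comp (NPC.Poly.fst NPC.Poly.id)))) (NPC.Poly.fst (NPC.Poly.snd NPC.Poly.id))).congr fun a => ?_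
  rw [← take_eq (l a) (n a) 0]
  simp

theorem poly_drop {l : α → List β} {n : α → ℕ} (hl : NPC.Poly l) (hn : NPC.Poly n) :
    NPC.Poly (fun a => (l a).drop (n a)) := by
  refine (NPC.Poly.reverse (poly_take (NPC.Poly.reverse hl) (NPC.Poly.sub (NPC.Poly.length hl) hn))).congr
    fun a => ?_
  rw [List.reverse_take, List.reverse_reverse, List.length_reverse]
  by_cases h : n a ≤ (l a).length
  · congr 1; omega
  · rw [List.drop_of_length_le (by omega), List.drop_of_length_le (by omega)]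

theorem poly_kb {m v : α → ℕ} (hm : UPoly m) (hv : NPC.Poly v) : NPC.Poly (fun a => kb (m a) (v a)) :=
  NPC.Poly.map (F := fun a i => (v a).bits.getD i false) hm.range
    (NPC.Poly.getD (NPC.Poly.natBits (hv.comp (NPC.Poly.fst NPC.Poly.id))) (NPC.Poly.snd NPC.Poly.id) (NPC.Poly.const _))

theorem poly_rank {N : α → ℕ} {κ : α → ℕ → ℕ} {x : α → ℕ} (hN : UPoly N)
    (hκ : NPC.Poly (fun p : α × ℕ => κ p.1 p.2)) (hx : NPC.Poly x) :
    NPC.Poly (fun a => rank (N a) (κ a) (x a)) :=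
  NPC.Poly.length (NPC.Poly.filter (p := fun a y => decide (κ a y < κ a (x a))) hN.range
    (NPC.Poly.decide_lt hκ (hκ.comp (NPC.Poly.pair (NPC.Poly.fst NPC.Poly.id) (hx.comp (NPC.Poly.fst NPC.Poly.id))))))

theorem poly_ordL {N : α → ℕ} {κ : α → ℕ → ℕ} (hN : UPoly N)
    (hκ : NPC.Poly (fun p : α × ℕ => κ p.1 p.2)) : NPC.Poly (fun a => ordL (N a) (κ a)) := by
  refine NPC.Poly.flatMap (F := fun a r => (List.range (N a)).filter
    fun x => decide (rank (N a) (κ a) x = r)) hN.range ?_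
  refine NPC.Poly.filter (p := fun (p : α × ℕ) x => decide (rank (N p.1) (κ p.1) x = p.2))
    (hN.comp (NPC.Poly.fst NPC.Poly.id)).range ?_
  exact NPC.Poly.decide_eq (poly_rank (α := (α × ℕ) × ℕ) (N := fun q => N q.1.1)
    (κ := fun q => κ q.1.1) (x := fun q => q.2) (hN.comp (NPC.Poly.fst (NPC.Poly.fst NPC.Poly.id)))
    (hκ.comp (NPC.Poly.pair (NPC.Poly.fst (NPC.Poly.fst (NPC.Poly.fst NPC.Poly.id))) (NPC.Poly.snd NPC.Poly.id)))
    (NPC.Poly.snd NPC.Poly.id)) (NPC.Poly.snd (NPC.Poly.fst NPC.Poly.id))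

theorem poly_canon {N m : α → ℕ} {f : α → ℕ → ℕ → List Bool} {κ : α → ℕ → ℕ} (hN : UPoly N)
    (hm : UPoly m) (hf : NPC.Poly (fun p : α × ℕ × ℕ => f p.1 p.2.1 p.2.2))
    (hκ : NPC.Poly (fun p : α × ℕ => κ p.1 p.2)) :
    NPC.Poly (fun a => canon (N a) (m a) (f a) (κ a)) := by
  have hO := poly_ordL hN hκ
  refine NPC.Poly.append (NPC.Poly.flatMap (F := fun a x => kb (m a) (κ a x)) hO
    (poly_kb (hm.comp (NPC.Poly.fst NPC.Poly.id)) hκ)) (NPC.Poly.flatMap (F := fun a x =>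
      (ordL (N a) (κ a)).flatMap fun y => f a x y) hO ?_)
  exact NPC.Poly.flatMap (F := fun (p : α × ℕ) y => f p.1 p.2 y) (hO.comp (NPC.Poly.fst NPC.Poly.id))
    (hf.comp (NPC.Poly.pair (NPC.Poly.fst (NPC.Poly.fst NPC.Poly.id)) (NPC.Poly.pair (NPC.Poly.snd (NPC.Poly.fst NPC.Poly.id))
      (NPC.Poly.snd NPC.Poly.id))))

theorem poly_hbit {A : α → ℕ → Bool} {y : α → List Bool} {j : α → ℕ}
    (hA : NPC.Poly (fun p : α × ℕ => A p.1 p.2)) (hy : NPC.Poly y) (hj : NPC.Poly j) :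
    NPC.Poly (fun a => hbit (A a) (y a) (j a)) := by
  refine NPC.Poly.decide_eq (NPC.Poly.mod (NPC.Poly.length (NPC.Poly.filter (p := fun a i =>
    (y a).getD i false && A a (j a * (y a).length + i)) (NPC.Poly.range_length hy) ?_))
    (NPC.Poly.const 2)) (NPC.Poly.const 1)
  refine NPC.Poly.and (NPC.Poly.getD (hy.comp (NPC.Poly.fst NPC.Poly.id)) (NPC.Poly.snd NPC.Poly.id)
    (NPC.Poly.const _)) (hA.comp (NPC.Poly.pair (NPC.Poly.fst NPC.Poly.id) (NPC.Poly.add (NPC.Poly.mul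
      (hj.comp (NPC.Poly.fst NPC.Poly.id)) (NPC.Poly.length (hy.comp (NPC.Poly.fst NPC.Poly.id))))
      (NPC.Poly.snd NPC.Poly.id))))

theorem poly_chunk {m v : α → ℕ} {g : α → List Bool} (hm : NPC.Poly m) (hg : NPC.Poly g) (hv : NPC.Poly v) :
    NPC.Poly (fun a => chunk (m a) (g a) (v a)) :=
  NPC.Poly.valBits (poly_take (poly_drop hg (NPC.Poly.mul hv hm)) hm)

theorem poly_dec {m u1 u2 v : α → ℕ} {g : α → List Bool} (hm : UPoly m) (h1 : NPC.Poly u1)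
    (h2 : NPC.Poly u2) (hg : NPC.Poly g) (hv : NPC.Poly v) :
    NPC.Poly (fun a => dec (m a) (u1 a) (u2 a) (g a) (v a)) := by
  have hm' := hm.toPoly
  have hp : NPC.Poly (fun a => u2 a * m a + (m a - 1)) :=
    NPC.Poly.add (NPC.Poly.mul h2 hm') (NPC.Poly.sub hm' (NPC.Poly.const 1))
  have hf : NPC.Poly (fun a => ins0 (u2 a * m a + (m a - 1)) (g a)) :=
    NPC.Poly.append (poly_take hg hp) (NPC.Poly.cons (NPC.Poly.const _) (poly_drop hg hp))
  have hc1 := poly_chunk hm' hf h1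
  have hc2 := poly_chunk hm' hf h2
  have hcv := poly_chunk hm' hf hv
  have hb := NPC.Poly.valBits (poly_kb hm (NPC.Poly.add (NPC.Poly.succ hc1) hc2))
  exact NPC.Poly.ite (NPC.Poly.decide_eq hv h1) (NPC.Poly.min hc1 hb)
    (NPC.Poly.ite (NPC.Poly.decide_eq hv h2) (NPC.Poly.max hc1 hb) hcv)

theorem poly_keyOf {m p : α → ℕ} {r : α → ℕ → Bool} (hm : UPoly m)
    (hr : NPC.Poly (fun q : α × ℕ => r q.1 q.2)) (hp : NPC.Poly p) :
    NPC.Poly (fun a => keyOf (m a) (r a) (p a)) :=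
  NPC.Poly.valBits (NPC.Poly.map (F := fun a i => r a (p a * m a + i)) hm.range
    (hr.comp (NPC.Poly.pair (NPC.Poly.fst NPC.Poly.id) (NPC.Poly.add (NPC.Poly.mul (hp.comp (NPC.Poly.fst NPC.Poly.id))
      (hm.toPoly.comp (NPC.Poly.fst NPC.Poly.id))) (NPC.Poly.snd NPC.Poly.id)))))

theorem poly_lab {N m s x : α → ℕ} {r : α → ℕ → Bool} (hN : NPC.Poly N) (hm : UPoly m)
    (hr : NPC.Poly (fun q : α × ℕ => r q.1 q.2)) (hs : NPC.Poly s) (hx : NPC.Poly x) :
    NPC.Poly (fun a => lab (N a) (m a) (r a) (s a) (x a)) :=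
  poly_keyOf hm hr (NPC.Poly.add (NPC.Poly.mul hs hN) hx)

theorem poly_blk {N m t : α → ℕ} {f : α → ℕ → ℕ → List Bool} {r : α → ℕ → Bool} (hN : UPoly N)
    (hm : UPoly m) (hf : NPC.Poly (fun p : α × ℕ × ℕ => f p.1 p.2.1 p.2.2))
    (hr : NPC.Poly (fun q : α × ℕ => r q.1 q.2)) (ht : NPC.Poly t) :
    NPC.Poly (fun a => blk (N a) (m a) (f a) (r a) (t a)) := by
  refine NPC.Poly.flatMap (F := fun a s => canon (N a) (m a) (f a) (lab (N a) (m a) (r a)
    (t a * m a + s))) hm.range ?_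
  refine poly_canon (α := α × ℕ) (N := fun p => N p.1) (m := fun p => m p.1)
    (f := fun p => f p.1) (κ := fun p => lab (N p.1) (m p.1) (r p.1) (t p.1 * m p.1 + p.2))
    (hN.comp (NPC.Poly.fst NPC.Poly.id)) (hm.comp (NPC.Poly.fst NPC.Poly.id))
    (hf.comp (NPC.Poly.pair (NPC.Poly.fst (NPC.Poly.fst NPC.Poly.id)) (NPC.Poly.snd NPC.Poly.id))) ?_
  exact poly_lab (α := (α × ℕ) × ℕ) (N := fun p => N p.1.1) (m := fun p => m p.1.1)
    (r := fun p => r p.1.1) (s := fun p => t p.1.1 * m p.1.1 + p.1.2) (x := fun p => p.2)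
    (hN.toPoly.comp (NPC.Poly.fst (NPC.Poly.fst NPC.Poly.id))) (hm.comp (NPC.Poly.fst (NPC.Poly.fst NPC.Poly.id)))
    (hr.comp (NPC.Poly.pair (NPC.Poly.fst (NPC.Poly.fst (NPC.Poly.fst NPC.Poly.id))) (NPC.Poly.snd NPC.Poly.id)))
    (NPC.Poly.add (NPC.Poly.mul (ht.comp (NPC.Poly.fst (NPC.Poly.fst NPC.Poly.id)))
      (hm.toPoly.comp (NPC.Poly.fst (NPC.Poly.fst NPC.Poly.id)))) (NPC.Poly.snd (NPC.Poly.fst NPC.Poly.id)))
    (NPC.Poly.snd NPC.Poly.id)

theorem poly_clen {N m : α → ℕ} (hN : NPC.Poly N) (hm : NPC.Poly m) : NPC.Poly (fun a => clen (N a) (m a)) :=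
  NPC.Poly.mul hm (NPC.Poly.sub (NPC.Poly.mul hN hm) (NPC.Poly.const 1))

theorem upoly_clen {N m : α → ℕ} (hN : UPoly N) (hm : UPoly m) :
    UPoly (fun a => clen (N a) (m a)) :=
  UPoly.of_le (poly_clen hN.toPoly hm.toPoly) (hm.mul (hN.mul hm)) fun a => by
    unfold clen
    exact Nat.mul_le_mul_left _ (Nat.sub_le _ _)

theorem poly_zStr {N m T : α → ℕ} {f : α → ℕ → ℕ → List Bool} {A r : α → ℕ → Bool}
    (hN : UPoly N) (hm : UPoly m) (hT : UPoly T)
    (hf : NPC.Poly (fun p : α × ℕ × ℕ => f p.1 p.2.1 p.2.2))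
    (hA : NPC.Poly (fun q : α × ℕ => A q.1 q.2)) (hr : NPC.Poly (fun q : α × ℕ => r q.1 q.2)) :
    NPC.Poly (fun a => zStr (N a) (m a) (T a) (f a) (A a) (r a)) := by
  refine NPC.Poly.flatMap (F := fun a t => (List.range (clen (N a) (m a) + 1)).map fun j =>
    hbit (A a) (blk (N a) (m a) (f a) (r a) t) j) hT.range ?_
  have hb : NPC.Poly (fun p : α × ℕ => blk (N p.1) (m p.1) (f p.1) (r p.1) p.2) :=
    poly_blk (α := α × ℕ) (N := fun p => N p.1) (m := fun p => m p.1) (f := fun p => f p.1)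
      (r := fun p => r p.1) (t := fun p => p.2) (hN.comp (NPC.Poly.fst NPC.Poly.id))
      (hm.comp (NPC.Poly.fst NPC.Poly.id))
      (hf.comp (NPC.Poly.pair (NPC.Poly.fst (NPC.Poly.fst NPC.Poly.id)) (NPC.Poly.snd NPC.Poly.id)))
      (hr.comp (NPC.Poly.pair (NPC.Poly.fst (NPC.Poly.fst NPC.Poly.id)) (NPC.Poly.snd NPC.Poly.id))) (NPC.Poly.snd NPC.Poly.id)
  refine NPC.Poly.map (F := fun (p : α × ℕ) j => hbit (A p.1) (blk (N p.1) (m p.1) (f p.1) (r p.1)
    p.2) j) ((upoly_clen (hN.comp (NPC.Poly.fst NPC.Poly.id)) (hm.comp (NPC.Poly.fst NPC.Poly.id))).add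
      (UPoly.const 1)).range ?_
  exact poly_hbit (α := (α × ℕ) × ℕ) (A := fun p => A p.1.1)
    (hA.comp (NPC.Poly.pair (NPC.Poly.fst (NPC.Poly.fst (NPC.Poly.fst NPC.Poly.id))) (NPC.Poly.snd NPC.Poly.id)))
    (hb.comp (NPC.Poly.fst NPC.Poly.id)) (NPC.Poly.snd NPC.Poly.id)

theorem poly_injB {N : α → ℕ} {κ : α → ℕ → ℕ} (hN : UPoly N)
    (hκ : NPC.Poly (fun p : α × ℕ => κ p.1 p.2)) : NPC.Poly (fun a => injB (N a) (κ a)) := by
  refine NPC.Poly.all (p := fun a x => (List.range (N a)).all fun y =>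
    decide (κ a x = κ a y → x = y)) hN.range ?_
  refine NPC.Poly.all (p := fun (p : α × ℕ) y => decide (κ p.1 p.2 = κ p.1 y → p.2 = y))
    (hN.comp (NPC.Poly.fst NPC.Poly.id)).range ?_
  refine (NPC.Poly.or (NPC.Poly.not (NPC.Poly.decide_eq (hκ.comp (NPC.Poly.fst NPC.Poly.id))
    (hκ.comp (NPC.Poly.pair (NPC.Poly.fst (NPC.Poly.fst NPC.Poly.id)) (NPC.Poly.snd NPC.Poly.id)))))
    (NPC.Poly.decide_eq (NPC.Poly.snd (NPC.Poly.fst NPC.Poly.id)) (NPC.Poly.snd NPC.Poly.id))).congr fun p => ?_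
  by_cases h1 : κ p.1.1 p.1.2 = κ p.1.1 p.2 <;> by_cases h2 : p.1.2 = p.2 <;> simp [h1, h2]

theorem poly_okB {N m t : α → ℕ} {r : α → ℕ → Bool} (hN : UPoly N)
    (hm : UPoly m) (hr : NPC.Poly (fun q : α × ℕ => r q.1 q.2)) (ht : NPC.Poly t) :
    NPC.Poly (fun a => okB (N a) (m a) (r a) (t a)) := by
  refine NPC.Poly.all (p := fun a s => injB (N a) (lab (N a) (m a) (r a) (t a * m a + s)))
    hm.range ?_
  refine poly_injB (α := α × ℕ) (N := fun p => N p.1)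
    (κ := fun p => lab (N p.1) (m p.1) (r p.1) (t p.1 * m p.1 + p.2))
    (hN.comp (NPC.Poly.fst NPC.Poly.id)) ?_
  exact poly_lab (α := (α × ℕ) × ℕ) (N := fun p => N p.1.1) (m := fun p => m p.1.1)
    (r := fun p => r p.1.1) (s := fun p => t p.1.1 * m p.1.1 + p.1.2) (x := fun p => p.2)
    (hN.toPoly.comp (NPC.Poly.fst (NPC.Poly.fst NPC.Poly.id))) (hm.comp (NPC.Poly.fst (NPC.Poly.fst NPC.Poly.id)))
    (hr.comp (NPC.Poly.pair (NPC.Poly.fst (NPC.Poly.fst (NPC.Poly.fst NPC.Poly.id))) (NPC.Poly.snd NPC.Poly.id)))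
    (NPC.Poly.add (NPC.Poly.mul (ht.comp (NPC.Poly.fst (NPC.Poly.fst NPC.Poly.id)))
      (hm.toPoly.comp (NPC.Poly.fst (NPC.Poly.fst NPC.Poly.id)))) (NPC.Poly.snd (NPC.Poly.fst NPC.Poly.id)))
    (NPC.Poly.snd NPC.Poly.id)

end

end Pool.Agent.W2helper58.GA
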