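import Pool.Agent.W2helper58.GA.Code
import Pool.Agent.W2helper58.GA.Hash
import Pool.Agent.W2helper58.GA.Count

/-!
# Rigid structures give random strings
-/

namespace Pool.Agent.W2helper58.GA

open Pool.Agent.NPC Finset

/-- One bit of the hash value: the parity of the common ones of `y` and of a row of `A`. -/
def hbit (A : ℕ → Bool) (y : List Bool) (j : ℕ) : Bool :=
  decide (((List.range y.length).filter
    fun i => y.getD i false && A (j * y.length + i)).length % 2 = 1)

/-- The `p`-th chunk of `m` bits of `r`, as a number. -/
def keyOf (m : ℕ) (r : ℕ → Bool) (p : ℕ) : ℕ := valB ((List.range m).map fun i => r (p * m + i))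

/-- The labelling number `s` given by the bits `r`. -/
def lab (N m : ℕ) (r : ℕ → Bool) (s x : ℕ) : ℕ := keyOf m r (s * N + x)

/-- The block number `t`: the canonical forms of `m` labellings. -/
def blk (N m : ℕ) (f : ℕ → ℕ → List Bool) (r : ℕ → Bool) (t : ℕ) : List Bool :=
  (List.range m).flatMap fun s => canon N m f (lab N m r (t * m + s))

/-- The length of a code of a block. -/
def clen (N m : ℕ) : ℕ := m * (N * m - 1)

/-- The length of a block. -/
def dlen (N m c : ℕ) : ℕ := m * (N * m + N * (N * c))

/-- The string that is tested for randomness. -/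
def zStr (N m T : ℕ) (f : ℕ → ℕ → List Bool) (A r : ℕ → Bool) : List Bool :=
  (List.range T).flatMap fun t => (List.range (clen N m + 1)).map fun j =>
    hbit A (blk N m f r t) j

/-- An injective labelling, as a Boolean. -/
def injB (N : ℕ) (κ : ℕ → ℕ) : Bool :=
  (List.range N).all fun x => (List.range N).all fun y => decide (κ x = κ y → x = y)

theorem injB_iff {N : ℕ} {κ : ℕ → ℕ} : injB N κ = true ↔ Inj N κ := by
  simp [injB, Inj, imp_iff_not_or]

/-- A finite bit sequence, continued by zeros. -/
def ext {p : ℕ} (w : Fin p → Bool) (i : ℕ) : Bool := if h : i < p then w ⟨i, h⟩ else false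

theorem ext_of_lt {p : ℕ} (w : Fin p → Bool) {i : ℕ} (h : i < p) : ext w i = w ⟨i, h⟩ :=
  dif_pos h

theorem keyOf_lt (m : ℕ) (r : ℕ → Bool) (p : ℕ) : keyOf m r p < 2 ^ m := by
  have := valB_lt' ((List.range m).map fun i => r (p * m + i))
  simpa [keyOf] using this

theorem keyOf_inj {m : ℕ} {r r' : ℕ → Bool} {p p' : ℕ} (h : keyOf m r p = keyOf m r' p') :
    ∀ i < m, r (p * m + i) = r' (p' * m + i) := by
  intro i hi
  have := valB_inj_len (by simp) h
  have := congrArg (fun l => l[i]?) this
  simpa [hi] using this

theorem keyOf_congr {m : ℕ} {r r' : ℕ → Bool} {p p' : ℕ}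
    (h : ∀ i < m, r (p * m + i) = r' (p' * m + i)) : keyOf m r p = keyOf m r' p' := by
  unfold keyOf
  congr 1
  refine List.map_congr_left fun i hi => h i (by simpa using hi)

/-- hash bits as sums in the field with two elements -/
theorem hbit_iff (A : ℕ → Bool) (y : List Bool) (j : ℕ) : hbit A y j = true ↔
    (∑ i ∈ range y.length, if y.getD i false && A (j * y.length + i) then (1 : ZMod 2) else 0) =
      1 := by
  unfold hbit
  rw [decide_eq_true_eq, Finset.sum_boole]
  have : ((List.range y.length).filter fun i => y.getD i false && A (j * y.length + i)).length =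
      ((range y.length).filter fun i => (y.getD i false && A (j * y.length + i)) = true).card := by
    simp only [Finset.card, Finset.filter, Finset.range, Multiset.range]
    simp
  rw [this]
  generalize ((range y.length).filter
    fun i => (y.getD i false && A (j * y.length + i)) = true).card = n
  have := ZMod.natCast_eq_natCast_iff' n 1 2
  simpa using this.symm

theorem hbit_congr {A A' : ℕ → Bool} {y : List Bool} {j : ℕ}
    (h : ∀ i < y.length, A (j * y.length + i) = A' (j * y.length + i)) :
    hbit A y j = hbit A' y j := by
  have : (List.range y.length).filter (fun i => y.getD i false && A (j * y.length + i)) =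
      (List.range y.length).filter (fun i => y.getD i false && A' (j * y.length + i)) := by
    refine List.filter_congr fun i hi => ?_
    rw [h i (by simpa using hi)]
  unfold hbit
  rw [this]

theorem zmod2_eq (a : ZMod 2) : a = 0 ∨ a = 1 := by
  revert a; decide

/-- Changing one column of `A` by `v` changes the hash bit of `y` by `v_j y_i`. -/
theorem hbit_xor {A A' : ℕ → Bool} {y : List Bool} {j i₀ : ℕ} {v : Bool} (hi : i₀ < y.length)
    (h : ∀ i < y.length, A' (j * y.length + i) =
      (A (j * y.length + i) ^^ (decide (i = i₀) && v))) :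
    hbit A' y j = (hbit A y j ^^ (v && y.getD i₀ false)) := by
  have h1 : (∑ i ∈ range y.length, if y.getD i false && A' (j * y.length + i) then (1 : ZMod 2)
      else 0) = (∑ i ∈ range y.length, if y.getD i false && A (j * y.length + i) then
        (1 : ZMod 2) else 0) + if v && y.getD i₀ false then (1 : ZMod 2) else 0 := by
    have h2 : ∀ i ∈ range y.length, (if y.getD i false && A' (j * y.length + i) then (1 : ZMod 2)
        else 0) = (if y.getD i false && A (j * y.length + i) then (1 : ZMod 2) else 0) +
          if i = i₀ then (if v && y.getD i₀ false then (1 : ZMod 2) else 0) else 0 := by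
      intro i hi
      rw [h i (by simpa using hi)]
      by_cases hii : i = i₀
      · subst hii
        simp only [decide_true, Bool.true_and, if_true]
        cases y.getD i false <;> cases A (j * y.length + i) <;> cases v <;> decide
      · simp [hii]
    rw [Finset.sum_congr rfl h2, Finset.sum_add_distrib, Finset.sum_ite_eq' (range y.length) i₀,
      if_pos (by simpa using hi)]
  have e1 := hbit_iff A y j
  have e2 := hbit_iff A' y j
  rw [h1] at e2
  clear h1
  generalize (∑ i ∈ range y.length, if y.getD i false && A (j * y.length + i) then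
        (1 : ZMod 2) else 0) = S at e1 e2
  generalize hbit A y j = B at *
  generalize hbit A' y j = B' at *
  generalize (v && y.getD i₀ false) = V at *
  revert S B B' V
  decide

/-- The hash functions are universal. -/
theorem hash_universal (ℓ : ℕ) {D : ℕ} {y y' : List Bool} (hy : y.length = D)
    (hy' : y'.length = D) (hne : y ≠ y') :
    2 ^ ℓ * (univ.filter fun A : Fin (ℓ * D) → Bool =>
      (fun j : Fin ℓ => hbit (ext A) y j) = fun j : Fin ℓ => hbit (ext A) y' j).card ≤
      2 ^ (ℓ * D) := by
  obtain ⟨i₀, hi₀, hyi⟩ : ∃ i < D, y.getD i false ≠ y'.getD i false := by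
    by_contra hcon
    push Not at hcon
    apply hne
    apply List.ext_getElem (by rw [hy, hy'])
    intro i h1 h2
    have := hcon i (by omega)
    rwa [List.getD_eq_getElem?_getD, List.getD_eq_getElem?_getD, List.getElem?_eq_getElem h1,
      List.getElem?_eq_getElem h2] at this
  have hD : 0 < D := by omega
  set C := univ.filter fun A : Fin (ℓ * D) → Bool =>
      (fun j : Fin ℓ => hbit (ext A) y j) = fun j : Fin ℓ => hbit (ext A) y' j with hC
  -- changing the column
  let Φ : (Fin ℓ → Bool) × (Fin (ℓ * D) → Bool) → (Fin (ℓ * D) → Bool) := fun p k =>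
    (p.2 k ^^ (decide ((k : ℕ) % D = i₀) && ext p.1 ((k : ℕ) / D)))
  have hΦ : ∀ (p : (Fin ℓ → Bool) × (Fin (ℓ * D) → Bool)) (j : Fin ℓ) (z : List Bool),
      z.length = D → hbit (ext (Φ p)) z j = (hbit (ext p.2) z j ^^ (p.1 j && z.getD i₀ false)) := by
    intro p j z hz
    refine hbit_xor (by omega) ?_
    intro i hi
    rw [hz] at hi ⊢
    have hlt : (j : ℕ) * D + i < ℓ * D := by
      have : ((j : ℕ) + 1) * D ≤ ℓ * D := Nat.mul_le_mul_right _ j.2
      rw [add_mul, one_mul] at this
      omega
    rw [ext_of_lt _ hlt, ext_of_lt _ hlt]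
    simp only [Φ]
    have e1 : ((j : ℕ) * D + i) % D = i := by
      rw [mul_comm, Nat.mul_add_mod, Nat.mod_eq_of_lt hi]
    have e2 : ((j : ℕ) * D + i) / D = j := by
      rw [mul_comm, Nat.mul_add_div hD, Nat.div_eq_of_lt hi, add_zero]
    rw [e1, e2, ext_of_lt _ j.2]
  have hinj : Set.InjOn Φ ((univ : Finset (Fin ℓ → Bool)) ×ˢ C : Finset _) := by
    rintro ⟨v, A⟩ hA ⟨v', A'⟩ hA' h
    simp only [Finset.coe_product, Set.mem_prod, Finset.mem_coe, hC, Finset.mem_filter,
      Finset.mem_univ, true_and] at hA hA'
    have hv : v = v' := by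
      funext j
      have a1 := hΦ (v, A) j y hy
      have a2 := hΦ (v, A) j y' hy'
      have a3 := hΦ (v', A') j y hy
      have a4 := hΦ (v', A') j y' hy'
      have b1 := congrFun hA j
      have b2 := congrFun hA' j
      rw [h] at a1 a2
      simp only at a1 a2 a3 a4 b1 b2
      rw [a3] at a1
      rw [a4] at a2
      rw [b1] at a1
      rw [b2] at a1
      generalize hbit (ext A) y' j = P at *
      generalize hbit (ext A') y' j = Q at *
      generalize y.getD i₀ false = a at *
      generalize y'.getD i₀ false = b at *
      generalize v j = c at *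
      generalize v' j = e at *
      cases P <;> cases Q <;> cases a <;> cases b <;> cases c <;> cases e <;> simp_all
    subst hv
    have hAA : A = A' := by
      funext k
      have := congrFun h k
      simp only [Φ] at this
      generalize (decide ((k : ℕ) % D = i₀) && ext v ((k : ℕ) / D)) = b at *
      cases b <;> cases hA1 : A k <;> cases hA2 : A' k <;> simp_all
    rw [hAA]
  have := Finset.card_le_card_of_injOn (t := (univ : Finset (Fin (ℓ * D) → Bool))) Φ
    (fun _ _ => by simp) hinj
  rw [Finset.card_product] at this
  simpa using this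

end Pool.Agent.W2helper58.GA
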