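import Pool.Agent.W2helper58.GA.Prob

/-!
# Rigid structures give random strings, continued
-/

namespace Pool.Agent.W2helper58.GA

open Pool.Agent.NPC Finset

/-- The number of random bits of a block. -/
def qlen (N m : ℕ) : ℕ := m * N * m

/-- Are all labellings of a block injective? -/
def okB (N m : ℕ) (r : ℕ → Bool) (t : ℕ) : Bool :=
  (List.range m).all fun s => injB N (lab N m r (t * m + s))

theorem okB_iff {N m : ℕ} {r : ℕ → Bool} {t : ℕ} :
    okB N m r t = true ↔ ∀ s < m, Inj N (lab N m r (t * m + s)) := by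
  simp [okB, injB_iff]

theorem pos_lt {N m s x i : ℕ} (hs : s < m) (hx : x < N) (hi : i < m) :
    (s * N + x) * m + i < qlen N m := by
  unfold qlen
  have h1 : s * N + x + 1 ≤ m * N := by
    have : (s + 1) * N ≤ m * N := Nat.mul_le_mul_right _ hs
    rw [add_mul, one_mul] at this
    omega
  have h2 : (s * N + x + 1) * m ≤ m * N * m := Nat.mul_le_mul_right _ h1
  rw [add_mul, one_mul] at h2
  omega

/-- Two different chunks of bits rarely agree. -/
theorem chunk_card {q m p p' : ℕ} (hp : p * m + m ≤ q) (hp' : p' * m + m ≤ q) (hpp : p ≠ p') :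
    2 ^ m * (univ.filter fun ω : Fin q → Bool => keyOf m (ext ω) p = keyOf m (ext ω) p').card ≤
      2 ^ q := by
  rcases Nat.eq_zero_or_pos m with rfl | hm
  · simp only [pow_zero, one_mul]
    refine (Finset.card_le_univ _).trans ?_
    simp
  set C := univ.filter fun ω : Fin q → Bool => keyOf m (ext ω) p = keyOf m (ext ω) p' with hC
  let Φ : (Fin m → Bool) × (Fin q → Bool) → (Fin q → Bool) := fun a k =>
    (a.2 k ^^ (decide ((k : ℕ) / m = p) && ext a.1 ((k : ℕ) % m)))
  have e1 : ∀ P i, i < m → (P * m + i) / m = P := fun P i hi => by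
    rw [mul_comm, Nat.mul_add_div hm, Nat.div_eq_of_lt hi, add_zero]
  have e2 : ∀ P i, i < m → (P * m + i) % m = i := fun P i hi => by
    rw [mul_comm, Nat.mul_add_mod, Nat.mod_eq_of_lt hi]
  have hΦ1 : ∀ a i (hi : i < m), Φ a ⟨p * m + i, by omega⟩ =
      (a.2 ⟨p * m + i, by omega⟩ ^^ a.1 ⟨i, hi⟩) := by
    intro a i hi
    simp only [Φ]
    rw [e1 _ _ hi, e2 _ _ hi, ext_of_lt _ hi]
    simp
  have hΦ2 : ∀ a i (hi : i < m), Φ a ⟨p' * m + i, by omega⟩ = a.2 ⟨p' * m + i, by omega⟩ := by
    intro a i hi
    simp only [Φ]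
    rw [e1 _ _ hi]
    simp [Ne.symm hpp]
  have hinj : Set.InjOn Φ ((univ : Finset (Fin m → Bool)) ×ˢ C : Finset _) := by
    rintro ⟨v, A⟩ hA ⟨v', A'⟩ hA' h
    simp only [Finset.coe_product, Set.mem_prod, Finset.mem_coe, hC, Finset.mem_filter,
      Finset.mem_univ, true_and] at hA hA'
    have hv : v = v' := by
      funext i
      have a1 := hΦ1 (v, A) i i.2
      have a2 := hΦ2 (v, A) i i.2
      have a3 := hΦ1 (v', A') i i.2
      have a4 := hΦ2 (v', A') i i.2
      have b1 := keyOf_inj hA i i.2
      have b2 := keyOf_inj hA' i i.2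
      rw [ext_of_lt _ (by omega), ext_of_lt _ (by omega)] at b1 b2
      rw [h] at a1 a2
      simp only [Fin.eta] at a1 a2 a3 a4 b1 b2
      rw [a3, b1, b2] at a1
      rw [a4] at a2
      rw [a2] at a1
      generalize A ⟨p' * m + i, by omega⟩ = P at *
      cases P <;> cases hvi : v i <;> cases hvi' : v' i <;> simp_all
    subst hv
    have hAA : A = A' := by
      funext k
      have := congrFun h k
      simp only [Φ] at this
      generalize (decide ((k : ℕ) / m = p) && ext v ((k : ℕ) % m)) = b at *
      cases b <;> cases hA1 : A k <;> cases hA2 : A' k <;> simp_all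
    rw [hAA]
  have := Finset.card_le_card_of_injOn (t := (univ : Finset (Fin q → Bool))) Φ
    (fun _ _ => by simp) hinj
  rw [Finset.card_product] at this
  simpa using this

/-- Few blocks have a labelling that is not injective. -/
theorem notok_card {N m : ℕ} :
    2 ^ m * (univ.filter fun ω : Fin (qlen N m) → Bool => okB N m (ext ω) 0 = false).card ≤
      m * N ^ 2 * 2 ^ qlen N m := by
  have hsub : (univ.filter fun ω : Fin (qlen N m) → Bool => okB N m (ext ω) 0 = false) ⊆
      (range m ×ˢ (range N ×ˢ range N)).biUnion fun p =>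
        if p.2.1 ≠ p.2.2 then (univ.filter fun ω : Fin (qlen N m) → Bool =>
          keyOf m (ext ω) (p.1 * N + p.2.1) = keyOf m (ext ω) (p.1 * N + p.2.2)) else ∅ := by
    intro ω hω
    simp only [Finset.mem_filter, Finset.mem_univ, true_and] at hω
    have h1 : ¬ ∀ s < m, Inj N (lab N m (ext ω) (0 * m + s)) := by
      rw [← okB_iff, hω]; simp
    push Not at h1
    obtain ⟨s, hs, h2⟩ := h1
    unfold Inj at h2
    push Not at h2
    obtain ⟨x, hx, y, hy, h3, h4⟩ := h2
    rw [Finset.mem_biUnion]
    refine ⟨(s, x, y), by simp [hs, hx, hy], ?_⟩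
    simp only [if_pos h4, Finset.mem_filter, Finset.mem_univ, true_and]
    simpa [lab] using h3
  refine (Nat.mul_le_mul_left _ ((Finset.card_le_card hsub).trans Finset.card_biUnion_le)).trans ?_
  rw [Finset.mul_sum]
  refine (Finset.sum_le_card_nsmul _ _ (2 ^ qlen N m) ?_).trans (le_of_eq ?_)
  · rintro ⟨s, x, y⟩ hp
    simp only [Finset.mem_product, Finset.mem_range] at hp
    simp only
    split_ifs with hxy
    · have h1 : ∀ z, z < N → (s * N + z) * m + m ≤ qlen N m := by
        intro z hz
        rcases Nat.eq_zero_or_pos m with hm0 | hm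
        · subst hm0; simp
        · have := pos_lt (i := m - 1) hp.1 hz (by omega)
          omega
      exact chunk_card (h1 _ hp.2.1) (h1 _ hp.2.2) (by omega)
    · simp
  · simp only [Finset.card_product, Finset.card_range, smul_eq_mul]
    ring

/-- A structure without non-trivial automorphisms. -/
def Rigid (N : ℕ) (f : ℕ → ℕ → List Bool) : Prop := ∀ σ, IsAut N f σ → ∀ x < N, σ x = x

/-- For rigid structures the labellings can be recovered from a block. -/
theorem blk_inj {N m c : ℕ} {f : ℕ → ℕ → List Bool}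
    (hf : ∀ x < N, ∀ y < N, (f x y).length = c) (hr : Rigid N f)
    {ω ω' : Fin (qlen N m) → Bool} (h : blk N m f (ext ω) 0 = blk N m f (ext ω') 0) : ω = ω' := by
  have h1 := flatMap_inj (c := N * m + N * (N * c)) rfl
    (fun s _ => canon_length hf _) (fun s _ => canon_length hf _) h
  have h2 : ∀ s < m, ∀ x < N, lab N m (ext ω) s x = lab N m (ext ω') s x := by
    intro s hs
    have := congrArg (fun l => l[s]?) h1
    simp only [List.getElem?_map, List.getElem?_range hs, Option.map_some, Option.some.injEq,
      zero_mul, zero_add] at this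
    obtain ⟨σ, hσ, hk⟩ := canon_inj hf (fun x _ => keyOf_lt _ _ _) (fun x _ => keyOf_lt _ _ _) this
    intro x hx
    have h3 := hk x hx
    rw [hr σ hσ x hx] at h3
    exact h3
  funext k
  have hk : (k : ℕ) < m * N * m := k.2
  have hm : 0 < m := by
    rcases Nat.eq_zero_or_pos m with h0 | h0
    · subst h0; simp at hk
    · exact h0
  have hN : 0 < N := by
    rcases Nat.eq_zero_or_pos N with h0 | h0
    · subst h0; simp at hk
    · exact h0
  set p := (k : ℕ) / m with hp
  set i := (k : ℕ) % m with hi
  have hpm : p < m * N := (Nat.div_lt_iff_lt_mul hm).2 hk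
  set s := p / N with hs
  set x := p % N with hx
  have hs' : s < m := (Nat.div_lt_iff_lt_mul hN).2 hpm
  have hx' : x < N := Nat.mod_lt _ hN
  have hpe : s * N + x = p := by rw [hs, hx, mul_comm]; exact Nat.div_add_mod p N
  have hke : p * m + i = k := by rw [hp, hi, mul_comm]; exact Nat.div_add_mod _ m
  have := keyOf_inj (h2 s hs' x hx') i (Nat.mod_lt _ hm)
  rw [hpe, hke, ext_of_lt _ k.2, ext_of_lt _ k.2] at this
  exact this

theorem blk_length {N m c : ℕ} {f : ℕ → ℕ → List Bool}
    (hf : ∀ x < N, ∀ y < N, (f x y).length = c) (r : ℕ → Bool) (t : ℕ) :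
    (blk N m f r t).length = dlen N m c := by
  unfold blk dlen
  rw [flatMap_length (c := N * m + N * (N * c)), List.length_range]
  exact fun s _ => canon_length hf _

/-- The number of random bits of the hash function. -/
def hlen (N m c : ℕ) : ℕ := (clen N m + 1) * dlen N m c

/-- The number of random bits of a test. -/
def rlen (N m T c : ℕ) : ℕ := hlen N m c + T * qlen N m

/-- The test: are all labellings injective, and is the string KT-random? -/
noncomputable def tst (U : Machine) (N m T c : ℕ) (f : ℕ → ℕ → List Bool) (r : ℕ → Bool) : Bool :=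
  ((List.range T).all fun t => okB N m (fun i => r (hlen N m c + i)) t) &&
    RKT U (zStr N m T f r fun i => r (hlen N m c + i))

theorem rigid_count {U : Machine} (hU : U.Good) {N m T c : ℕ} {f : ℕ → ℕ → List Bool}
    (hf : ∀ x < N, ∀ y < N, (f x y).length = c) (hr : Rigid N f) (hN : 0 < N) (hT : 0 < T)
    (hb : 16 * T ^ 2 * (2 + 2 * m * N ^ 2) ≤ 2 ^ m) :
    2 ^ rlen N m T c ≤ 4 * (univ.filter fun w : Fin (rlen N m T c) → Bool =>
      tst U N m T c f (ext w) = true).card := by
  have hm : 0 < m := by
    rcases Nat.eq_zero_or_pos m with h0 | h0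
    · subst h0
      have : 0 < T ^ 2 := by positivity
      simp at hb
      omega
    · exact h0
  set ℓ := clen N m + 1 with hℓ
  set D := dlen N m c with hD
  set q := qlen N m with hq
  let h : (Fin (ℓ * D) → Bool) → (Fin q → Bool) → (Fin ℓ → Bool) := fun A ω j =>
    hbit (ext A) (blk N m f (ext ω) 0) j
  let ok : (Fin q → Bool) → Bool := fun ω => okB N m (ext ω) 0
  -- the string given by the hash values
  let zl : (Fin T → Fin ℓ → Bool) → List Bool := fun v =>
    (List.range T).flatMap fun t => (List.range ℓ).map fun j =>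
      if ht : t < T then ext (v ⟨t, ht⟩) j else false
  have hzl : ∀ v, (zl v).length = T * ℓ := by
    intro v
    rw [flatMap_length (c := ℓ) (by simp), List.length_range]
  have hzinj : Function.Injective zl := by
    intro v v' hv
    have h1 := flatMap_inj (c := ℓ) rfl (by simp) (by simp) hv
    funext t j
    have h2 := congrArg (fun l => l[(t : ℕ)]?) h1
    simp only [List.getElem?_map, List.getElem?_range t.2, Option.map_some, Option.some.injEq]
      at h2
    have h3 := congrArg (fun l => l[(j : ℕ)]?) h2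
    simpa only [List.getElem?_map, List.getElem?_range j.2, Option.map_some, Option.some.injEq,
      dif_pos t.2, ext_of_lt _ j.2] using h3
  let S : Finset (Fin T → Fin ℓ → Bool) := univ.filter fun v => RKT U (zl v) = true
  have hScard : (2 : ℝ) ^ (T * ℓ) / 2 ≤ S.card := by
    have h1 : 2 * (univ.filter fun v : Fin T → Fin ℓ → Bool => RKT U (zl v) = false).card ≤
        2 ^ (T * ℓ) := by
      refine le_trans (Nat.mul_le_mul_left _ ?_) (nonrandom_card hU (L := T * ℓ) (by positivity))
      rw [← Fintype.card_subtype, ← Nat.card_eq_fintype_card]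
      refine Nat.card_le_card_of_injective
        (fun v => ⟨fun k => (zl v.1)[(k : ℕ)]'(by rw [hzl]; exact k.2), ?_⟩) ?_
      · have : List.ofFn (fun k : Fin (T * ℓ) => (zl v.1)[(k : ℕ)]'(by rw [hzl]; exact k.2)) =
            zl v.1 := by
          apply List.ext_getElem (by simp [hzl])
          intro i h1 h2
          simp
        rw [this]
        exact v.2
      · intro v v' hvv
        have h2 := congrArg Subtype.val hvv
        simp only at h2
        apply Subtype.ext
        apply hzinj
        apply List.ext_getElem (by rw [hzl, hzl])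
        intro i h3 h4
        have := congrFun h2 ⟨i, by rw [← hzl v.1]; exact h3⟩
        exact this
    have h2 : (univ.filter fun v : Fin T → Fin ℓ → Bool => RKT U (zl v) = false).card + S.card =
        2 ^ (T * ℓ) := by
      have e : (univ.filter fun v : Fin T → Fin ℓ → Bool => RKT U (zl v) = false) =
          univ.filter fun v => ¬ RKT U (zl v) = true := by
        ext v; simp
      rw [e, add_comm]
      have := Finset.card_filter_add_card_filter_not (s := (univ : Finset (Fin T → Fin ℓ → Bool)))
        (fun v => RKT U (zl v) = true)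
      rw [this]
      simp [← pow_mul, mul_comm]
    have h3 : (2 : ℝ) * ((univ.filter fun v : Fin T → Fin ℓ → Bool => RKT U (zl v) =
        false).card : ℝ) ≤ 2 ^ (T * ℓ) := by exact_mod_cast h1
    have h4 : ((univ.filter fun v : Fin T → Fin ℓ → Bool => RKT U (zl v) = false).card : ℝ) +
        S.card = 2 ^ (T * ℓ) := by exact_mod_cast h2
    linarith
  have hW : (Fintype.card (Fin ℓ → Bool) : ℝ) = 2 ^ ℓ := by simp
  have hΩ : (Fintype.card (Fin q → Bool) : ℝ) = 2 ^ q := by simp
  have hH : (Fintype.card (Fin (ℓ * D) → Bool) : ℝ) = 2 ^ (ℓ * D) := by simp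
  have hqℓ : q + 1 = ℓ + m := by
    rw [hq, hℓ]
    unfold qlen clen
    have : 1 ≤ N * m := Nat.mul_pos hN hm
    obtain ⟨k, hk⟩ := Nat.exists_eq_add_of_le this
    rw [mul_assoc, hk, Nat.add_sub_cancel_left]
    ring
  have h2m : (0 : ℝ) < 2 ^ m := by positivity
  have key := hash_prob h ok (by
      intro ω ω' _ _ hne
      have := hash_universal ℓ (blk_length hf (ext ω) 0) (blk_length hf (ext ω') 0)
        (fun hh => hne (blk_inj hf hr hh))
      simpa using this) T S (m * N ^ 2 / 2 ^ m) (1 / 4) (by
      have := notok_card (N := N) (m := m)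
      rw [hΩ, div_mul_eq_mul_div, le_div_iff₀ h2m, mul_comm]
      exact_mod_cast this) (by norm_num) (by
      rw [hW, hΩ]
      have e1 : (2 : ℝ) ^ ℓ / 2 ^ q = 2 / 2 ^ m := by
        rw [div_eq_div_iff (by positivity) (by positivity)]
        have : (2 : ℝ) ^ (q + 1) = 2 ^ (ℓ + m) := by rw [hqℓ]
        rw [pow_succ, pow_add] at this
        linarith
      rw [e1]
      have e2 : (T : ℝ) ^ 2 * (2 / 2 ^ m + 2 * (m * N ^ 2 / 2 ^ m)) =
          (T ^ 2 * (2 + 2 * m * N ^ 2)) / 2 ^ m := by ring
      rw [e2, div_le_iff₀ h2m]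
      have : (16 : ℝ) * T ^ 2 * (2 + 2 * m * N ^ 2) ≤ 2 ^ m := by exact_mod_cast hb
      linarith)
  rw [hH, hΩ, hW] at key
  -- transfer to bit strings
  let join : (Fin (ℓ * D) → Bool) × (Fin T → Fin q → Bool) → (Fin (rlen N m T c) → Bool) :=
    fun p k => if (k : ℕ) < ℓ * D then ext p.1 k else
      if ht : ((k : ℕ) - ℓ * D) / q < T then ext (p.2 ⟨_, ht⟩) (((k : ℕ) - ℓ * D) % q) else false
  have hq0 : 0 < q := by rw [hq]; unfold qlen; positivity
  have hr1 : ∀ p k, k < ℓ * D → ext (join p) k = ext p.1 k := by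
    intro p k hk
    have : k < rlen N m T c := lt_of_lt_of_le hk (Nat.le_add_right _ _)
    rw [ext_of_lt _ this]
    simp only [join]
    rw [if_pos hk]
  have hr2 : ∀ p t (ht : t < T) i, i < q → ext (join p) (ℓ * D + (t * q + i)) =
      ext (p.2 ⟨t, ht⟩) i := by
    intro p t ht i hi
    have h1 : t * q + i < T * q := by
      have : (t + 1) * q ≤ T * q := Nat.mul_le_mul_right _ ht
      rw [add_mul, one_mul] at this
      omega
    have : ℓ * D + (t * q + i) < rlen N m T c := Nat.add_lt_add_left h1 _
    rw [ext_of_lt _ this]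
    simp only [join]
    rw [if_neg (by omega)]
    have e1 : (ℓ * D + (t * q + i) - ℓ * D) / q = t := by
      rw [Nat.add_sub_cancel_left, mul_comm, Nat.mul_add_div hq0, Nat.div_eq_of_lt hi, add_zero]
    have e2 : (ℓ * D + (t * q + i) - ℓ * D) % q = i := by
      rw [Nat.add_sub_cancel_left, mul_comm, Nat.mul_add_mod, Nat.mod_eq_of_lt hi]
    simp only [e1, e2, ht, dif_pos]
  have hjinj : Function.Injective join := by
    rintro ⟨A, ω⟩ ⟨A', ω'⟩ hj
    have a1 : A = A' := by
      funext k
      have h1 := hr1 (A, ω) k k.2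
      have h2 := hr1 (A', ω') k k.2
      rw [hj, h2, ext_of_lt _ k.2, ext_of_lt _ k.2] at h1
      exact h1.symm
    have a2 : ω = ω' := by
      funext t i
      have h1 := hr2 (A, ω) t t.2 i i.2
      have h2 := hr2 (A', ω') t t.2 i i.2
      rw [hj, h2, ext_of_lt _ i.2, ext_of_lt _ i.2] at h1
      exact h1.symm
    rw [a1, a2]
  have hlab : ∀ p t (ht : t < T) s, s < m → ∀ x < N,
      lab N m (fun i => ext (join p) (hlen N m c + i)) (t * m + s) x =
        lab N m (ext (p.2 ⟨t, ht⟩)) s x := by
    intro p t ht s hs x hx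
    refine keyOf_congr fun i hi => ?_
    have e : ((t * m + s) * N + x) * m + i = t * q + ((s * N + x) * m + i) := by
      rw [hq]; unfold qlen; ring
    rw [e]
    exact hr2 p t ht _ (pos_lt hs hx hi)
  have hblk : ∀ p t (ht : t < T), blk N m f (fun i => ext (join p) (hlen N m c + i)) t =
      blk N m f (ext (p.2 ⟨t, ht⟩)) 0 := by
    intro p t ht
    unfold blk
    refine flatMap_congr' fun s hs => ?_
    rw [zero_mul, zero_add]
    exact canon_congr (hlab p t ht s (by simpa using hs)) fun _ _ _ _ => rfl
  have hcount : (univ.filter fun p : (Fin (ℓ * D) → Bool) × (Fin T → Fin q → Bool) =>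
      (∀ t, ok (p.2 t) = true) ∧ (fun t => h p.1 (p.2 t)) ∈ S).card ≤
      (univ.filter fun w : Fin (rlen N m T c) → Bool => tst U N m T c f (ext w) = true).card := by
    refine Finset.card_le_card_of_injOn join ?_ (hjinj.injOn)
    intro p hp
    simp only [Finset.coe_filter, Finset.mem_univ, true_and, Set.mem_ofPred_eq] at hp ⊢
    obtain ⟨hp1, hp2⟩ := hp
    unfold tst
    rw [Bool.and_eq_true]
    constructor
    · rw [List.all_eq_true]
      intro t ht
      have ht' : t < T := by simpa using ht
      rw [okB_iff]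
      intro s hs
      have h1 := hp1 ⟨t, ht'⟩
      simp only [ok] at h1
      rw [okB_iff] at h1
      have h2 := h1 s hs
      rw [zero_mul, zero_add] at h2
      intro x hx y hy hxy
      rw [hlab p t ht' s hs x hx, hlab p t ht' s hs y hy] at hxy
      exact h2 x hx y hy hxy
    · simp only [S, Finset.mem_filter, Finset.mem_univ, true_and] at hp2
      have : zStr N m T f (ext (join p)) (fun i => ext (join p) (hlen N m c + i)) =
          zl fun t => h p.1 (p.2 t) := by
        unfold zStr
        refine flatMap_congr' fun t ht => ?_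
        have ht' : t < T := by simpa using ht
        refine List.map_congr_left fun j hj => ?_
        have hj' : j < ℓ := List.mem_range.1 hj
        rw [dif_pos ht', ext_of_lt _ hj', hblk p t ht']
        refine hbit_congr fun i hi => ?_
        rw [blk_length hf, ← hD] at hi ⊢
        apply hr1
        have : (j + 1) * D ≤ ℓ * D := Nat.mul_le_mul_right _ hj'
        rw [add_mul, one_mul] at this
        omega
      rw [this]
      exact hp2
  have hfin : (2 : ℝ) ^ rlen N m T c ≤ 4 * ((univ.filter fun w : Fin (rlen N m T c) → Bool =>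
      tst U N m T c f (ext w) = true).card : ℝ) := by
    have h1 : ((univ.filter fun p : (Fin (ℓ * D) → Bool) × (Fin T → Fin q → Bool) =>
      (∀ t, ok (p.2 t) = true) ∧ (fun t => h p.1 (p.2 t)) ∈ S).card : ℝ) ≤
      ((univ.filter fun w : Fin (rlen N m T c) → Bool =>
        tst U N m T c f (ext w) = true).card : ℝ) := by exact_mod_cast hcount
    have h2 : (1 : ℝ) / 4 * (2 ^ (ℓ * D) * (2 ^ q) ^ T) ≤
        ((S.card : ℝ) / (2 ^ ℓ) ^ T - 1 / 4) * (2 ^ (ℓ * D) * (2 ^ q) ^ T) := by
      refine mul_le_mul_of_nonneg_right ?_ (by positivity)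
      have : (1 : ℝ) / 2 ≤ (S.card : ℝ) / (2 ^ ℓ) ^ T := by
        rw [le_div_iff₀ (by positivity), ← pow_mul, mul_comm ℓ T]
        linarith
      linarith
    have h3 : (2 : ℝ) ^ rlen N m T c = 2 ^ (ℓ * D) * (2 ^ q) ^ T := by
      unfold rlen hlen
      rw [pow_add, ← pow_mul, mul_comm T]
    rw [h3]
    linarith
  exact_mod_cast hfin

end Pool.Agent.W2helper58.GA
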